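import Mathlib

set_option autoImplicit false

open MeasureTheory Set Real

namespace Pool.Agent.Lib.MP_f3b2fd_co

/-- Euclidean three-space. -/
abbrev E3 := EuclideanSpace ℝ (Fin 3)

theorem disc_vol (c : ℝ) :
    volume {y : Fin 2 → ℝ | y 0 ^ 2 + y 1 ^ 2 ≤ c} = ENNReal.ofReal (π * c) := by
  rcases lt_or_ge c 0 with hc | hc
  · have : {y : Fin 2 → ℝ | y 0 ^ 2 + y 1 ^ 2 ≤ c} = ∅ := by
      ext y
      simp only [mem_ofPred_eq, mem_empty_iff_false, iff_false, not_le]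
      nlinarith [sq_nonneg (y 0), sq_nonneg (y 1)]
    rw [this, measure_empty, ENNReal.ofReal_of_nonpos]
    nlinarith [pi_pos]
  · have h1 := (PiLp.volume_preserving_toLp (Fin 2)).measure_preimage
      (s := Metric.closedBall (0 : EuclideanSpace ℝ (Fin 2)) (√c))
      measurableSet_closedBall.nullMeasurableSet
    have h2 : (WithLp.toLp 2) ⁻¹' (Metric.closedBall (0 : EuclideanSpace ℝ (Fin 2)) (√c)) =
        {y : Fin 2 → ℝ | y 0 ^ 2 + y 1 ^ 2 ≤ c} := by
      ext y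
      simp only [mem_preimage, mem_closedBall_zero_iff, mem_ofPred_eq]
      rw [Real.le_sqrt (norm_nonneg _) hc, EuclideanSpace.real_norm_sq_eq, Fin.sum_univ_two]
    rw [← h2, h1, EuclideanSpace.volume_closedBall_fin_two,
      ← ENNReal.ofReal_pow (Real.sqrt_nonneg _), Real.sq_sqrt hc, ← ENNReal.ofReal_mul hc,
      mul_comm]

theorem slab_coord (r : ℝ) (A : Set ℝ) (hA : MeasurableSet A) :
    volume {x : Fin 3 → ℝ | x 0 ^ 2 + x 1 ^ 2 + x 2 ^ 2 ≤ r ^ 2 ∧ x 0 ∈ A} =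
      ∫⁻ t in A, ENNReal.ofReal (π * (r ^ 2 - t ^ 2)) := by
  set S : Set (ℝ × (Fin 2 → ℝ)) := {p | p.1 ^ 2 + p.2 0 ^ 2 + p.2 1 ^ 2 ≤ r ^ 2 ∧ p.1 ∈ A} with hS
  have hSm : MeasurableSet S := by
    have h0 : MeasurableSet {p : ℝ × (Fin 2 → ℝ) | p.1 ^ 2 + p.2 0 ^ 2 + p.2 1 ^ 2 ≤ r ^ 2} :=
      measurableSet_le (by fun_prop) (by fun_prop)
    exact h0.inter (measurable_fst hA)
  have h1 := (volume_preserving_piFinSuccAbove (fun _ : Fin 3 => ℝ) 0).measure_preimage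
    (s := S) hSm.nullMeasurableSet
  have h2 : (MeasurableEquiv.piFinSuccAbove (fun _ : Fin 3 => ℝ) 0) ⁻¹' S =
      {x : Fin 3 → ℝ | x 0 ^ 2 + x 1 ^ 2 + x 2 ^ 2 ≤ r ^ 2 ∧ x 0 ∈ A} := by
    ext x
    rfl
  rw [← h2, h1, Measure.volume_eq_prod, Measure.prod_apply hSm, ← lintegral_indicator hA]
  refine lintegral_congr fun t => ?_
  by_cases ht : t ∈ A
  · rw [indicator_of_mem ht, ← disc_vol]
    congr 1
    ext y
    simp only [hS, mem_preimage, mem_ofPred_eq, ht, and_true]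
    constructor <;> intro h <;> linarith
  · rw [indicator_of_notMem ht]
    have : Prod.mk t ⁻¹' S = ∅ := by
      ext y
      simp [hS, ht]
    rw [this, measure_empty]

theorem slab_vol (r : ℝ) (hr : 0 ≤ r) (u : E3) (hu : ‖u‖ = 1) (A : Set ℝ) (hA : MeasurableSet A) :
    volume {x : E3 | ‖x‖ ≤ r ∧ inner ℝ u x ∈ A} =
      ∫⁻ t in A, ENNReal.ofReal (π * (r ^ 2 - t ^ 2)) := by
  set e : E3 := EuclideanSpace.single 0 1 with he
  have hen : ‖e‖ = 1 := by simp [he]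
  set R : E3 ≃ₗᵢ[ℝ] E3 := Submodule.reflection (ℝ ∙ (e - u))ᗮ with hR
  have hRe : R e = u := Submodule.reflection_sub (by rw [hen, hu])
  have hm : MeasurableSet {x : E3 | ‖x‖ ≤ r ∧ inner ℝ u x ∈ A} := by
    have h0 : MeasurableSet {x : E3 | ‖x‖ ≤ r} := measurableSet_le (by fun_prop) (by fun_prop)
    have : Measurable fun x : E3 => inner ℝ u x := by fun_prop
    exact h0.inter (this hA)
  have h1 := ((R.measurePreserving).comp (PiLp.volume_preserving_toLp (Fin 3))).measure_preimage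
    hm.nullMeasurableSet
  rw [← h1, ← slab_coord r A hA]
  congr 1
  ext x
  simp only [mem_preimage, Function.comp, mem_ofPred_eq]
  rw [← hRe, R.inner_map_map, R.norm_map, ← sq_le_sq₀ (norm_nonneg _) hr,
    EuclideanSpace.real_norm_sq_eq, Fin.sum_univ_three, he, EuclideanSpace.inner_single_left]
  simp

/-- The volume of the cap of a ball of radius `r` cut off at height `h`. -/
noncomputable def capV (r h : ℝ) : ℝ := π * (max (r - h) 0) ^ 2 * (2 * r + h) / 3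

theorem cap_int (r h : ℝ) (hh : 0 ≤ h) (hr : 0 ≤ r) :
    ∫⁻ t in Ioi h, ENNReal.ofReal (π * (r ^ 2 - t ^ 2)) = ENNReal.ofReal (capV r h) := by
  have hz : ∀ a : ℝ, r ≤ a → ∫⁻ t in Ioi a, ENNReal.ofReal (π * (r ^ 2 - t ^ 2)) = 0 := by
    intro a ha
    rw [setLIntegral_congr_fun measurableSet_Ioi (g := fun _ => 0), lintegral_zero]
    intro t ht
    have ht' : a < t := ht
    refine ENNReal.ofReal_of_nonpos (mul_nonpos_of_nonneg_of_nonpos pi_pos.le ?_)
    nlinarith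
  rcases le_total r h with hle | hle
  · rw [hz h hle, capV, max_eq_right (by linarith)]
    simp
  · rw [← Ioc_union_Ioi_eq_Ioi hle, lintegral_union measurableSet_Ioi Ioc_disjoint_Ioi_same,
      hz r le_rfl, add_zero, ← ofReal_integral_eq_lintegral_ofReal]
    · congr 1
      rw [← intervalIntegral.integral_of_le hle, intervalIntegral.integral_const_mul,
        intervalIntegral.integral_sub (by simp) (by simp), integral_pow, capV,
        max_eq_left (by linarith)]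
      simp only [intervalIntegral.integral_const, smul_eq_mul]
      norm_num
      ring
    · exact (Continuous.integrableOn_Ioc (by fun_prop))
    · refine (ae_restrict_iff' measurableSet_Ioc).2 (Filter.Eventually.of_forall fun t ht => ?_)
      have h1 := ht.1
      have h2 := ht.2
      refine mul_nonneg pi_pos.le ?_
      nlinarith

theorem dist_lt_iff (x v : E3) (hv : v ≠ 0) :
    ‖x - v‖ < ‖x‖ ↔ ‖v‖ / 2 < inner ℝ (‖v‖⁻¹ • v) x := by
  have hp : 0 < ‖v‖ := norm_pos_iff.2 hv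
  rw [← sq_lt_sq₀ (norm_nonneg _) (norm_nonneg _), norm_sub_sq_real, real_inner_smul_left,
    real_inner_comm, ← div_eq_inv_mul, lt_div_iff₀ hp]
  constructor <;> intro h <;> nlinarith

theorem dist_le_iff (x v : E3) (hv : v ≠ 0) :
    ‖x - v‖ ≤ ‖x‖ ↔ ‖v‖ / 2 ≤ inner ℝ (‖v‖⁻¹ • v) x := by
  have hp : 0 < ‖v‖ := norm_pos_iff.2 hv
  rw [← sq_le_sq₀ (norm_nonneg _) (norm_nonneg _), norm_sub_sq_real, real_inner_smul_left,
    real_inner_comm, ← div_eq_inv_mul, le_div_iff₀ hp]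
  constructor <;> intro h <;> nlinarith

theorem cap_open (r : ℝ) (hr : 0 ≤ r) (v : E3) (hv : v ≠ 0) :
    volume {x : E3 | ‖x‖ ≤ r ∧ ‖x - v‖ < ‖x‖} = ENNReal.ofReal (capV r (‖v‖ / 2)) := by
  have hp : 0 < ‖v‖ := norm_pos_iff.2 hv
  rw [← cap_int r _ (by positivity) hr, ← slab_vol r hr (‖v‖⁻¹ • v)
    (by rw [norm_smul, norm_inv, norm_norm, inv_mul_cancel₀ hp.ne']) _ measurableSet_Ioi]
  congr 1
  ext x
  simp only [mem_ofPred_eq, mem_Ioi, dist_lt_iff x v hv]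

theorem cap_closed (r : ℝ) (hr : 0 ≤ r) (v : E3) (hv : v ≠ 0) :
    volume {x : E3 | ‖x‖ ≤ r ∧ ‖x - v‖ ≤ ‖x‖} = ENNReal.ofReal (capV r (‖v‖ / 2)) := by
  have hp : 0 < ‖v‖ := norm_pos_iff.2 hv
  rw [← cap_int r _ (by positivity) hr, setLIntegral_congr Ioi_ae_eq_Ici,
    ← slab_vol r hr (‖v‖⁻¹ • v)
    (by rw [norm_smul, norm_inv, norm_norm, inv_mul_cancel₀ hp.ne']) _ measurableSet_Ici]
  congr 1
  ext x
  simp only [mem_ofPred_eq, mem_Ici, dist_le_iff x v hv]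

end Pool.Agent.Lib.MP_f3b2fd_co
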