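import Mathlib

set_option autoImplicit false

namespace Pool.Agent.Lib.MP_f3b2fd_co

/-- The Gram determinant of a tetrahedron with squared edge lengths `4 + s`. -/
noncomputable def Dp (s0 s1 s2 s3 t1 t2 : ℝ) : ℝ :=
  32 + 4 * s0 + 4 * s1 + 4 * s2 + 4 * s3 + 4 * t1 + 4 * t2 - s0 ^ 2 + s0 * s1 + s0 * s3 + s0 * t1 + s0 * t2 - s1 ^ 2 + s1 * s2 + s1 * t1 + s1 * t2 - s2 ^ 2 + s2 * s3 + s2 * t1 + s2 * t2 - s3 ^ 2 + s3 * t1 + s3 * t2 - t1 ^ 2 - t2 ^ 2 - 1/4 * s0 ^ 2 * s2 + 1/4 * s0 * s1 * s2 + 1/4 * s0 * s1 * s3 - 1/4 * s0 * s1 * t1 - 1/4 * s0 * s2 ^ 2 + 1/4 * s0 * s2 * s3 + 1/4 * s0 * s2 * t1 + 1/4 * s0 * s2 * t2 - 1/4 * s0 * s3 * t2 + 1/4 * s0 * t1 * t2 - 1/4 * s1 ^ 2 * s3 + 1/4 * s1 * s2 * s3 - 1/4 * s1 * s2 * t2 - 1/4 * s1 *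 s3 ^ 2 + 1/4 * s1 * s3 * t1 + 1/4 * s1 * s3 * t2 + 1/4 * s1 * t1 * t2 - 1/4 * s2 * s3 * t1 + 1/4 * s2 * t1 * t2 + 1/4 * s3 * t1 * t2 - 1/4 * t1 ^ 2 * t2 - 1/4 * t1 * t2 ^ 2

/-- The constraints of a reduced form. -/
structure Red (s0 s1 s2 s3 t1 t2 : ℝ) : Prop where
  h0 : 0 ≤ 2 + (s0 + s1 - t1) / 2
  h1 : 0 ≤ 2 + (s1 + s2 - t2) / 2
  h2 : 0 ≤ 2 + (s2 + s3 - t1) / 2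
  h3 : 0 ≤ 2 + (s3 + s0 - t2) / 2
  h4 : 0 ≤ (t1 + t2 - s1 - s3) / 2
  h5 : 0 ≤ (t1 + t2 - s0 - s2) / 2
  h6 : 0 ≤ 4 + s0 + s1 + s2 + s3 - 2 * t1 - t2
  h7 : 0 ≤ 4 + s0 + s1 + s2 + s3 - t1 - 2 * t2

end Pool.Agent.Lib.MP_f3b2fd_co
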