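import Pool.Agent.Lib.MP_f3b2fd_co.Cert0
import Pool.Agent.Lib.MP_f3b2fd_co.Cert1
import Pool.Agent.Lib.MP_f3b2fd_co.Cert2
import Pool.Agent.Lib.MP_f3b2fd_co.Cert3

set_option autoImplicit false

namespace Pool.Agent.Lib.MP_f3b2fd_co

theorem red_012345 {s0 s1 s2 s3 t1 t2 : ℝ} (h : Red s0 s1 s2 s3 t1 t2) : Red s0 s1 s2 s3 t1 t2 := by
  obtain ⟨h0, h1, h2, h3, h4, h5, h6, h7⟩ := h
  constructor <;> linarith

theorem dp_012345 (s0 s1 s2 s3 t1 t2 : ℝ) : Dp s0 s1 s2 s3 t1 t2 = Dp s0 s1 s2 s3 t1 t2 := by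
  unfold Dp
  ring

theorem red_032154 {s0 s1 s2 s3 t1 t2 : ℝ} (h : Red s0 s1 s2 s3 t1 t2) : Red s0 s3 s2 s1 t2 t1 := by
  obtain ⟨h0, h1, h2, h3, h4, h5, h6, h7⟩ := h
  constructor <;> linarith

theorem dp_032154 (s0 s1 s2 s3 t1 t2 : ℝ) : Dp s0 s3 s2 s1 t2 t1 = Dp s0 s1 s2 s3 t1 t2 := by
  unfold Dp
  ring

theorem red_103245 {s0 s1 s2 s3 t1 t2 : ℝ} (h : Red s0 s1 s2 s3 t1 t2) : Red s1 s0 s3 s2 t1 t2 := by
  obtain ⟨h0, h1, h2, h3, h4, h5, h6, h7⟩ := h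
  constructor <;> linarith

theorem dp_103245 (s0 s1 s2 s3 t1 t2 : ℝ) : Dp s1 s0 s3 s2 t1 t2 = Dp s0 s1 s2 s3 t1 t2 := by
  unfold Dp
  ring

theorem red_123054 {s0 s1 s2 s3 t1 t2 : ℝ} (h : Red s0 s1 s2 s3 t1 t2) : Red s1 s2 s3 s0 t2 t1 := by
  obtain ⟨h0, h1, h2, h3, h4, h5, h6, h7⟩ := h
  constructor <;> linarith

theorem dp_123054 (s0 s1 s2 s3 t1 t2 : ℝ) : Dp s1 s2 s3 s0 t2 t1 = Dp s0 s1 s2 s3 t1 t2 := by
  unfold Dp
  ring

theorem red_210354 {s0 s1 s2 s3 t1 t2 : ℝ} (h : Red s0 s1 s2 s3 t1 t2) : Red s2 s1 s0 s3 t2 t1 := by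
  obtain ⟨h0, h1, h2, h3, h4, h5, h6, h7⟩ := h
  constructor <;> linarith

theorem dp_210354 (s0 s1 s2 s3 t1 t2 : ℝ) : Dp s2 s1 s0 s3 t2 t1 = Dp s0 s1 s2 s3 t1 t2 := by
  unfold Dp
  ring

theorem red_230145 {s0 s1 s2 s3 t1 t2 : ℝ} (h : Red s0 s1 s2 s3 t1 t2) : Red s2 s3 s0 s1 t1 t2 := by
  obtain ⟨h0, h1, h2, h3, h4, h5, h6, h7⟩ := h
  constructor <;> linarith

theorem dp_230145 (s0 s1 s2 s3 t1 t2 : ℝ) : Dp s2 s3 s0 s1 t1 t2 = Dp s0 s1 s2 s3 t1 t2 := by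
  unfold Dp
  ring

theorem red_301254 {s0 s1 s2 s3 t1 t2 : ℝ} (h : Red s0 s1 s2 s3 t1 t2) : Red s3 s0 s1 s2 t2 t1 := by
  obtain ⟨h0, h1, h2, h3, h4, h5, h6, h7⟩ := h
  constructor <;> linarith

theorem dp_301254 (s0 s1 s2 s3 t1 t2 : ℝ) : Dp s3 s0 s1 s2 t2 t1 = Dp s0 s1 s2 s3 t1 t2 := by
  unfold Dp
  ring

theorem red_321045 {s0 s1 s2 s3 t1 t2 : ℝ} (h : Red s0 s1 s2 s3 t1 t2) : Red s3 s2 s1 s0 t1 t2 := by
  obtain ⟨h0, h1, h2, h3, h4, h5, h6, h7⟩ := h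
  constructor <;> linarith

theorem dp_321045 (s0 s1 s2 s3 t1 t2 : ℝ) : Dp s3 s2 s1 s0 t1 t2 = Dp s0 s1 s2 s3 t1 t2 := by
  unfold Dp
  ring

theorem cert_main {s0 s1 s2 s3 t1 t2 m0 m1 m2 m3 m4 m5 : ℝ} (h : Red s0 s1 s2 s3 t1 t2)
    (n0 : 0 ≤ s0) (n1 : 0 ≤ s1) (n2 : 0 ≤ s2) (n3 : 0 ≤ s3) (n4 : 0 ≤ t1) (n5 : 0 ≤ t2)
    (a0 : m0 ≤ 481/10000 * s0) (a1 : m1 ≤ 481/10000 * s1) (a2 : m2 ≤ 481/10000 * s2)
    (a3 : m3 ≤ 481/10000 * s3) (a4 : m4 ≤ 481/10000 * t1) (a5 : m5 ≤ 481/10000 * t2)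
    (b0 : m0 ≤ 61/2000) (b1 : m1 ≤ 61/2000) (b2 : m2 ≤ 61/2000) (b3 : m3 ≤ 61/2000) (b4 : m4 ≤ 61/2000) (b5 : m5 ≤ 61/2000)
    (h0 : 0 ≤ 1 + m0 + m1 + m2 + m3 + m4 + m5) :
    32 * (1 + m0 + m1 + m2 + m3 + m4 + m5) ^ 2 ≤ Dp s0 s1 s2 s3 t1 t2 := by
  rcases le_total s0 (305/481) with c0 | c0 <;> rcases le_total s1 (305/481) with c1 | c1 <;>
    rcases le_total s2 (305/481) with c2 | c2 <;> rcases le_total s3 (305/481) with c3 | c3 <;>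
    rcases le_total t1 (305/481) with c4 | c4 <;> rcases le_total t2 (305/481) with c5 | c5
  · refine le_trans ?_ ((case_000000 (red_012345 h) n0 (sub_nonneg.mpr c0) n1 (sub_nonneg.mpr c1) n2 (sub_nonneg.mpr c2) n3 (sub_nonneg.mpr c3) n4 (sub_nonneg.mpr c4) n5 (sub_nonneg.mpr c5)).trans_eq (dp_012345 _ _ _ _ _ _))
    exact mul_le_mul_of_nonneg_left (pow_le_pow_left₀ h0 (by linarith) 2) (by norm_num)
  · refine le_trans ?_ ((case_000001 (red_012345 h) n0 (sub_nonneg.mpr c0) n1 (sub_nonneg.mpr c1) n2 (sub_nonneg.mpr c2) n3 (sub_nonneg.mpr c3) n4 (sub_nonneg.mpr c4) (sub_nonneg.mpr c5)).trans_eq (dp_012345 _ _ _ _ _ _))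
    exact mul_le_mul_of_nonneg_left (pow_le_pow_left₀ h0 (by linarith) 2) (by norm_num)
  · refine le_trans ?_ ((case_000001 (red_032154 h) n0 (sub_nonneg.mpr c0) n3 (sub_nonneg.mpr c3) n2 (sub_nonneg.mpr c2) n1 (sub_nonneg.mpr c1) n5 (sub_nonneg.mpr c5) (sub_nonneg.mpr c4)).trans_eq (dp_032154 _ _ _ _ _ _))
    exact mul_le_mul_of_nonneg_left (pow_le_pow_left₀ h0 (by linarith) 2) (by norm_num)
  · refine le_trans ?_ ((case_000011 (red_012345 h) n0 (sub_nonneg.mpr c0) n1 (sub_nonneg.mpr c1) n2 (sub_nonneg.mpr c2) n3 (sub_nonneg.mpr c3) (sub_nonneg.mpr c4) (sub_nonneg.mpr c5)).trans_eq (dp_012345 _ _ _ _ _ _))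
    exact mul_le_mul_of_nonneg_left (pow_le_pow_left₀ h0 (by linarith) 2) (by norm_num)
  · refine le_trans ?_ ((case_000100 (red_012345 h) n0 (sub_nonneg.mpr c0) n1 (sub_nonneg.mpr c1) n2 (sub_nonneg.mpr c2) (sub_nonneg.mpr c3) n4 (sub_nonneg.mpr c4) n5 (sub_nonneg.mpr c5)).trans_eq (dp_012345 _ _ _ _ _ _))
    exact mul_le_mul_of_nonneg_left (pow_le_pow_left₀ h0 (by linarith) 2) (by norm_num)
  · refine le_trans ?_ ((case_000101 (red_012345 h) n0 (sub_nonneg.mpr c0) n1 (sub_nonneg.mpr c1) n2 (sub_nonneg.mpr c2) (sub_nonneg.mpr c3) n4 (sub_nonneg.mpr c4) (sub_nonneg.mpr c5)).trans_eq (dp_012345 _ _ _ _ _ _))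
    exact mul_le_mul_of_nonneg_left (pow_le_pow_left₀ h0 (by linarith) 2) (by norm_num)
  · refine le_trans ?_ ((case_000101 (red_210354 h) n2 (sub_nonneg.mpr c2) n1 (sub_nonneg.mpr c1) n0 (sub_nonneg.mpr c0) (sub_nonneg.mpr c3) n5 (sub_nonneg.mpr c5) (sub_nonneg.mpr c4)).trans_eq (dp_210354 _ _ _ _ _ _))
    exact mul_le_mul_of_nonneg_left (pow_le_pow_left₀ h0 (by linarith) 2) (by norm_num)
  · refine le_trans ?_ ((case_000111 (red_012345 h) n0 (sub_nonneg.mpr c0) n1 (sub_nonneg.mpr c1) n2 (sub_nonneg.mpr c2) (sub_nonneg.mpr c3) (sub_nonneg.mpr c4) (sub_nonneg.mpr c5)).trans_eq (dp_012345 _ _ _ _ _ _))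
    exact mul_le_mul_of_nonneg_left (pow_le_pow_left₀ h0 (by linarith) 2) (by norm_num)
  · refine le_trans ?_ ((case_000100 (red_103245 h) n1 (sub_nonneg.mpr c1) n0 (sub_nonneg.mpr c0) n3 (sub_nonneg.mpr c3) (sub_nonneg.mpr c2) n4 (sub_nonneg.mpr c4) n5 (sub_nonneg.mpr c5)).trans_eq (dp_103245 _ _ _ _ _ _))
    exact mul_le_mul_of_nonneg_left (pow_le_pow_left₀ h0 (by linarith) 2) (by norm_num)
  · refine le_trans ?_ ((case_000101 (red_103245 h) n1 (sub_nonneg.mpr c1) n0 (sub_nonneg.mpr c0) n3 (sub_nonneg.mpr c3) (sub_nonneg.mpr c2) n4 (sub_nonneg.mpr c4) (sub_nonneg.mpr c5)).trans_eq (dp_103245 _ _ _ _ _ _))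
    exact mul_le_mul_of_nonneg_left (pow_le_pow_left₀ h0 (by linarith) 2) (by norm_num)
  · refine le_trans ?_ ((case_000101 (red_301254 h) n3 (sub_nonneg.mpr c3) n0 (sub_nonneg.mpr c0) n1 (sub_nonneg.mpr c1) (sub_nonneg.mpr c2) n5 (sub_nonneg.mpr c5) (sub_nonneg.mpr c4)).trans_eq (dp_301254 _ _ _ _ _ _))
    exact mul_le_mul_of_nonneg_left (pow_le_pow_left₀ h0 (by linarith) 2) (by norm_num)
  · refine le_trans ?_ ((case_000111 (red_103245 h) n1 (sub_nonneg.mpr c1) n0 (sub_nonneg.mpr c0) n3 (sub_nonneg.mpr c3) (sub_nonneg.mpr c2) (sub_nonneg.mpr c4) (sub_nonneg.mpr c5)).trans_eq (dp_103245 _ _ _ _ _ _))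
    exact mul_le_mul_of_nonneg_left (pow_le_pow_left₀ h0 (by linarith) 2) (by norm_num)
  · refine le_trans ?_ ((case_001100 (red_012345 h) n0 (sub_nonneg.mpr c0) n1 (sub_nonneg.mpr c1) (sub_nonneg.mpr c2) (sub_nonneg.mpr c3) n4 (sub_nonneg.mpr c4) n5 (sub_nonneg.mpr c5)).trans_eq (dp_012345 _ _ _ _ _ _))
    exact mul_le_mul_of_nonneg_left (pow_le_pow_left₀ h0 (by linarith) 2) (by norm_num)
  · refine le_trans ?_ ((case_001101 (red_012345 h) n0 (sub_nonneg.mpr c0) n1 (sub_nonneg.mpr c1) (sub_nonneg.mpr c2) (sub_nonneg.mpr c3) n4 (sub_nonneg.mpr c4) (sub_nonneg.mpr c5)).trans_eq (dp_012345 _ _ _ _ _ _))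
    exact mul_le_mul_of_nonneg_left (pow_le_pow_left₀ h0 (by linarith) 2) (by norm_num)
  · refine le_trans ?_ ((case_001110 (red_012345 h) n0 (sub_nonneg.mpr c0) n1 (sub_nonneg.mpr c1) (sub_nonneg.mpr c2) (sub_nonneg.mpr c3) (sub_nonneg.mpr c4) n5 (sub_nonneg.mpr c5)).trans_eq (dp_012345 _ _ _ _ _ _))
    exact mul_le_mul_of_nonneg_left (pow_le_pow_left₀ h0 (by linarith) 2) (by norm_num)
  · refine le_trans ?_ ((case_001111 (red_012345 h) n0 (sub_nonneg.mpr c0) n1 (sub_nonneg.mpr c1) (sub_nonneg.mpr c2) (sub_nonneg.mpr c3) (sub_nonneg.mpr c4) (sub_nonneg.mpr c5)).trans_eq (dp_012345 _ _ _ _ _ _))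
    exact mul_le_mul_of_nonneg_left (pow_le_pow_left₀ h0 (by linarith) 2) (by norm_num)
  · refine le_trans ?_ ((case_000100 (red_032154 h) n0 (sub_nonneg.mpr c0) n3 (sub_nonneg.mpr c3) n2 (sub_nonneg.mpr c2) (sub_nonneg.mpr c1) n5 (sub_nonneg.mpr c5) n4 (sub_nonneg.mpr c4)).trans_eq (dp_032154 _ _ _ _ _ _))
    exact mul_le_mul_of_nonneg_left (pow_le_pow_left₀ h0 (by linarith) 2) (by norm_num)
  · refine le_trans ?_ ((case_000101 (red_230145 h) n2 (sub_nonneg.mpr c2) n3 (sub_nonneg.mpr c3) n0 (sub_nonneg.mpr c0) (sub_nonneg.mpr c1) n4 (sub_nonneg.mpr c4) (sub_nonneg.mpr c5)).trans_eq (dp_230145 _ _ _ _ _ _))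
    exact mul_le_mul_of_nonneg_left (pow_le_pow_left₀ h0 (by linarith) 2) (by norm_num)
  · refine le_trans ?_ ((case_000101 (red_032154 h) n0 (sub_nonneg.mpr c0) n3 (sub_nonneg.mpr c3) n2 (sub_nonneg.mpr c2) (sub_nonneg.mpr c1) n5 (sub_nonneg.mpr c5) (sub_nonneg.mpr c4)).trans_eq (dp_032154 _ _ _ _ _ _))
    exact mul_le_mul_of_nonneg_left (pow_le_pow_left₀ h0 (by linarith) 2) (by norm_num)
  · refine le_trans ?_ ((case_000111 (red_032154 h) n0 (sub_nonneg.mpr c0) n3 (sub_nonneg.mpr c3) n2 (sub_nonneg.mpr c2) (sub_nonneg.mpr c1) (sub_nonneg.mpr c5) (sub_nonneg.mpr c4)).trans_eq (dp_032154 _ _ _ _ _ _))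
    exact mul_le_mul_of_nonneg_left (pow_le_pow_left₀ h0 (by linarith) 2) (by norm_num)
  · refine le_trans ?_ ((case_010100 (red_012345 h) n0 (sub_nonneg.mpr c0) (sub_nonneg.mpr c1) n2 (sub_nonneg.mpr c2) (sub_nonneg.mpr c3) n4 (sub_nonneg.mpr c4) n5 (sub_nonneg.mpr c5)).trans_eq (dp_012345 _ _ _ _ _ _))
    exact mul_le_mul_of_nonneg_left (pow_le_pow_left₀ h0 (by linarith) 2) (by norm_num)
  · refine le_trans ?_ ((case_010101 (red_012345 h) n0 (sub_nonneg.mpr c0) (sub_nonneg.mpr c1) n2 (sub_nonneg.mpr c2) (sub_nonneg.mpr c3) n4 (sub_nonneg.mpr c4) (sub_nonneg.mpr c5)).trans_eq (dp_012345 _ _ _ _ _ _))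
    exact mul_le_mul_of_nonneg_left (pow_le_pow_left₀ h0 (by linarith) 2) (by norm_num)
  · refine le_trans ?_ ((case_010101 (red_032154 h) n0 (sub_nonneg.mpr c0) (sub_nonneg.mpr c3) n2 (sub_nonneg.mpr c2) (sub_nonneg.mpr c1) n5 (sub_nonneg.mpr c5) (sub_nonneg.mpr c4)).trans_eq (dp_032154 _ _ _ _ _ _))
    exact mul_le_mul_of_nonneg_left (pow_le_pow_left₀ h0 (by linarith) 2) (by norm_num)
  · refine le_trans ?_ ((case_010111 (red_012345 h) n0 (sub_nonneg.mpr c0) (sub_nonneg.mpr c1) n2 (sub_nonneg.mpr c2) (sub_nonneg.mpr c3) (sub_nonneg.mpr c4) (sub_nonneg.mpr c5)).trans_eq (dp_012345 _ _ _ _ _ _))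
    exact mul_le_mul_of_nonneg_left (pow_le_pow_left₀ h0 (by linarith) 2) (by norm_num)
  · refine le_trans ?_ ((case_001100 (red_032154 h) n0 (sub_nonneg.mpr c0) n3 (sub_nonneg.mpr c3) (sub_nonneg.mpr c2) (sub_nonneg.mpr c1) n5 (sub_nonneg.mpr c5) n4 (sub_nonneg.mpr c4)).trans_eq (dp_032154 _ _ _ _ _ _))
    exact mul_le_mul_of_nonneg_left (pow_le_pow_left₀ h0 (by linarith) 2) (by norm_num)
  · refine le_trans ?_ ((case_001110 (red_032154 h) n0 (sub_nonneg.mpr c0) n3 (sub_nonneg.mpr c3) (sub_nonneg.mpr c2) (sub_nonneg.mpr c1) (sub_nonneg.mpr c5) n4 (sub_nonneg.mpr c4)).trans_eq (dp_032154 _ _ _ _ _ _))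
    exact mul_le_mul_of_nonneg_left (pow_le_pow_left₀ h0 (by linarith) 2) (by norm_num)
  · refine le_trans ?_ ((case_001101 (red_032154 h) n0 (sub_nonneg.mpr c0) n3 (sub_nonneg.mpr c3) (sub_nonneg.mpr c2) (sub_nonneg.mpr c1) n5 (sub_nonneg.mpr c5) (sub_nonneg.mpr c4)).trans_eq (dp_032154 _ _ _ _ _ _))
    exact mul_le_mul_of_nonneg_left (pow_le_pow_left₀ h0 (by linarith) 2) (by norm_num)
  · refine le_trans ?_ ((case_001111 (red_032154 h) n0 (sub_nonneg.mpr c0) n3 (sub_nonneg.mpr c3) (sub_nonneg.mpr c2) (sub_nonneg.mpr c1) (sub_nonneg.mpr c5) (sub_nonneg.mpr c4)).trans_eq (dp_032154 _ _ _ _ _ _))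
    exact mul_le_mul_of_nonneg_left (pow_le_pow_left₀ h0 (by linarith) 2) (by norm_num)
  · refine le_trans ?_ ((case_011100 (red_012345 h) n0 (sub_nonneg.mpr c0) (sub_nonneg.mpr c1) (sub_nonneg.mpr c2) (sub_nonneg.mpr c3) n4 (sub_nonneg.mpr c4) n5 (sub_nonneg.mpr c5)).trans_eq (dp_012345 _ _ _ _ _ _))
    exact mul_le_mul_of_nonneg_left (pow_le_pow_left₀ h0 (by linarith) 2) (by norm_num)
  · refine le_trans ?_ ((case_011101 (red_012345 h) n0 (sub_nonneg.mpr c0) (sub_nonneg.mpr c1) (sub_nonneg.mpr c2) (sub_nonneg.mpr c3) n4 (sub_nonneg.mpr c4) (sub_nonneg.mpr c5)).trans_eq (dp_012345 _ _ _ _ _ _))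
    exact mul_le_mul_of_nonneg_left (pow_le_pow_left₀ h0 (by linarith) 2) (by norm_num)
  · refine le_trans ?_ ((case_011101 (red_032154 h) n0 (sub_nonneg.mpr c0) (sub_nonneg.mpr c3) (sub_nonneg.mpr c2) (sub_nonneg.mpr c1) n5 (sub_nonneg.mpr c5) (sub_nonneg.mpr c4)).trans_eq (dp_032154 _ _ _ _ _ _))
    exact mul_le_mul_of_nonneg_left (pow_le_pow_left₀ h0 (by linarith) 2) (by norm_num)
  · refine le_trans ?_ ((case_011111 (red_012345 h) n0 (sub_nonneg.mpr c0) (sub_nonneg.mpr c1) (sub_nonneg.mpr c2) (sub_nonneg.mpr c3) (sub_nonneg.mpr c4) (sub_nonneg.mpr c5)).trans_eq (dp_012345 _ _ _ _ _ _))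
    exact mul_le_mul_of_nonneg_left (pow_le_pow_left₀ h0 (by linarith) 2) (by norm_num)
  · refine le_trans ?_ ((case_000100 (red_123054 h) n1 (sub_nonneg.mpr c1) n2 (sub_nonneg.mpr c2) n3 (sub_nonneg.mpr c3) (sub_nonneg.mpr c0) n5 (sub_nonneg.mpr c5) n4 (sub_nonneg.mpr c4)).trans_eq (dp_123054 _ _ _ _ _ _))
    exact mul_le_mul_of_nonneg_left (pow_le_pow_left₀ h0 (by linarith) 2) (by norm_num)
  · refine le_trans ?_ ((case_000101 (red_321045 h) n3 (sub_nonneg.mpr c3) n2 (sub_nonneg.mpr c2) n1 (sub_nonneg.mpr c1) (sub_nonneg.mpr c0) n4 (sub_nonneg.mpr c4) (sub_nonneg.mpr c5)).trans_eq (dp_321045 _ _ _ _ _ _))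
    exact mul_le_mul_of_nonneg_left (pow_le_pow_left₀ h0 (by linarith) 2) (by norm_num)
  · refine le_trans ?_ ((case_000101 (red_123054 h) n1 (sub_nonneg.mpr c1) n2 (sub_nonneg.mpr c2) n3 (sub_nonneg.mpr c3) (sub_nonneg.mpr c0) n5 (sub_nonneg.mpr c5) (sub_nonneg.mpr c4)).trans_eq (dp_123054 _ _ _ _ _ _))
    exact mul_le_mul_of_nonneg_left (pow_le_pow_left₀ h0 (by linarith) 2) (by norm_num)
  · refine le_trans ?_ ((case_000111 (red_123054 h) n1 (sub_nonneg.mpr c1) n2 (sub_nonneg.mpr c2) n3 (sub_nonneg.mpr c3) (sub_nonneg.mpr c0) (sub_nonneg.mpr c5) (sub_nonneg.mpr c4)).trans_eq (dp_123054 _ _ _ _ _ _))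
    exact mul_le_mul_of_nonneg_left (pow_le_pow_left₀ h0 (by linarith) 2) (by norm_num)
  · refine le_trans ?_ ((case_001100 (red_123054 h) n1 (sub_nonneg.mpr c1) n2 (sub_nonneg.mpr c2) (sub_nonneg.mpr c3) (sub_nonneg.mpr c0) n5 (sub_nonneg.mpr c5) n4 (sub_nonneg.mpr c4)).trans_eq (dp_123054 _ _ _ _ _ _))
    exact mul_le_mul_of_nonneg_left (pow_le_pow_left₀ h0 (by linarith) 2) (by norm_num)
  · refine le_trans ?_ ((case_001110 (red_123054 h) n1 (sub_nonneg.mpr c1) n2 (sub_nonneg.mpr c2) (sub_nonneg.mpr c3) (sub_nonneg.mpr c0) (sub_nonneg.mpr c5) n4 (sub_nonneg.mpr c4)).trans_eq (dp_123054 _ _ _ _ _ _))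
    exact mul_le_mul_of_nonneg_left (pow_le_pow_left₀ h0 (by linarith) 2) (by norm_num)
  · refine le_trans ?_ ((case_001101 (red_123054 h) n1 (sub_nonneg.mpr c1) n2 (sub_nonneg.mpr c2) (sub_nonneg.mpr c3) (sub_nonneg.mpr c0) n5 (sub_nonneg.mpr c5) (sub_nonneg.mpr c4)).trans_eq (dp_123054 _ _ _ _ _ _))
    exact mul_le_mul_of_nonneg_left (pow_le_pow_left₀ h0 (by linarith) 2) (by norm_num)
  · refine le_trans ?_ ((case_001111 (red_123054 h) n1 (sub_nonneg.mpr c1) n2 (sub_nonneg.mpr c2) (sub_nonneg.mpr c3) (sub_nonneg.mpr c0) (sub_nonneg.mpr c5) (sub_nonneg.mpr c4)).trans_eq (dp_123054 _ _ _ _ _ _))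
    exact mul_le_mul_of_nonneg_left (pow_le_pow_left₀ h0 (by linarith) 2) (by norm_num)
  · refine le_trans ?_ ((case_010100 (red_103245 h) n1 (sub_nonneg.mpr c1) (sub_nonneg.mpr c0) n3 (sub_nonneg.mpr c3) (sub_nonneg.mpr c2) n4 (sub_nonneg.mpr c4) n5 (sub_nonneg.mpr c5)).trans_eq (dp_103245 _ _ _ _ _ _))
    exact mul_le_mul_of_nonneg_left (pow_le_pow_left₀ h0 (by linarith) 2) (by norm_num)
  · refine le_trans ?_ ((case_010101 (red_103245 h) n1 (sub_nonneg.mpr c1) (sub_nonneg.mpr c0) n3 (sub_nonneg.mpr c3) (sub_nonneg.mpr c2) n4 (sub_nonneg.mpr c4) (sub_nonneg.mpr c5)).trans_eq (dp_103245 _ _ _ _ _ _))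
    exact mul_le_mul_of_nonneg_left (pow_le_pow_left₀ h0 (by linarith) 2) (by norm_num)
  · refine le_trans ?_ ((case_010101 (red_123054 h) n1 (sub_nonneg.mpr c1) (sub_nonneg.mpr c2) n3 (sub_nonneg.mpr c3) (sub_nonneg.mpr c0) n5 (sub_nonneg.mpr c5) (sub_nonneg.mpr c4)).trans_eq (dp_123054 _ _ _ _ _ _))
    exact mul_le_mul_of_nonneg_left (pow_le_pow_left₀ h0 (by linarith) 2) (by norm_num)
  · refine le_trans ?_ ((case_010111 (red_103245 h) n1 (sub_nonneg.mpr c1) (sub_nonneg.mpr c0) n3 (sub_nonneg.mpr c3) (sub_nonneg.mpr c2) (sub_nonneg.mpr c4) (sub_nonneg.mpr c5)).trans_eq (dp_103245 _ _ _ _ _ _))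
    exact mul_le_mul_of_nonneg_left (pow_le_pow_left₀ h0 (by linarith) 2) (by norm_num)
  · refine le_trans ?_ ((case_011100 (red_103245 h) n1 (sub_nonneg.mpr c1) (sub_nonneg.mpr c0) (sub_nonneg.mpr c3) (sub_nonneg.mpr c2) n4 (sub_nonneg.mpr c4) n5 (sub_nonneg.mpr c5)).trans_eq (dp_103245 _ _ _ _ _ _))
    exact mul_le_mul_of_nonneg_left (pow_le_pow_left₀ h0 (by linarith) 2) (by norm_num)
  · refine le_trans ?_ ((case_011101 (red_103245 h) n1 (sub_nonneg.mpr c1) (sub_nonneg.mpr c0) (sub_nonneg.mpr c3) (sub_nonneg.mpr c2) n4 (sub_nonneg.mpr c4) (sub_nonneg.mpr c5)).trans_eq (dp_103245 _ _ _ _ _ _))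
    exact mul_le_mul_of_nonneg_left (pow_le_pow_left₀ h0 (by linarith) 2) (by norm_num)
  · refine le_trans ?_ ((case_011101 (red_123054 h) n1 (sub_nonneg.mpr c1) (sub_nonneg.mpr c2) (sub_nonneg.mpr c3) (sub_nonneg.mpr c0) n5 (sub_nonneg.mpr c5) (sub_nonneg.mpr c4)).trans_eq (dp_123054 _ _ _ _ _ _))
    exact mul_le_mul_of_nonneg_left (pow_le_pow_left₀ h0 (by linarith) 2) (by norm_num)
  · refine le_trans ?_ ((case_011111 (red_103245 h) n1 (sub_nonneg.mpr c1) (sub_nonneg.mpr c0) (sub_nonneg.mpr c3) (sub_nonneg.mpr c2) (sub_nonneg.mpr c4) (sub_nonneg.mpr c5)).trans_eq (dp_103245 _ _ _ _ _ _))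
    exact mul_le_mul_of_nonneg_left (pow_le_pow_left₀ h0 (by linarith) 2) (by norm_num)
  · refine le_trans ?_ ((case_001100 (red_230145 h) n2 (sub_nonneg.mpr c2) n3 (sub_nonneg.mpr c3) (sub_nonneg.mpr c0) (sub_nonneg.mpr c1) n4 (sub_nonneg.mpr c4) n5 (sub_nonneg.mpr c5)).trans_eq (dp_230145 _ _ _ _ _ _))
    exact mul_le_mul_of_nonneg_left (pow_le_pow_left₀ h0 (by linarith) 2) (by norm_num)
  · refine le_trans ?_ ((case_001101 (red_230145 h) n2 (sub_nonneg.mpr c2) n3 (sub_nonneg.mpr c3) (sub_nonneg.mpr c0) (sub_nonneg.mpr c1) n4 (sub_nonneg.mpr c4) (sub_nonneg.mpr c5)).trans_eq (dp_230145 _ _ _ _ _ _))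
    exact mul_le_mul_of_nonneg_left (pow_le_pow_left₀ h0 (by linarith) 2) (by norm_num)
  · refine le_trans ?_ ((case_001110 (red_230145 h) n2 (sub_nonneg.mpr c2) n3 (sub_nonneg.mpr c3) (sub_nonneg.mpr c0) (sub_nonneg.mpr c1) (sub_nonneg.mpr c4) n5 (sub_nonneg.mpr c5)).trans_eq (dp_230145 _ _ _ _ _ _))
    exact mul_le_mul_of_nonneg_left (pow_le_pow_left₀ h0 (by linarith) 2) (by norm_num)
  · refine le_trans ?_ ((case_001111 (red_230145 h) n2 (sub_nonneg.mpr c2) n3 (sub_nonneg.mpr c3) (sub_nonneg.mpr c0) (sub_nonneg.mpr c1) (sub_nonneg.mpr c4) (sub_nonneg.mpr c5)).trans_eq (dp_230145 _ _ _ _ _ _))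
    exact mul_le_mul_of_nonneg_left (pow_le_pow_left₀ h0 (by linarith) 2) (by norm_num)
  · refine le_trans ?_ ((case_011100 (red_210354 h) n2 (sub_nonneg.mpr c2) (sub_nonneg.mpr c1) (sub_nonneg.mpr c0) (sub_nonneg.mpr c3) n5 (sub_nonneg.mpr c5) n4 (sub_nonneg.mpr c4)).trans_eq (dp_210354 _ _ _ _ _ _))
    exact mul_le_mul_of_nonneg_left (pow_le_pow_left₀ h0 (by linarith) 2) (by norm_num)
  · refine le_trans ?_ ((case_011101 (red_230145 h) n2 (sub_nonneg.mpr c2) (sub_nonneg.mpr c3) (sub_nonneg.mpr c0) (sub_nonneg.mpr c1) n4 (sub_nonneg.mpr c4) (sub_nonneg.mpr c5)).trans_eq (dp_230145 _ _ _ _ _ _))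
    exact mul_le_mul_of_nonneg_left (pow_le_pow_left₀ h0 (by linarith) 2) (by norm_num)
  · refine le_trans ?_ ((case_011101 (red_210354 h) n2 (sub_nonneg.mpr c2) (sub_nonneg.mpr c1) (sub_nonneg.mpr c0) (sub_nonneg.mpr c3) n5 (sub_nonneg.mpr c5) (sub_nonneg.mpr c4)).trans_eq (dp_210354 _ _ _ _ _ _))
    exact mul_le_mul_of_nonneg_left (pow_le_pow_left₀ h0 (by linarith) 2) (by norm_num)
  · refine le_trans ?_ ((case_011111 (red_210354 h) n2 (sub_nonneg.mpr c2) (sub_nonneg.mpr c1) (sub_nonneg.mpr c0) (sub_nonneg.mpr c3) (sub_nonneg.mpr c5) (sub_nonneg.mpr c4)).trans_eq (dp_210354 _ _ _ _ _ _))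
    exact mul_le_mul_of_nonneg_left (pow_le_pow_left₀ h0 (by linarith) 2) (by norm_num)
  · refine le_trans ?_ ((case_011100 (red_301254 h) n3 (sub_nonneg.mpr c3) (sub_nonneg.mpr c0) (sub_nonneg.mpr c1) (sub_nonneg.mpr c2) n5 (sub_nonneg.mpr c5) n4 (sub_nonneg.mpr c4)).trans_eq (dp_301254 _ _ _ _ _ _))
    exact mul_le_mul_of_nonneg_left (pow_le_pow_left₀ h0 (by linarith) 2) (by norm_num)
  · refine le_trans ?_ ((case_011101 (red_321045 h) n3 (sub_nonneg.mpr c3) (sub_nonneg.mpr c2) (sub_nonneg.mpr c1) (sub_nonneg.mpr c0) n4 (sub_nonneg.mpr c4) (sub_nonneg.mpr c5)).trans_eq (dp_321045 _ _ _ _ _ _))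
    exact mul_le_mul_of_nonneg_left (pow_le_pow_left₀ h0 (by linarith) 2) (by norm_num)
  · refine le_trans ?_ ((case_011101 (red_301254 h) n3 (sub_nonneg.mpr c3) (sub_nonneg.mpr c0) (sub_nonneg.mpr c1) (sub_nonneg.mpr c2) n5 (sub_nonneg.mpr c5) (sub_nonneg.mpr c4)).trans_eq (dp_301254 _ _ _ _ _ _))
    exact mul_le_mul_of_nonneg_left (pow_le_pow_left₀ h0 (by linarith) 2) (by norm_num)
  · refine le_trans ?_ ((case_011111 (red_301254 h) n3 (sub_nonneg.mpr c3) (sub_nonneg.mpr c0) (sub_nonneg.mpr c1) (sub_nonneg.mpr c2) (sub_nonneg.mpr c5) (sub_nonneg.mpr c4)).trans_eq (dp_301254 _ _ _ _ _ _))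
    exact mul_le_mul_of_nonneg_left (pow_le_pow_left₀ h0 (by linarith) 2) (by norm_num)
  · refine le_trans ?_ ((case_111100 (red_012345 h) (sub_nonneg.mpr c0) (sub_nonneg.mpr c1) (sub_nonneg.mpr c2) (sub_nonneg.mpr c3) n4 (sub_nonneg.mpr c4) n5 (sub_nonneg.mpr c5)).trans_eq (dp_012345 _ _ _ _ _ _))
    exact mul_le_mul_of_nonneg_left (pow_le_pow_left₀ h0 (by linarith) 2) (by norm_num)
  · refine le_trans ?_ ((case_111101 (red_012345 h) (sub_nonneg.mpr c0) (sub_nonneg.mpr c1) (sub_nonneg.mpr c2) (sub_nonneg.mpr c3) n4 (sub_nonneg.mpr c4) (sub_nonneg.mpr c5)).trans_eq (dp_012345 _ _ _ _ _ _))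
    exact mul_le_mul_of_nonneg_left (pow_le_pow_left₀ h0 (by linarith) 2) (by norm_num)
  · refine le_trans ?_ ((case_111101 (red_032154 h) (sub_nonneg.mpr c0) (sub_nonneg.mpr c3) (sub_nonneg.mpr c2) (sub_nonneg.mpr c1) n5 (sub_nonneg.mpr c5) (sub_nonneg.mpr c4)).trans_eq (dp_032154 _ _ _ _ _ _))
    exact mul_le_mul_of_nonneg_left (pow_le_pow_left₀ h0 (by linarith) 2) (by norm_num)
  · refine le_trans ?_ ((case_111111 (red_012345 h) (sub_nonneg.mpr c0) (sub_nonneg.mpr c1) (sub_nonneg.mpr c2) (sub_nonneg.mpr c3) (sub_nonneg.mpr c4) (sub_nonneg.mpr c5)).trans_eq (dp_012345 _ _ _ _ _ _))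
    exact mul_le_mul_of_nonneg_left (pow_le_pow_left₀ h0 (by linarith) 2) (by norm_num)

end Pool.Agent.Lib.MP_f3b2fd_co
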