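import Mathlib
import Pool.Agent.Lib.MP_f3b2fd_co.Cap

set_option autoImplicit false

open MeasureTheory Set Real Filter Topology Pointwise

namespace Pool.Agent.Lib.MP_f3b2fd_co

open Module Submodule

theorem meas_tsum (b : Basis (Fin 3) ℝ E3) (t : Set E3) :
    volume t = ∑' g : span ℤ (range b),
      volume (((g : E3) +ᵥ t) ∩ ZSpan.fundamentalDomain b) := by
  have : VAddInvariantMeasure (span ℤ (range b)) E3 volume :=
    inferInstanceAs <| VAddInvariantMeasure (span ℤ (Set.range b)).toAddSubgroup E3 volume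
  have : MeasurableConstVAdd (span ℤ (range b)) E3 :=
    inferInstanceAs <| MeasurableConstVAdd (span ℤ (Set.range b)).toAddSubgroup E3
  exact (ZSpan.isAddFundamentalDomain b volume).measure_eq_tsum t

theorem mem_vadd_iff (g x : E3) (t : Set E3) : x ∈ g +ᵥ t ↔ x - g ∈ t := by
  rw [Set.mem_vadd_set_iff_neg_vadd_mem, vadd_eq_add, neg_add_eq_sub]

/-- A set invariant under the translations of the lattice. -/
def Per (b : Basis (Fin 3) ℝ E3) (U : Set E3) : Prop :=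
  ∀ g ∈ span ℤ (range b), ∀ x : E3, x - g ∈ U ↔ x ∈ U

theorem cross (b : Basis (Fin 3) ℝ E3) (U V : Set E3) (hU : Per b U) (hV : Per b V) (d : ℝ)
    (hd : ∀ x ∈ ZSpan.fundamentalDomain b, ‖x‖ ≤ d) (R : ℝ) :
    volume (Metric.ball 0 R ∩ U) * volume (V ∩ ZSpan.fundamentalDomain b) ≤
      volume (Metric.ball 0 (R + 2 * d) ∩ V) * volume (U ∩ ZSpan.fundamentalDomain b) := by
  rw [meas_tsum b (Metric.ball 0 R ∩ U), meas_tsum b (Metric.ball 0 (R + 2 * d) ∩ V),
    ← ENNReal.tsum_mul_right, ← ENNReal.tsum_mul_right]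
  refine ENNReal.tsum_le_tsum fun g => ?_
  rcases (((g : E3) +ᵥ (Metric.ball 0 R ∩ U)) ∩ ZSpan.fundamentalDomain b).eq_empty_or_nonempty
    with h | ⟨y, hy, hyF⟩
  · rw [h, measure_empty, zero_mul]
    exact zero_le
  · rw [mul_comm]
    refine mul_le_mul' (measure_mono ?_) (measure_mono ?_)
    · rintro x ⟨hx, hxF⟩
      refine ⟨?_, hxF⟩
      rw [mem_vadd_iff] at hy ⊢
      refine ⟨?_, (hV g g.2 x).2 hx⟩
      have h1 : ‖y - g‖ < R := mem_ball_zero_iff.1 hy.1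
      have h2 := hd x hxF
      have h3 := hd y hyF
      rw [mem_ball_zero_iff]
      have h4 : x - g = (x - y) + (y - g) := by abel
      have h5 := norm_add_le (x - y) (y - g)
      have h6 := norm_sub_le x y
      rw [h4]
      linarith
    · rintro x ⟨hx, hxF⟩
      rw [mem_vadd_iff] at hx
      exact ⟨(hU g g.2 x).1 hx.2, hxF⟩

theorem ball_ratio (R c : ℝ) (hR : 0 < R) (hc : 0 ≤ R + c) :
    volume (Metric.ball (0 : E3) (R + c)) =
      ENNReal.ofReal (((R + c) / R) ^ 3) * volume (Metric.ball (0 : E3) R) := by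
  rw [EuclideanSpace.volume_ball_fin_three, EuclideanSpace.volume_ball_fin_three, ← mul_assoc,
    ← ENNReal.ofReal_pow hc, ← ENNReal.ofReal_pow hR.le,
    ← ENNReal.ofReal_mul (p := ((R + c) / R) ^ 3) (by positivity)]
  congr 2
  field_simp

theorem ratio_tendsto (c : ℝ) :
    Tendsto (fun R : ℝ => ENNReal.ofReal (((R + c) / R) ^ 3)) atTop (𝓝 1) := by
  have h1 : Tendsto (fun R : ℝ => (R + c) / R) atTop (𝓝 1) := by
    have h2 : Tendsto (fun R : ℝ => 1 + c / R) atTop (𝓝 (1 + 0)) :=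
      tendsto_const_nhds.add (tendsto_const_nhds.div_atTop tendsto_id)
    rw [add_zero] at h2
    refine h2.congr' ?_
    filter_upwards [eventually_gt_atTop 0] with R hR
    field_simp
  have h3 := (ENNReal.continuous_ofReal.tendsto _).comp (h1.pow 3)
  simpa [Function.comp_def] using h3

theorem per_tendsto (b : Basis (Fin 3) ℝ E3) (U : Set E3) (hU : Per b U) :
    Tendsto (fun R : ℝ => volume (Metric.ball (0 : E3) R ∩ U) / volume (Metric.ball (0 : E3) R))
      atTop (𝓝 (volume (U ∩ ZSpan.fundamentalDomain b) / volume (ZSpan.fundamentalDomain b))) := by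
  obtain ⟨d, hd⟩ := isBounded_iff_forall_norm_le.1 (ZSpan.fundamentalDomain_isBounded b)
  set F := ZSpan.fundamentalDomain b with hF
  have hF0 : volume F ≠ 0 := ZSpan.measure_fundamentalDomain_ne_zero b
  have hFt : volume F ≠ ⊤ := (ZSpan.fundamentalDomain_isBounded b).measure_lt_top.ne
  have hUt : volume (U ∩ F) ≠ ⊤ := ne_top_of_le_ne_top hFt (measure_mono inter_subset_right)
  have hρ : volume (U ∩ F) / volume F ≠ ⊤ := ENNReal.div_ne_top hUt hF0
  have hu : Per b univ := fun _ _ _ => by simp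
  have t1 := ENNReal.Tendsto.mul_const (ratio_tendsto (2 * d)) (b := volume (U ∩ F) / volume F)
    (Or.inr hρ)
  have t2 := ENNReal.Tendsto.mul_const (ratio_tendsto (-(2 * d)))
    (b := volume (U ∩ F) / volume F) (Or.inr hρ)
  rw [one_mul] at t1 t2
  refine tendsto_of_tendsto_of_tendsto_of_le_of_le' t2 t1 ?_ ?_
  · filter_upwards [eventually_gt_atTop 0, eventually_ge_atTop (2 * d)] with R hR hR2
    have hB0 : volume (Metric.ball (0 : E3) R) ≠ 0 := (Metric.measure_ball_pos _ _ hR).ne'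
    have hBt : volume (Metric.ball (0 : E3) R) ≠ ⊤ := measure_ball_lt_top.ne
    have h := cross b univ U hu hU d hd (R + -(2 * d))
    rw [inter_univ, univ_inter, ball_ratio R _ hR (by linarith),
      show R + -(2 * d) + 2 * d = R by ring] at h
    rw [ENNReal.le_div_iff_mul_le (Or.inl hB0) (Or.inl hBt), ← mul_div_assoc,
      ENNReal.mul_comm_div, ← mul_div_assoc, ENNReal.div_le_iff hF0 hFt]
    refine le_trans (le_of_eq ?_) h
    ring
  · filter_upwards [eventually_gt_atTop 0, eventually_ge_atTop (-(2 * d))] with R hR hR2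
    have hB0 : volume (Metric.ball (0 : E3) R) ≠ 0 := (Metric.measure_ball_pos _ _ hR).ne'
    have hBt : volume (Metric.ball (0 : E3) R) ≠ ⊤ := measure_ball_lt_top.ne
    have h := cross b U univ hU hu d hd R
    rw [inter_univ, univ_inter, ball_ratio R _ hR (by linarith)] at h
    rw [ENNReal.div_le_iff hB0 hBt, ← mul_div_assoc,
      ENNReal.mul_comm_div, ← mul_div_assoc, ENNReal.le_div_iff_mul_le (Or.inl hF0) (Or.inl hFt)]
    refine le_trans h (le_of_eq ?_)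
    ring

/-- The union of the balls of radius `r` around the lattice points. -/
def balls (b : Basis (Fin 3) ℝ E3) (r : ℝ) : Set E3 :=
  ⋃ x ∈ (span ℤ (range b) : Set E3), Metric.closedBall x r

theorem mem_balls (b : Basis (Fin 3) ℝ E3) (r : ℝ) (y : E3) :
    y ∈ balls b r ↔ ∃ x ∈ span ℤ (range b), ‖y - x‖ ≤ r := by
  simp [balls, dist_eq_norm]

theorem per_balls (b : Basis (Fin 3) ℝ E3) (r : ℝ) : Per b (balls b r) := by
  intro g hg y
  rw [mem_balls, mem_balls]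
  constructor
  · rintro ⟨x, hx, h⟩
    exact ⟨g + x, add_mem hg hx, by rwa [← sub_sub]⟩
  · rintro ⟨x, hx, h⟩
    exact ⟨x - g, sub_mem hx hg, by rwa [sub_sub_sub_cancel_right]⟩

theorem exists_nearest (b : Basis (Fin 3) ℝ E3) (y : E3) :
    ∃ z ∈ span ℤ (range b), ∀ x ∈ span ℤ (range b), ‖y - z‖ ≤ ‖y - x‖ := by
  have hfin := ZSpan.setFinite_inter b (s := Metric.closedBall y ‖y‖) Metric.isBounded_closedBall
  have hne : (Metric.closedBall y ‖y‖ ∩ (span ℤ (range b) : Set E3)).Nonempty :=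
    ⟨0, by simp, zero_mem _⟩
  obtain ⟨z, hz, hmin⟩ := Set.exists_min_image _ (fun x => ‖y - x‖) hfin hne
  refine ⟨z, hz.2, fun x hx => ?_⟩
  by_cases h : ‖y - x‖ ≤ ‖y‖
  · exact hmin x ⟨by rwa [Metric.mem_closedBall, dist_comm, dist_eq_norm], hx⟩
  · have h1 := hz.1
    rw [Metric.mem_closedBall, dist_comm, dist_eq_norm] at h1
    linarith

theorem balls_le (b : Basis (Fin 3) ℝ E3) (r : ℝ) :
    volume (balls b r ∩ ZSpan.fundamentalDomain b) ≤
      volume {x : E3 | ‖x‖ ≤ r ∧ ∀ v ∈ span ℤ (range b), ‖x‖ ≤ ‖x - v‖} := by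
  rw [meas_tsum b {x : E3 | ‖x‖ ≤ r ∧ ∀ v ∈ span ℤ (range b), ‖x‖ ≤ ‖x - v‖}]
  refine le_trans (measure_mono ?_) (measure_iUnion_le _)
  rintro y ⟨hy, hyF⟩
  obtain ⟨x, hx, hxy⟩ := (mem_balls b r y).1 hy
  obtain ⟨z, hz, hmin⟩ := exists_nearest b y
  refine mem_iUnion.2 ⟨⟨z, hz⟩, ?_, hyF⟩
  rw [mem_vadd_iff]
  refine ⟨(hmin x hx).trans hxy, fun v hv => ?_⟩
  have := hmin (z + v) (add_mem hz hv)
  rwa [← sub_sub] at this

theorem le_balls (b : Basis (Fin 3) ℝ E3) (r : ℝ) :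
    volume {x : E3 | ‖x‖ ≤ r ∧ ∀ v ∈ span ℤ (range b), v ≠ 0 → ‖x‖ < ‖x - v‖} ≤
      volume (balls b r ∩ ZSpan.fundamentalDomain b) := by
  set D := {x : E3 | ‖x‖ ≤ r ∧ ∀ v ∈ span ℤ (range b), v ≠ 0 → ‖x‖ < ‖x - v‖} with hD
  have hDm : MeasurableSet D := by
    have h0 : MeasurableSet {x : E3 | ‖x‖ ≤ r} := measurableSet_le (by fun_prop) (by fun_prop)
    have h1 : D = {x : E3 | ‖x‖ ≤ r} ∩
        ⋂ v : span ℤ (range b), {x : E3 | (v : E3) ≠ 0 → ‖x‖ < ‖x - v‖} := by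
      ext x
      simp [hD]
    rw [h1]
    refine h0.inter (MeasurableSet.iInter fun v => ?_)
    by_cases hv : (v : E3) = 0
    · simp [hv]
    · simp only [ne_eq, hv, not_false_eq_true, forall_const]
      exact measurableSet_lt (by fun_prop) (by fun_prop)
  rw [meas_tsum b D, ← measure_iUnion]
  · refine measure_mono ?_
    intro y hy
    obtain ⟨g, hg, hyF⟩ := mem_iUnion.1 hy
    rw [mem_vadd_iff] at hg
    exact ⟨(mem_balls b r y).2 ⟨g, g.2, hg.1⟩, hyF⟩
  · intro g h hgh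
    refine Set.disjoint_left.2 ?_
    rintro y ⟨hg, -⟩ ⟨hh, -⟩
    rw [mem_vadd_iff] at hg hh
    have hne : (h : E3) - g ≠ 0 := sub_ne_zero.2 fun e => hgh (Subtype.ext e.symm)
    have hne' : (g : E3) - h ≠ 0 := sub_ne_zero.2 fun e => hgh (Subtype.ext e)
    have h1 := hg.2 _ (sub_mem h.2 g.2) hne
    have h2 := hh.2 _ (sub_mem g.2 h.2) hne'
    rw [sub_sub_sub_cancel_right] at h1 h2
    linarith
  · intro g
    exact (hDm.const_vadd (g : E3)).inter (ZSpan.fundamentalDomain_measurableSet b)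

theorem three_points (r : ℝ) (hr : r ^ 2 ≤ 4 / 3) (x v w : E3) (hv : 2 ≤ ‖v‖) (hw : 2 ≤ ‖w‖)
    (hvw : 2 ≤ ‖v - w‖) (hx : ‖x‖ ≤ r) (h1 : ‖x - v‖ < ‖x‖) (h2 : ‖x - w‖ < ‖x‖) : False := by
  have e1 : 4 ≤ ‖v‖ ^ 2 := by nlinarith
  have e2 : 4 ≤ ‖w‖ ^ 2 := by nlinarith
  have e3 : 4 ≤ ‖v - w‖ ^ 2 := by nlinarith
  have e4 : ‖x‖ ^ 2 ≤ 4 / 3 := by nlinarith [norm_nonneg x]
  have e5 : ‖x - v‖ ^ 2 < ‖x‖ ^ 2 := by nlinarith [norm_nonneg (x - v)]
  have e6 : ‖x - w‖ ^ 2 < ‖x‖ ^ 2 := by nlinarith [norm_nonneg (x - w)]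
  have e7 : 0 ≤ ‖x + (x - v) + (x - w)‖ ^ 2 := sq_nonneg _
  simp only [EuclideanSpace.real_norm_sq_eq, Fin.sum_univ_three, PiLp.sub_apply,
    PiLp.add_apply] at *
  nlinarith

theorem upper_caps (b : Basis (Fin 3) ℝ E3) (r : ℝ) (hr0 : 0 ≤ r) (hr : r ^ 2 ≤ 4 / 3)
    (hp : ∀ v ∈ span ℤ (range b), v ≠ 0 → 2 ≤ ‖v‖) {ι : Type} [Fintype ι] (w : ι → E3)
    (hw : Function.Injective w) (hL : ∀ i, w i ∈ span ℤ (range b)) (h0 : ∀ i, w i ≠ 0) :
    volume (balls b r ∩ ZSpan.fundamentalDomain b) +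
      ∑ i, ENNReal.ofReal (capV r (‖w i‖ / 2)) ≤ volume (Metric.closedBall (0 : E3) r) := by
  set D := {x : E3 | ‖x‖ ≤ r ∧ ∀ v ∈ span ℤ (range b), ‖x‖ ≤ ‖x - v‖} with hD
  set C : ι → Set E3 := fun i => {x : E3 | ‖x‖ ≤ r ∧ ‖x - w i‖ < ‖x‖} with hC
  have hCm : ∀ i, MeasurableSet (C i) := fun i => by
    have h1 : MeasurableSet {x : E3 | ‖x‖ ≤ r} := measurableSet_le (by fun_prop) (by fun_prop)
    have h2 : MeasurableSet {x : E3 | ‖x - w i‖ < ‖x‖} :=
      measurableSet_lt (by fun_prop) (by fun_prop)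
    exact h1.inter h2
  have hdis : Pairwise (Function.onFun Disjoint C) := by
    intro i j hij
    refine Set.disjoint_left.2 ?_
    rintro x ⟨hx, h1⟩ ⟨-, h2⟩
    exact three_points r hr x (w i) (w j) (hp _ (hL i) (h0 i)) (hp _ (hL j) (h0 j))
      (hp _ (sub_mem (hL i) (hL j)) (sub_ne_zero.2 fun e => hij (hw e))) hx h1 h2
  have hsum : volume (⋃ i, C i) = ∑ i, ENNReal.ofReal (capV r (‖w i‖ / 2)) := by
    rw [measure_iUnion hdis hCm, tsum_fintype]
    exact Finset.sum_congr rfl fun i _ => cap_open r hr0 (w i) (h0 i)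
  have hdj : Disjoint D (⋃ i, C i) := by
    refine Set.disjoint_left.2 ?_
    intro x hx hx'
    obtain ⟨i, hi⟩ := mem_iUnion.1 hx'
    exact absurd (hx.2 _ (hL i)) (not_le.2 hi.2)
  calc _ ≤ volume D + volume (⋃ i, C i) := by
        rw [hsum]
        exact add_le_add (balls_le b r) le_rfl
    _ = volume (D ∪ ⋃ i, C i) := (measure_union hdj (MeasurableSet.iUnion hCm)).symm
    _ ≤ _ := by
        refine measure_mono ?_
        rintro x (hx | hx)
        · exact mem_closedBall_zero_iff.2 hx.1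
        · obtain ⟨i, hi⟩ := mem_iUnion.1 hx
          exact mem_closedBall_zero_iff.2 hi.1

theorem lower_caps (b : Basis (Fin 3) ℝ E3) (r : ℝ) (hr0 : 0 ≤ r)
    {ι : Type} [Fintype ι] (w : ι → E3) (h0 : ∀ i, w i ≠ 0)
    (hfar : ∀ v ∈ span ℤ (range b), v ≠ 0 → (∃ i, v = w i) ∨ 2 * r < ‖v‖) :
    volume (Metric.closedBall (0 : E3) r) ≤ volume (balls b r ∩ ZSpan.fundamentalDomain b) +
      ∑ i, ENNReal.ofReal (capV r (‖w i‖ / 2)) := by
  set D := {x : E3 | ‖x‖ ≤ r ∧ ∀ v ∈ span ℤ (range b), v ≠ 0 → ‖x‖ < ‖x - v‖} with hD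
  set C : ι → Set E3 := fun i => {x : E3 | ‖x‖ ≤ r ∧ ‖x - w i‖ ≤ ‖x‖} with hC
  have hsum : volume (⋃ i, C i) ≤ ∑ i, ENNReal.ofReal (capV r (‖w i‖ / 2)) := by
    refine (measure_iUnion_fintype_le _ _).trans (le_of_eq ?_)
    exact Finset.sum_congr rfl fun i _ => cap_closed r hr0 (w i) (h0 i)
  calc _ ≤ volume (D ∪ ⋃ i, C i) := by
        refine measure_mono fun x hx => ?_
        have hx' := mem_closedBall_zero_iff.1 hx
        by_cases h : x ∈ ⋃ i, C i
        · exact Or.inr h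
        · refine Or.inl ⟨hx', fun v hv hv0 => ?_⟩
          rcases hfar v hv hv0 with ⟨i, rfl⟩ | h2
          · by_contra h3
            exact h (mem_iUnion.2 ⟨i, hx', not_lt.1 h3⟩)
          · have h4 := norm_sub_le x (x - v)
            rw [sub_sub_cancel] at h4
            linarith
    _ ≤ volume D + volume (⋃ i, C i) := measure_union_le _ _
    _ ≤ _ := add_le_add (le_balls b r) hsum

theorem fund_vol (b : Basis (Fin 3) ℝ E3) :
    volume (ZSpan.fundamentalDomain b) = ENNReal.ofReal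
      |b 0 0 * (b 1 1 * b 2 2 - b 1 2 * b 2 1) - b 0 1 * (b 1 0 * b 2 2 - b 1 2 * b 2 0) +
        b 0 2 * (b 1 0 * b 2 1 - b 1 1 * b 2 0)| := by
  rw [ZSpan.measure_fundamentalDomain b volume (EuclideanSpace.basisFun (Fin 3) ℝ).toBasis,
    measure_congr (ZSpan.fundamentalDomain_ae_parallelepiped _ volume),
    OrthonormalBasis.coe_toBasis, OrthonormalBasis.volume_parallelepiped, mul_one,
    Basis.det_apply, Matrix.det_fin_three]
  congr 2
  simp only [Basis.toMatrix_apply, OrthonormalBasis.coe_toBasis_repr_apply,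
    EuclideanSpace.basisFun_repr]
  ring

end Pool.Agent.Lib.MP_f3b2fd_co
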