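import Mathlib
import Pool.Agent.Lib.MP_f3b2fd_co.Cap
import Pool.Agent.Lib.MP_f3b2fd_co.CertMain

set_option autoImplicit false

open Real

namespace Pool.Agent.Lib.MP_f3b2fd_co

/-- The volume of the ball minus twelve caps at height one. -/
noncomputable def Wv (l : ℝ) : ℝ := 4 * π / 3 * (1 + 3 * l - 6 * l ^ 2 - 5 * l ^ 3)

theorem l_bound {l : ℝ} (h0 : 0 < l) (h1 : (1 + l) ^ 2 ≤ 4 / 3) : l ≤ 1548 / 10000 := by
  nlinarith

theorem poly_pos {l : ℝ} (h0 : 0 < l) (h1 : l ≤ 1548 / 10000) :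
    0 < 1 + 3 * l - 6 * l ^ 2 - 5 * l ^ 3 := by
  nlinarith [mul_pos h0 h0, mul_nonneg h0.le (sub_nonneg.2 h1),
    mul_nonneg (mul_pos h0 h0).le (sub_nonneg.2 h1)]

theorem Wv_pos {l : ℝ} (h0 : 0 < l) (h1 : l ≤ 1548 / 10000) : 0 < Wv l :=
  mul_pos (by positivity) (poly_pos h0 h1)

theorem cap_one {l : ℝ} (h0 : 0 < l) : capV (1 + l) 1 = π * l ^ 2 * (3 + 2 * l) / 3 := by
  rw [capV, max_eq_left (by linarith)]
  ring

theorem Wv_eq {l : ℝ} (h0 : 0 < l) :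
    Wv l = (1 + l) ^ 3 * (π * 4 / 3) - 12 * capV (1 + l) 1 := by
  rw [cap_one h0, Wv]
  ring

theorem capV_nonneg {r h : ℝ} (hr : 0 ≤ r) (hh : 0 ≤ h) : 0 ≤ capV r h := by
  unfold capV
  positivity

theorem cap_diff {l h : ℝ} (h0 : 0 < l) (hh : 1 ≤ h) :
    0 ≤ capV (1 + l) 1 - capV (1 + l) h ∧
      capV (1 + l) 1 - capV (1 + l) h ≤ π * ((2 * l + l ^ 2) * (h - 1)) := by
  rw [cap_one h0, capV]
  rcases le_total h (1 + l) with hl | hl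
  · rw [max_eq_left (by linarith)]
    have e : π * l ^ 2 * (3 + 2 * l) / 3 - π * (1 + l - h) ^ 2 * (2 * (1 + l) + h) / 3 =
        π * ((h - 1) * ((1 + l) ^ 2 - (h ^ 2 + h + 1) / 3)) := by ring
    rw [e]
    constructor
    · refine mul_nonneg pi_pos.le (mul_nonneg (by linarith) ?_)
      nlinarith
    · refine mul_le_mul_of_nonneg_left ?_ pi_pos.le
      nlinarith [mul_nonneg (sub_nonneg.2 hh) (sub_nonneg.2 hh),
        mul_nonneg (mul_nonneg (sub_nonneg.2 hh) (sub_nonneg.2 hh)) (sub_nonneg.2 hh)]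
  · rw [max_eq_right (by linarith)]
    have e : π * l ^ 2 * (3 + 2 * l) / 3 - π * 0 ^ 2 * (2 * (1 + l) + h) / 3 =
        π * (l ^ 2 * (3 + 2 * l) / 3) := by ring
    rw [e]
    constructor
    · positivity
    · refine mul_le_mul_of_nonneg_left ?_ pi_pos.le
      have h2 : l ≤ h - 1 := by linarith
      have h3 : (2 * l + l ^ 2) * l ≤ (2 * l + l ^ 2) * (h - 1) :=
        mul_le_mul_of_nonneg_left h2 (by positivity)
      nlinarith [mul_pos h0 h0, mul_pos (mul_pos h0 h0) h0]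

/-- The relative gain of a pair of opposite caps. -/
noncomputable def gain (l n : ℝ) : ℝ := 2 * (capV (1 + l) 1 - capV (1 + l) (n / 2)) / Wv l

theorem gain_bounds {l n : ℝ} (h0 : 0 < l) (h1 : l ≤ 1548 / 10000) (hn : 2 ≤ n) :
    0 ≤ gain l n ∧ gain l n ≤ min (481 / 10000 * (n ^ 2 - 4)) (61 / 2000) ∧
      (n ≠ 2 → gain l n < min (481 / 10000 * (n ^ 2 - 4)) (61 / 2000)) := by
  have hW := Wv_pos h0 h1
  obtain ⟨d0, d1⟩ := cap_diff (h := n / 2) h0 (by linarith)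
  have hc : 0 ≤ capV (1 + l) (n / 2) := capV_nonneg (by linarith) (by linarith)
  have hB : (2 * l + l ^ 2) / 4 < 481 / 10000 * (4 / 3 * (1 + 3 * l - 6 * l ^ 2 - 5 * l ^ 3)) := by
    nlinarith [mul_pos h0 h0, mul_nonneg h0.le (sub_nonneg.2 h1),
      mul_nonneg (mul_pos h0 h0).le (sub_nonneg.2 h1)]
  have hC : 2 * (l ^ 2 * (3 + 2 * l) / 3) <
      61 / 2000 * (4 / 3 * (1 + 3 * l - 6 * l ^ 2 - 5 * l ^ 3)) := by
    nlinarith [mul_pos h0 h0, mul_nonneg h0.le (sub_nonneg.2 h1),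
      mul_nonneg (mul_pos h0 h0).le (sub_nonneg.2 h1)]
  have g2 : gain l n < 61 / 2000 := by
    rw [gain, div_lt_iff₀ hW]
    have := mul_lt_mul_of_pos_left hC pi_pos
    rw [cap_one h0, Wv]
    nlinarith
  have g3 : 2 * (capV (1 + l) 1 - capV (1 + l) (n / 2)) ≤
      π * ((2 * l + l ^ 2) / 4) * (n ^ 2 - 4) := by
    have h4 : n - 2 ≤ (n ^ 2 - 4) / 4 := by nlinarith
    have h5 : π * (2 * l + l ^ 2) * (n - 2) ≤ π * (2 * l + l ^ 2) * ((n ^ 2 - 4) / 4) :=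
      mul_le_mul_of_nonneg_left h4 (by positivity)
    nlinarith
  have g4 : π * ((2 * l + l ^ 2) / 4) < 481 / 10000 * Wv l := by
    have := mul_lt_mul_of_pos_left hB pi_pos
    rw [Wv]
    nlinarith
  have hs : 0 ≤ n ^ 2 - 4 := by nlinarith
  refine ⟨div_nonneg (by linarith) hW.le, le_min ?_ g2.le, fun hne => lt_min ?_ g2⟩
  · rw [gain, div_le_iff₀ hW]
    have := mul_le_mul_of_nonneg_right g4.le hs
    nlinarith
  · have hn' : 2 < n := lt_of_le_of_ne hn (Ne.symm hne)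
    have hs' : 0 < n ^ 2 - 4 := by nlinarith
    rw [gain, div_lt_iff₀ hW]
    have := mul_lt_mul_of_pos_right g4 hs'
    nlinarith

theorem real_main {l n0 n1 n2 n3 n4 n5 D : ℝ} (h0 : 0 < l) (h1 : l ≤ 1548 / 10000)
    (g0 : 2 ≤ n0) (g1 : 2 ≤ n1) (g2 : 2 ≤ n2) (g3 : 2 ≤ n3) (g4 : 2 ≤ n4) (g5 : 2 ≤ n5)
    (hR : Red (n0 ^ 2 - 4) (n1 ^ 2 - 4) (n2 ^ 2 - 4) (n3 ^ 2 - 4) (n4 ^ 2 - 4) (n5 ^ 2 - 4))
    (hD0 : 0 ≤ D)
    (hD : D ^ 2 = Dp (n0 ^ 2 - 4) (n1 ^ 2 - 4) (n2 ^ 2 - 4) (n3 ^ 2 - 4) (n4 ^ 2 - 4) (n5 ^ 2 - 4)) :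
    √32 * (1 + gain l n0 + gain l n1 + gain l n2 + gain l n3 + gain l n4 + gain l n5) ≤ D ∧
      (D ≤ √32 * (1 + gain l n0 + gain l n1 + gain l n2 + gain l n3 + gain l n4 + gain l n5) →
        n0 = 2 ∧ n1 = 2 ∧ n2 = 2 ∧ n3 = 2 ∧ n4 = 2 ∧ n5 = 2) := by
  obtain ⟨p0, q0, r0⟩ := gain_bounds h0 h1 g0
  obtain ⟨p1, q1, r1⟩ := gain_bounds h0 h1 g1
  obtain ⟨p2, q2, r2⟩ := gain_bounds h0 h1 g2
  obtain ⟨p3, q3, r3⟩ := gain_bounds h0 h1 g3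
  obtain ⟨p4, q4, r4⟩ := gain_bounds h0 h1 g4
  obtain ⟨p5, q5, r5⟩ := gain_bounds h0 h1 g5
  have hs : ∀ n : ℝ, 2 ≤ n → 0 ≤ n ^ 2 - 4 := fun n hn => by nlinarith
  set M0 := min (481 / 10000 * (n0 ^ 2 - 4)) (61 / 2000 : ℝ) with hM0
  set M1 := min (481 / 10000 * (n1 ^ 2 - 4)) (61 / 2000 : ℝ) with hM1
  set M2 := min (481 / 10000 * (n2 ^ 2 - 4)) (61 / 2000 : ℝ) with hM2
  set M3 := min (481 / 10000 * (n3 ^ 2 - 4)) (61 / 2000 : ℝ) with hM3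
  set M4 := min (481 / 10000 * (n4 ^ 2 - 4)) (61 / 2000 : ℝ) with hM4
  set M5 := min (481 / 10000 * (n5 ^ 2 - 4)) (61 / 2000 : ℝ) with hM5
  have hpos : 0 ≤ 1 + M0 + M1 + M2 + M3 + M4 + M5 := by linarith
  have hc := cert_main (m0 := M0) (m1 := M1) (m2 := M2) (m3 := M3) (m4 := M4) (m5 := M5) hR
    (hs _ g0) (hs _ g1) (hs _ g2) (hs _ g3) (hs _ g4) (hs _ g5)
    (min_le_left _ _) (min_le_left _ _) (min_le_left _ _) (min_le_left _ _) (min_le_left _ _)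
    (min_le_left _ _) (min_le_right _ _) (min_le_right _ _) (min_le_right _ _)
    (min_le_right _ _) (min_le_right _ _) (min_le_right _ _) hpos
  have h32 : (0 : ℝ) < √32 := Real.sqrt_pos.2 (by norm_num)
  have hk : √32 * (1 + M0 + M1 + M2 + M3 + M4 + M5) ≤ D := by
    rw [← sq_le_sq₀ (by positivity) hD0, mul_pow, Real.sq_sqrt (by norm_num), hD]
    exact hc
  refine ⟨le_trans (mul_le_mul_of_nonneg_left (by linarith) h32.le) hk, fun h => ?_⟩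
  have h2 := le_of_mul_le_mul_left (hk.trans h) h32
  refine ⟨?_, ?_, ?_, ?_, ?_, ?_⟩ <;> by_contra hne
  · linarith [r0 hne]
  · linarith [r1 hne]
  · linarith [r2 hne]
  · linarith [r3 hne]
  · linarith [r4 hne]
  · linarith [r5 hne]

theorem val_eq (l : ℝ) : Wv l / √32 = π * (1 + 3 * l - 6 * l ^ 2 - 5 * l ^ 3) / √18 := by
  have h2 : (0 : ℝ) < √2 := Real.sqrt_pos.2 (by norm_num)
  have e1 : √32 = 4 * √2 := by
    rw [show (32 : ℝ) = 4 ^ 2 * 2 by norm_num, Real.sqrt_mul (by norm_num),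
      Real.sqrt_sq (by norm_num)]
  have e2 : √18 = 3 * √2 := by
    rw [show (18 : ℝ) = 3 ^ 2 * 2 by norm_num, Real.sqrt_mul (by norm_num),
      Real.sqrt_sq (by norm_num)]
  rw [e1, e2, Wv]
  field_simp

end Pool.Agent.Lib.MP_f3b2fd_co
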