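import Mathlib
import Pool.Agent.Lib.MP_f3b2fd_co.Cap

set_option autoImplicit false

open Set

namespace Pool.Agent.Lib.MP_f3b2fd_co

open Module Submodule

/-- A superbase of the lattice `L`. -/
structure SB (L : Submodule ℤ E3) (a b c d : E3) : Prop where
  sum : a + b + c + d = 0
  ha : a ∈ L
  hb : b ∈ L
  hc : c ∈ L
  hd : d ∈ L
  gen : ∀ x ∈ L, ∃ n0 n1 n2 n3 : ℤ, x = n0 • a + n1 • b + n2 • c + n3 • d

theorem SB.swap01 {L : Submodule ℤ E3} {a b c d : E3} (h : SB L a b c d) : SB L b a c d :=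
  ⟨by rw [← h.sum]; abel, h.hb, h.ha, h.hc, h.hd, fun x hx => by
    obtain ⟨n0, n1, n2, n3, e⟩ := h.gen x hx
    exact ⟨n1, n0, n2, n3, by rw [e]; abel⟩⟩

theorem SB.swap12 {L : Submodule ℤ E3} {a b c d : E3} (h : SB L a b c d) : SB L a c b d :=
  ⟨by rw [← h.sum]; abel, h.ha, h.hc, h.hb, h.hd, fun x hx => by
    obtain ⟨n0, n1, n2, n3, e⟩ := h.gen x hx
    exact ⟨n0, n2, n1, n3, by rw [e]; abel⟩⟩

theorem SB.swap23 {L : Submodule ℤ E3} {a b c d : E3} (h : SB L a b c d) : SB L a b d c :=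
  ⟨by rw [← h.sum]; abel, h.ha, h.hb, h.hd, h.hc, fun x hx => by
    obtain ⟨n0, n1, n2, n3, e⟩ := h.gen x hx
    exact ⟨n0, n1, n3, n2, by rw [e]; abel⟩⟩

theorem SB.step {L : Submodule ℤ E3} {a b c d : E3} (h : SB L a b c d) :
    SB L (-a) b (c + a) (d + a) :=
  ⟨by rw [← h.sum]; abel, neg_mem h.ha, h.hb, add_mem h.hc h.ha, add_mem h.hd h.ha,
    fun x hx => by
      obtain ⟨n0, n1, n2, n3, e⟩ := h.gen x hx
      exact ⟨n2 + n3 - n0, n1, n2, n3, by rw [e]; module⟩⟩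

/-- The cost of a superbase. -/
noncomputable def cost (a b c d : E3) : ℝ := ‖a‖ ^ 2 + ‖b‖ ^ 2 + ‖c‖ ^ 2 + ‖d‖ ^ 2

theorem cost_step {a b c d : E3} (h : a + b + c + d = 0) :
    cost (-a) b (c + a) (d + a) = cost a b c d - 2 * inner ℝ a b := by
  have hd : d = -(a + b + c) := by rw [← sub_eq_zero, ← h]; abel
  subst hd
  simp only [cost, EuclideanSpace.real_norm_sq_eq, Fin.sum_univ_three, PiLp.add_apply,
    PiLp.neg_apply, PiLp.inner_apply, RCLike.inner_apply, conj_trivial]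
  ring

theorem sb_basis (b : Basis (Fin 3) ℝ E3) :
    SB (span ℤ (range b)) (b 0) (b 1) (b 2) (-(b 0 + b 1 + b 2)) := by
  have h0 : b 0 ∈ span ℤ (range b) := subset_span (mem_range_self 0)
  have h1 : b 1 ∈ span ℤ (range b) := subset_span (mem_range_self 1)
  have h2 : b 2 ∈ span ℤ (range b) := subset_span (mem_range_self 2)
  refine ⟨by abel, h0, h1, h2, neg_mem (add_mem (add_mem h0 h1) h2), fun x hx => ?_⟩
  obtain ⟨n, hn⟩ := (mem_span_range_iff_exists_fun ℤ).1 hx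
  exact ⟨n 0, n 1, n 2, 0, by rw [← hn, Fin.sum_univ_three]; simp⟩

theorem exists_min_sb (b : Basis (Fin 3) ℝ E3) :
    ∃ a0 a1 a2 a3 : E3, SB (span ℤ (range b)) a0 a1 a2 a3 ∧
      ∀ c0 c1 c2 c3 : E3, SB (span ℤ (range b)) c0 c1 c2 c3 →
        cost a0 a1 a2 a3 ≤ cost c0 c1 c2 c3 := by
  set L := span ℤ (range b) with hL
  set K := cost (b 0) (b 1) (b 2) (-(b 0 + b 1 + b 2)) with hK
  set T : Set E3 := Metric.closedBall 0 (K + 1) ∩ (L : Set E3) with hT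
  have hTf : T.Finite := ZSpan.setFinite_inter b Metric.isBounded_closedBall
  set S : Set (E3 × E3 × E3 × E3) :=
    {p | SB L p.1 p.2.1 p.2.2.1 p.2.2.2 ∧ cost p.1 p.2.1 p.2.2.1 p.2.2.2 ≤ K} with hS
  have hmem : ∀ x ∈ L, ‖x‖ ^ 2 ≤ K → x ∈ T := fun x hx h =>
    ⟨mem_closedBall_zero_iff.2 (by nlinarith [norm_nonneg x, sq_nonneg (‖x‖ - 1)]), hx⟩
  have hSf : S.Finite := by
    refine (hTf.prod (hTf.prod (hTf.prod hTf))).subset ?_
    rintro ⟨p0, p1, p2, p3⟩ ⟨h, hc⟩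
    simp only [cost] at hc
    have e0 := sq_nonneg ‖p0‖
    have e1 := sq_nonneg ‖p1‖
    have e2 := sq_nonneg ‖p2‖
    have e3 := sq_nonneg ‖p3‖
    exact ⟨hmem _ h.ha (by linarith), hmem _ h.hb (by linarith), hmem _ h.hc (by linarith),
      hmem _ h.hd (by linarith)⟩
  have hne : S.Nonempty := ⟨(b 0, b 1, b 2, -(b 0 + b 1 + b 2)), sb_basis b, le_rfl⟩
  obtain ⟨p, hp, hmin⟩ := Set.exists_min_image S
    (fun p => cost p.1 p.2.1 p.2.2.1 p.2.2.2) hSf hne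
  refine ⟨p.1, p.2.1, p.2.2.1, p.2.2.2, hp.1, fun c0 c1 c2 c3 hc => ?_⟩
  rcases le_total (cost c0 c1 c2 c3) K with h | h
  · exact hmin (c0, c1, c2, c3) ⟨hc, h⟩
  · exact hp.2.trans h

/-- An obtuse superbase. -/
structure Obt (L : Submodule ℤ E3) (a b c d : E3) : Prop where
  sb : SB L a b c d
  ab : inner ℝ a b ≤ 0
  ac : inner ℝ a c ≤ 0
  ad : inner ℝ a d ≤ 0
  bc : inner ℝ b c ≤ 0
  bd : inner ℝ b d ≤ 0
  cd : inner ℝ c d ≤ 0

theorem exists_obt (b : Basis (Fin 3) ℝ E3) :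
    ∃ a0 a1 a2 a3 : E3, Obt (span ℤ (range b)) a0 a1 a2 a3 := by
  obtain ⟨a0, a1, a2, a3, h, hmin⟩ := exists_min_sb b
  have key : ∀ c0 c1 c2 c3 : E3, SB (span ℤ (range b)) c0 c1 c2 c3 →
      cost c0 c1 c2 c3 = cost a0 a1 a2 a3 → inner ℝ c0 c1 ≤ 0 := by
    intro c0 c1 c2 c3 hc e
    have h1 := hmin _ _ _ _ hc.step
    rw [cost_step hc.sum] at h1
    linarith
  refine ⟨a0, a1, a2, a3, h, key _ _ _ _ h rfl, key _ _ _ _ h.swap12 (by simp only [cost]; ring),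
    key _ _ _ _ h.swap23.swap12 (by simp only [cost]; ring),
    key _ _ _ _ h.swap01.swap12 (by simp only [cost]; ring),
    key _ _ _ _ h.swap01.swap23.swap12 (by simp only [cost]; ring),
    key _ _ _ _ h.swap12.swap01.swap23.swap12 (by simp only [cost]; ring)⟩

theorem Obt.swap12 {L : Submodule ℤ E3} {a b c d : E3} (h : Obt L a b c d) : Obt L a c b d :=
  ⟨h.sb.swap12, h.ac, h.ab, h.ad, by rw [real_inner_comm]; exact h.bc, h.cd, h.bd⟩

theorem Obt.swap01 {L : Submodule ℤ E3} {a b c d : E3} (h : Obt L a b c d) : Obt L b a c d :=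
  ⟨h.sb.swap01, by rw [real_inner_comm]; exact h.ab, h.bc, h.bd, h.ac, h.ad, h.cd⟩

theorem exists_obt' (b : Basis (Fin 3) ℝ E3) :
    ∃ a0 a1 a2 a3 : E3, Obt (span ℤ (range b)) a0 a1 a2 a3 ∧
      inner ℝ a0 a1 + inner ℝ a2 a3 ≤ inner ℝ a0 a2 + inner ℝ a1 a3 ∧
      inner ℝ a1 a2 + inner ℝ a0 a3 ≤ inner ℝ a0 a2 + inner ℝ a1 a3 := by
  obtain ⟨a0, a1, a2, a3, h⟩ := exists_obt b
  have c01 := real_inner_comm a0 a1
  have c12 := real_inner_comm a1 a2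
  have c02 := real_inner_comm a0 a2
  by_cases h1 : inner ℝ a0 a1 + inner ℝ a2 a3 ≤ inner ℝ a0 a2 + inner ℝ a1 a3 ∧
      inner ℝ a1 a2 + inner ℝ a0 a3 ≤ inner ℝ a0 a2 + inner ℝ a1 a3
  · exact ⟨a0, a1, a2, a3, h, h1⟩
  · rcases le_total (inner ℝ a0 a1 + inner ℝ a2 a3) (inner ℝ a1 a2 + inner ℝ a0 a3) with h2 | h2
    · refine ⟨a1, a0, a2, a3, h.swap01, by linarith, ?_⟩
      by_contra h3
      exact h1 ⟨by linarith, by linarith⟩
    · refine ⟨a0, a2, a1, a3, h.swap12, ?_, by linarith⟩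
      by_contra h3
      exact h1 ⟨by linarith, by linarith⟩

theorem span_of_sb {L : Submodule ℤ E3} {a b c d : E3} (h : SB L a b c d) :
    span ℤ (range ![a, b, c]) = L := by
  refine le_antisymm (span_le.2 ?_) fun x hx => ?_
  · rintro _ ⟨i, rfl⟩
    fin_cases i
    · exact h.ha
    · exact h.hb
    · exact h.hc
  · obtain ⟨n0, n1, n2, n3, e⟩ := h.gen x hx
    have hd : d = -(a + b + c) := by rw [← sub_eq_zero, ← h.sum]; abel
    refine (mem_span_range_iff_exists_fun ℤ).2 ⟨![n0 - n3, n1 - n3, n2 - n3], ?_⟩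
    rw [e, hd, Fin.sum_univ_three]
    simp only [Matrix.cons_val_zero, Matrix.cons_val_one, Matrix.cons_val]
    module

theorem basis_of_span (b : Basis (Fin 3) ℝ E3) (c : Fin 3 → E3)
    (h : span ℤ (range c) = span ℤ (range b)) : ∃ c' : Basis (Fin 3) ℝ E3, ⇑c' = c := by
  have h1 : ⊤ ≤ span ℝ (range c) := by
    rw [← b.span_eq]
    refine span_le.2 ?_
    rintro _ ⟨i, rfl⟩
    have : b i ∈ span ℤ (range c) := by
      rw [h]
      exact subset_span (mem_range_self i)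
    exact span_subset_span ℤ ℝ _ this
  exact ⟨basisOfTopLeSpanOfCardEqFinrank c h1 (by simp), by simp⟩

end Pool.Agent.Lib.MP_f3b2fd_co
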