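import Mathlib
import Pool.Agent.Lib.MP_f3b2fd_co.Dens
import Pool.Agent.Lib.MP_f3b2fd_co.Selling
import Pool.Agent.Lib.MP_f3b2fd_co.Gain

set_option autoImplicit false

open MeasureTheory Set Real

namespace Pool.Agent.Lib.MP_f3b2fd_co

open Module Submodule

/-- The lattice vector with integer coordinates `n`. -/
noncomputable def phi (c : Basis (Fin 3) ℝ E3) (n : Fin 3 → ℤ) : E3 :=
  n 0 • c 0 + n 1 • c 1 + n 2 • c 2

theorem phi_inj (c : Basis (Fin 3) ℝ E3) : Function.Injective (phi c) := by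
  intro n m h
  have e : ∀ k : Fin 3 → ℤ, phi c k = c.equivFun.symm fun i => (k i : ℝ) := by
    intro k
    rw [Basis.equivFun_symm_apply, Fin.sum_univ_three, phi]
    simp only [Int.cast_smul_eq_zsmul]
  rw [e, e] at h
  have h1 := c.equivFun.symm.injective h
  funext i
  exact_mod_cast congrFun h1 i

theorem phi_zero (c : Basis (Fin 3) ℝ E3) : phi c 0 = 0 := by simp [phi]

theorem phi_mem (c : Basis (Fin 3) ℝ E3) (n : Fin 3 → ℤ) : phi c n ∈ span ℤ (range c) :=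
  (mem_span_range_iff_exists_fun ℤ).2 ⟨n, by rw [Fin.sum_univ_three, phi]⟩

theorem exists_phi (c : Basis (Fin 3) ℝ E3) {v : E3} (hv : v ∈ span ℤ (range c)) :
    ∃ n, v = phi c n := by
  obtain ⟨n, hn⟩ := (mem_span_range_iff_exists_fun ℤ).1 hv
  exact ⟨n, by rw [← hn, Fin.sum_univ_three, phi]⟩

/-- Coordinates of twelve short vectors. -/
def nw : Fin 12 → Fin 3 → ℤ :=
  ![![1, 0, 0], ![-1, 0, 0], ![0, 1, 0], ![0, -1, 0], ![0, 0, 1], ![0, 0, -1],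
    ![1, 1, 1], ![-1, -1, -1], ![1, 1, 0], ![-1, -1, 0], ![0, 1, 1], ![0, -1, -1]]

theorem nw_inj : Function.Injective nw := by decide

theorem nw_ne : ∀ k, nw k ≠ 0 := by decide

theorem phi_ne (c : Basis (Fin 3) ℝ E3) {n : Fin 3 → ℤ} (hn : n ≠ 0) : phi c n ≠ 0 :=
  fun h => hn (phi_inj c (h.trans (phi_zero c).symm))

theorem sum_nw (c : Basis (Fin 3) ℝ E3) (f : ℝ → ℝ) :
    ∑ k, f ‖phi c (nw k)‖ = 2 * (f ‖c 0‖ + f ‖c 1‖ + f ‖c 2‖ + f ‖c 0 + c 1 + c 2‖ +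
      f ‖c 0 + c 1‖ + f ‖c 1 + c 2‖) := by
  have e0 : phi c (nw 0) = c 0 := by simp [phi, nw]
  have e1 : phi c (nw 1) = -c 0 := by simp [phi, nw]
  have e2 : phi c (nw 2) = c 1 := by simp [phi, nw]
  have e3 : phi c (nw 3) = -c 1 := by simp [phi, nw]
  have e4 : phi c (nw 4) = c 2 := by simp [phi, nw]
  have e5 : phi c (nw 5) = -c 2 := by simp [phi, nw]
  have e6 : phi c (nw 6) = c 0 + c 1 + c 2 := by simp [phi, nw]
  have e7 : phi c (nw 7) = -(c 0 + c 1 + c 2) := by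
    simp [phi, nw]
    abel
  have e8 : phi c (nw 8) = c 0 + c 1 := by simp [phi, nw]
  have e9 : phi c (nw 9) = -(c 0 + c 1) := by
    simp [phi, nw]
    abel
  have e10 : phi c (nw 10) = c 1 + c 2 := by simp [phi, nw]
  have e11 : phi c (nw 11) = -(c 1 + c 2) := by
    simp [phi, nw]
    abel
  have hs : ∑ k, f ‖phi c (nw k)‖ = f ‖phi c (nw 0)‖ + f ‖phi c (nw 1)‖ + f ‖phi c (nw 2)‖ +
      f ‖phi c (nw 3)‖ + f ‖phi c (nw 4)‖ + f ‖phi c (nw 5)‖ + f ‖phi c (nw 6)‖ +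
      f ‖phi c (nw 7)‖ + f ‖phi c (nw 8)‖ + f ‖phi c (nw 9)‖ + f ‖phi c (nw 10)‖ +
      f ‖phi c (nw 11)‖ := by
    simp only [Fin.sum_univ_castSucc, Fin.sum_univ_zero, zero_add]
    rfl
  rw [hs, e0, e1, e2, e3, e4, e5, e6, e7, e8, e9, e10, e11]
  simp only [norm_neg]
  ring

/-- The absolute value of the determinant of a basis. -/
noncomputable def dt (b : Basis (Fin 3) ℝ E3) : ℝ :=
  |b 0 0 * (b 1 1 * b 2 2 - b 1 2 * b 2 1) - b 0 1 * (b 1 0 * b 2 2 - b 1 2 * b 2 0) +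
        b 0 2 * (b 1 0 * b 2 1 - b 1 1 * b 2 0)|

theorem dt_sq (c : Basis (Fin 3) ℝ E3) :
    dt c ^ 2 = Dp (‖c 0‖ ^ 2 - 4) (‖c 1‖ ^ 2 - 4) (‖c 2‖ ^ 2 - 4) (‖c 0 + c 1 + c 2‖ ^ 2 - 4)
      (‖c 0 + c 1‖ ^ 2 - 4) (‖c 1 + c 2‖ ^ 2 - 4) := by
  rw [dt, sq_abs]
  simp only [EuclideanSpace.real_norm_sq_eq, Fin.sum_univ_three, PiLp.add_apply, Dp]
  ring

theorem dt_pos (c : Basis (Fin 3) ℝ E3) : 0 < dt c := by
  have h := ZSpan.measure_fundamentalDomain_ne_zero (μ := volume) c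
  rw [fund_vol] at h
  exact ENNReal.ofReal_pos.1 (pos_iff_ne_zero.2 h)

/-- The covered volume inside the fundamental domain. -/
noncomputable def xv (c : Basis (Fin 3) ℝ E3) (r : ℝ) : ℝ :=
  (volume (balls c r ∩ ZSpan.fundamentalDomain c)).toReal

theorem xv_eq (c : Basis (Fin 3) ℝ E3) (r : ℝ) :
    volume (balls c r ∩ ZSpan.fundamentalDomain c) = ENNReal.ofReal (xv c r) := by
  rw [xv, ENNReal.ofReal_toReal]
  exact ne_top_of_le_ne_top (ZSpan.fundamentalDomain_isBounded c).measure_lt_top.ne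
    (measure_mono inter_subset_right)

theorem xv_nonneg (c : Basis (Fin 3) ℝ E3) (r : ℝ) : 0 ≤ xv c r := ENNReal.toReal_nonneg

theorem rho_eq (c : Basis (Fin 3) ℝ E3) (r : ℝ) :
    volume (balls c r ∩ ZSpan.fundamentalDomain c) / volume (ZSpan.fundamentalDomain c) =
      ENNReal.ofReal (xv c r / dt c) := by
  rw [xv_eq, fund_vol, ENNReal.ofReal_div_of_pos (dt_pos c)]
  rfl

theorem caps_real (c : Basis (Fin 3) ℝ E3) (r : ℝ) (hr : 0 ≤ r) :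
    volume (balls c r ∩ ZSpan.fundamentalDomain c) +
      ∑ k, ENNReal.ofReal (capV r (‖phi c (nw k)‖ / 2)) =
      ENNReal.ofReal (xv c r + ∑ k, capV r (‖phi c (nw k)‖ / 2)) := by
  have h : ∀ k, 0 ≤ capV r (‖phi c (nw k)‖ / 2) := fun k => capV_nonneg hr (by positivity)
  rw [xv_eq, ENNReal.ofReal_add (xv_nonneg c r) (Finset.sum_nonneg fun k _ => h k),
    ENNReal.ofReal_sum_of_nonneg fun k _ => h k]

theorem ball_real (r : ℝ) (hr : 0 ≤ r) :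
    volume (Metric.closedBall (0 : E3) r) = ENNReal.ofReal (r ^ 3 * (π * 4 / 3)) := by
  rw [EuclideanSpace.volume_closedBall_fin_three, ← ENNReal.ofReal_pow hr,
    ← ENNReal.ofReal_mul (by positivity)]

theorem xv_upper (c : Basis (Fin 3) ℝ E3) {l : ℝ} (h0 : 0 < l) (h1 : (1 + l) ^ 2 ≤ 4 / 3)
    (hp : ∀ v ∈ span ℤ (range c), v ≠ 0 → 2 ≤ ‖v‖) :
    xv c (1 + l) ≤ Wv l * (1 + gain l ‖c 0‖ + gain l ‖c 1‖ + gain l ‖c 2‖ +
      gain l ‖c 0 + c 1 + c 2‖ + gain l ‖c 0 + c 1‖ + gain l ‖c 1 + c 2‖) := by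
  have hr : 0 ≤ 1 + l := by linarith
  have h := upper_caps c (1 + l) hr h1 hp (fun k => phi c (nw k)) ((phi_inj c).comp nw_inj)
    (fun k => phi_mem c _) (fun k => phi_ne c (nw_ne k))
  rw [caps_real c _ hr, ball_real _ hr, ENNReal.ofReal_le_ofReal_iff (by positivity),
    sum_nw c fun n => capV (1 + l) (n / 2)] at h
  have hW := Wv_pos h0 (l_bound h0 h1)
  have e : ∀ n, Wv l * gain l n = 2 * (capV (1 + l) 1 - capV (1 + l) (n / 2)) := fun n => by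
    rw [gain]
    field_simp
  simp only [mul_add, e, mul_one]
  have := Wv_eq h0
  linarith

theorem red_of_obt {L : Submodule ℤ E3} {a b c d : E3} (h : Obt L a b c d)
    (o1 : inner ℝ a b + inner ℝ c d ≤ inner ℝ a c + inner ℝ b d)
    (o2 : inner ℝ b c + inner ℝ a d ≤ inner ℝ a c + inner ℝ b d) :
    Red (‖a‖ ^ 2 - 4) (‖b‖ ^ 2 - 4) (‖c‖ ^ 2 - 4) (‖a + b + c‖ ^ 2 - 4) (‖a + b‖ ^ 2 - 4)
      (‖b + c‖ ^ 2 - 4) := by
  have hd : d = -(a + b + c) := by rw [← sub_eq_zero, ← h.sb.sum]; abel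
  obtain ⟨-, p1, p2, p3, p4, p5, p6⟩ := h
  subst hd
  simp only [PiLp.inner_apply, RCLike.inner_apply, conj_trivial, Fin.sum_univ_three,
    PiLp.add_apply, PiLp.neg_apply] at p1 p2 p3 p4 p5 p6 o1 o2
  constructor <;>
    simp only [EuclideanSpace.real_norm_sq_eq, Fin.sum_univ_three, PiLp.add_apply] <;>
    nlinarith

/-- The six edge lengths of the tetrahedron spanned by the successive sums all equal two. -/
structure Reg (c : Basis (Fin 3) ℝ E3) : Prop where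
  n0 : ‖c 0‖ = 2
  n1 : ‖c 1‖ = 2
  n2 : ‖c 2‖ = 2
  n3 : ‖c 0 + c 1 + c 2‖ = 2
  n4 : ‖c 0 + c 1‖ = 2
  n5 : ‖c 1 + c 2‖ = 2

theorem upper_main (b : Basis (Fin 3) ℝ E3) {l : ℝ} (h0 : 0 < l) (h1 : (1 + l) ^ 2 ≤ 4 / 3)
    (hp : ∀ v ∈ span ℤ (range b), v ≠ 0 → 2 ≤ ‖v‖) :
    ∃ c : Basis (Fin 3) ℝ E3, span ℤ (range c) = span ℤ (range b) ∧
      xv c (1 + l) / dt c ≤ Wv l / √32 ∧ (Wv l / √32 ≤ xv c (1 + l) / dt c → Reg c) := by
  obtain ⟨a0, a1, a2, a3, h, o1, o2⟩ := exists_obt' b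
  have hs := span_of_sb h.sb
  obtain ⟨c, hc⟩ := basis_of_span b _ hs
  have e0 : c 0 = a0 := by rw [hc]; rfl
  have e1 : c 1 = a1 := by rw [hc]; rfl
  have e2 : c 2 = a2 := by rw [hc]; rfl
  rw [← hc] at hs
  have hR := red_of_obt h o1 o2
  rw [← e0, ← e1, ← e2] at hR
  rw [← hs] at hp
  have hn : ∀ n : Fin 3 → ℤ, n ≠ 0 → 2 ≤ ‖phi c n‖ := fun n hn =>
    hp _ (phi_mem c n) (phi_ne c hn)
  have g0 : 2 ≤ ‖c 0‖ := by simpa [phi] using hn ![1, 0, 0] (by decide)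
  have g1 : 2 ≤ ‖c 1‖ := by simpa [phi] using hn ![0, 1, 0] (by decide)
  have g2 : 2 ≤ ‖c 2‖ := by simpa [phi] using hn ![0, 0, 1] (by decide)
  have g3 : 2 ≤ ‖c 0 + c 1 + c 2‖ := by simpa [phi] using hn ![1, 1, 1] (by decide)
  have g4 : 2 ≤ ‖c 0 + c 1‖ := by simpa [phi] using hn ![1, 1, 0] (by decide)
  have g5 : 2 ≤ ‖c 1 + c 2‖ := by simpa [phi] using hn ![0, 1, 1] (by decide)
  obtain ⟨k1, k2⟩ := real_main h0 (l_bound h0 h1) g0 g1 g2 g3 g4 g5 hR (dt_pos c).le (dt_sq c)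
  have hx := xv_upper c h0 h1 hp
  have hW := Wv_pos h0 (l_bound h0 h1)
  have h32 : (0 : ℝ) < √32 := Real.sqrt_pos.2 (by norm_num)
  have hD := dt_pos c
  set G := 1 + gain l ‖c 0‖ + gain l ‖c 1‖ + gain l ‖c 2‖ +
      gain l ‖c 0 + c 1 + c 2‖ + gain l ‖c 0 + c 1‖ + gain l ‖c 1 + c 2‖ with hG
  have k3 : xv c (1 + l) * √32 ≤ Wv l * (√32 * G) := by
    have := mul_le_mul_of_nonneg_right hx h32.le
    linarith
  refine ⟨c, hs, ?_, fun h2 => ?_⟩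
  · rw [div_le_div_iff₀ hD h32]
    exact k3.trans (mul_le_mul_of_nonneg_left k1 hW.le)
  · rw [div_le_div_iff₀ h32 hD] at h2
    obtain ⟨q0, q1, q2, q3, q4, q5⟩ := k2 (le_of_mul_le_mul_left (h2.trans k3) hW)
    exact ⟨q0, q1, q2, q3, q4, q5⟩

theorem reg_norm {c : Basis (Fin 3) ℝ E3} (h : Reg c) (n : Fin 3 → ℤ) :
    ‖phi c n‖ ^ 2 = 2 * ((n 0 ^ 2 + (n 0 - n 1) ^ 2 + (n 1 - n 2) ^ 2 + n 2 ^ 2 : ℤ) : ℝ) := by
  have q0 : ‖c 0‖ ^ 2 = 4 := by rw [h.n0]; norm_num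
  have q1 : ‖c 1‖ ^ 2 = 4 := by rw [h.n1]; norm_num
  have q2 : ‖c 2‖ ^ 2 = 4 := by rw [h.n2]; norm_num
  have q3 : ‖c 0 + c 1 + c 2‖ ^ 2 = 4 := by rw [h.n3]; norm_num
  have q4 : ‖c 0 + c 1‖ ^ 2 = 4 := by rw [h.n4]; norm_num
  have q5 : ‖c 1 + c 2‖ ^ 2 = 4 := by rw [h.n5]; norm_num
  simp only [phi, ← Int.cast_smul_eq_zsmul ℝ]
  simp only [EuclideanSpace.real_norm_sq_eq, Fin.sum_univ_three, PiLp.add_apply,
    PiLp.smul_apply, smul_eq_mul] at *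
  push_cast
  linear_combination ((n 0 : ℝ) ^ 2 - n 0 * n 1) * q0 +
    ((n 1 : ℝ) ^ 2 - n 0 * n 1 - n 1 * n 2 + n 0 * n 2) * q1 + ((n 2 : ℝ) ^ 2 - n 1 * n 2) * q2 +
    ((n 0 : ℝ) * n 2) * q3 + ((n 0 : ℝ) * n 1 - n 0 * n 2) * q4 +
    ((n 1 : ℝ) * n 2 - n 0 * n 2) * q5

theorem int_short (n : Fin 3 → ℤ) (hn : n ≠ 0) :
    (∃ k, n = nw k) ∨ 4 ≤ n 0 ^ 2 + (n 0 - n 1) ^ 2 + (n 1 - n 2) ^ 2 + n 2 ^ 2 := by
  by_cases h : 4 ≤ n 0 ^ 2 + (n 0 - n 1) ^ 2 + (n 1 - n 2) ^ 2 + n 2 ^ 2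
  · exact Or.inr h
  left
  have e : n = ![n 0, n 1, n 2] := by
    funext i
    fin_cases i <;> rfl
  generalize n 0 = x, n 1 = y, n 2 = z at h e
  subst e
  have a1 : x ≤ 1 := by nlinarith [sq_nonneg (x - y), sq_nonneg (y - z), sq_nonneg z]
  have a2 : -1 ≤ x := by nlinarith [sq_nonneg (x - y), sq_nonneg (y - z), sq_nonneg z]
  have a3 : z ≤ 1 := by nlinarith [sq_nonneg (x - y), sq_nonneg (y - z), sq_nonneg x]
  have a4 : -1 ≤ z := by nlinarith [sq_nonneg (x - y), sq_nonneg (y - z), sq_nonneg x]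
  have a5 : x - y ≤ 1 := by nlinarith [sq_nonneg z, sq_nonneg (y - z), sq_nonneg x]
  have a6 : -1 ≤ x - y := by nlinarith [sq_nonneg z, sq_nonneg (y - z), sq_nonneg x]
  have a7 : y ≤ 2 := by omega
  have a8 : -2 ≤ y := by omega
  clear a5 a6
  revert hn h
  interval_cases x <;> interval_cases y <;> interval_cases z <;> decide

theorem nw_norm : ∀ k, nw k 0 ^ 2 + (nw k 0 - nw k 1) ^ 2 + (nw k 1 - nw k 2) ^ 2 +
    nw k 2 ^ 2 = 2 := by decide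

theorem reg_far {c : Basis (Fin 3) ℝ E3} (h : Reg c) {v : E3} (hv : v ∈ span ℤ (range c))
    (h0 : v ≠ 0) : ((∃ k, v = phi c (nw k)) ∧ ‖v‖ ^ 2 = 4) ∨ 8 ≤ ‖v‖ ^ 2 := by
  obtain ⟨n, rfl⟩ := exists_phi c hv
  have hn : n ≠ 0 := fun e => h0 (by rw [e, phi_zero])
  rcases int_short n hn with ⟨k, rfl⟩ | h4
  · refine Or.inl ⟨⟨k, rfl⟩, ?_⟩
    rw [reg_norm h, nw_norm]
    norm_num
  · right
    rw [reg_norm h]
    have : ((4 : ℤ) : ℝ) ≤ ((n 0 ^ 2 + (n 0 - n 1) ^ 2 + (n 1 - n 2) ^ 2 + n 2 ^ 2 : ℤ) : ℝ) :=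
      Int.cast_le.2 h4
    push_cast at this ⊢
    linarith

theorem reg_pack {c : Basis (Fin 3) ℝ E3} (h : Reg c) :
    ∀ v ∈ span ℤ (range c), v ≠ 0 → 2 ≤ ‖v‖ := by
  intro v hv h0
  have := norm_nonneg v
  rcases reg_far h hv h0 with ⟨-, h1⟩ | h1 <;> nlinarith

theorem lower_main {c : Basis (Fin 3) ℝ E3} (h : Reg c) {l : ℝ} (h0 : 0 < l)
    (h1 : (1 + l) ^ 2 ≤ 4 / 3) : Wv l / √32 ≤ xv c (1 + l) / dt c := by
  have hr : 0 ≤ 1 + l := by linarith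
  have hl := lower_caps c (1 + l) hr (fun k => phi c (nw k)) (fun k => phi_ne c (nw_ne k))
    (fun v hv hv0 => by
      rcases reg_far h hv hv0 with ⟨h2, -⟩ | h2
      · exact Or.inl h2
      · right
        have := norm_nonneg v
        nlinarith)
  have hnn : ∀ k, 0 ≤ capV (1 + l) (‖phi c (nw k)‖ / 2) := fun k =>
    capV_nonneg hr (by positivity)
  rw [caps_real c _ hr, ball_real _ hr, ENNReal.ofReal_le_ofReal_iff
    (add_nonneg (xv_nonneg _ _) (Finset.sum_nonneg fun k _ => hnn k)),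
    sum_nw c fun n => capV (1 + l) (n / 2), h.n0, h.n1, h.n2, h.n3, h.n4, h.n5] at hl
  have hd : dt c = √32 := by
    have := dt_sq c
    rw [h.n0, h.n1, h.n2, h.n3, h.n4, h.n5] at this
    rw [eq_comm, Real.sqrt_eq_iff_mul_self_eq (by norm_num) (dt_pos c).le, ← sq, this, Dp]
    norm_num
  rw [hd]
  refine div_le_div_of_nonneg_right ?_ (Real.sqrt_nonneg _)
  have := Wv_eq h0
  norm_num at hl
  linarith

end Pool.Agent.Lib.MP_f3b2fd_co
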