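import Mathlib

set_option autoImplicit false

namespace Pool.Agent.Lib.MP_f3b2fd_co

/-- Sixteen times the squared area of a triangle with squared sides `a b c`. -/
def Qf (a b c : ℝ) : ℝ := 2 * (a * b + b * c + c * a) - a ^ 2 - b ^ 2 - c ^ 2

theorem Qf_rot (a b c : ℝ) : Qf b c a = Qf a b c := by unfold Qf; ring

theorem Qf_swap (a b c : ℝ) : Qf b a c = Qf a b c := by unfold Qf; ring

theorem heron_nonneg {t1 t2 t3 : ℝ} (h3 : 0 ≤ t3) (h31 : t3 ≤ t1) (h32 : t3 ≤ t2)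
    (h1 : t1 ≤ t2 + t3) (h2 : t2 ≤ t1 + t3) : 0 ≤ Qf (t1 ^ 2) (t2 ^ 2) (t3 ^ 2) := by
  have e : Qf (t1 ^ 2) (t2 ^ 2) (t3 ^ 2) =
      ((t1 + t2 + t3) * (t2 + t3 - t1)) * ((t1 + t3 - t2) * (t1 + t2 - t3)) := by
    unfold Qf; ring
  rw [e]
  exact mul_nonneg (mul_nonneg (by linarith) (by linarith)) (mul_nonneg (by linarith) (by linarith))

theorem Qf_max {y1 y2 y3 : ℝ} (h2 : 0 ≤ y2) (h3 : 0 ≤ y3) (h21 : y2 ≤ y1) (h31 : y3 ≤ y1) :
    -y1 ^ 2 ≤ Qf y1 y2 y3 := by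
  unfold Qf
  nlinarith [mul_nonneg h2 h3, mul_nonneg h2 (sub_nonneg.2 h21), mul_nonneg h3 (sub_nonneg.2 h31)]

theorem lin_aux {P x c d : ℝ} (P4 : 4 ≤ P) (P7 : P ≤ 169 / 25) (e : ℝ) (hx : c - d * P ≤ x)
    (hd : 0 ≤ d) (h4 : e ≤ 4 * (c - d * 4)) (h7 : e ≤ 169 / 25 * (c - d * (169 / 25))) :
    e ≤ P * x := by
  have a1 := mul_le_mul_of_nonneg_left hx (show 0 ≤ P by linarith)
  have a2 := mul_nonneg hd (mul_nonneg (sub_nonneg.2 P4) (sub_nonneg.2 P7))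
  have a3 := mul_nonneg (sub_nonneg.2 h4) (sub_nonneg.2 P7)
  have a4 := mul_nonneg (sub_nonneg.2 h7) (sub_nonneg.2 P4)
  nlinarith

theorem lemD {P s1 s2 s3 y1 y2 y3 : ℝ} (P4 : 4 ≤ P) (P7 : P ≤ 169 / 25) (k1 : s1 ≤ P / 4)
    (k2 : s2 ≤ P / 4) (k3 : s3 ≤ P / 9) (k31 : s3 ≤ s1) (k32 : s3 ≤ s2) (k30 : 0 ≤ s3)
    (g1 : 0 ≤ y1) (g2 : 0 ≤ y2) (g3 : 0 ≤ y3) (c1 : 4 - s1 + y1 ≤ 29 / 5)
    (c2 : 4 - s2 + y2 ≤ 29 / 5) (c3 : 4 - s3 + y3 ≤ 29 / 5) :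
    9 * y1 + 9 * y2 + 9 / 2 * y3 ≤ P * (2 * (4 - s2 - s3 + s1) * y1 +
      2 * (4 - s1 - s3 + s2) * y2 + 2 * (4 - s1 - s2 + s3) * y3 + Qf y1 y2 y3) ∨
    (26 / 5 ≤ P ∧ -(126 / 125) * P ≤ P * (2 * (4 - s2 - s3 + s1) * y1 +
      2 * (4 - s1 - s3 + s2) * y2 + 2 * (4 - s1 - s2 + s3) * y3 + Qf y1 y2 y3)) := by
  have P0 : 0 ≤ P := by linarith
  have q1 := mul_le_mul_of_nonneg_right (lin_aux (x := 2 * (4 - s2 - s3 + s1)) (c := 8)
    (d := 1 / 2) P4 P7 9 (by linarith) (by norm_num) (by norm_num) (by norm_num)) g1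
  have q2 := mul_le_mul_of_nonneg_right (lin_aux (x := 2 * (4 - s1 - s3 + s2)) (c := 8)
    (d := 1 / 2) P4 P7 9 (by linarith) (by norm_num) (by norm_num) (by norm_num)) g2
  have q3 := mul_le_mul_of_nonneg_right (lin_aux (x := 2 * (4 - s1 - s2 + s3)) (c := 8)
    (d := 1) P4 P7 (9 / 2) (by linarith) (by norm_num) (by norm_num) (by norm_num)) g3
  by_cases m : y1 ≤ y3 ∧ y2 ≤ y3
  · have a1 := Qf_max g1 g2 m.1 m.2
    rw [← Qf_rot] at a1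
    have a5 := mul_le_mul_of_nonneg_left a1 P0
    rcases le_total P (26 / 5) with hc | hc
    · left
      have a2 : 31 / 5 - P ≤ 2 * (4 - s1 - s2 + s3) - y3 := by linarith
      have a3 : 9 / 2 ≤ P * (2 * (4 - s1 - s2 + s3) - y3) := by
        have b1 := mul_le_mul_of_nonneg_left a2 P0
        have b2 := mul_nonneg (sub_nonneg.2 P4) (sub_nonneg.2 hc)
        linarith
      have a4 := mul_le_mul_of_nonneg_right a3 g3
      linarith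
    · refine Or.inr ⟨hc, ?_⟩
      have a2 : -(126 / 125) ≤ (2 * (4 - s1 - s2 + s3) - y3) * y3 := by
        have b1 : 31 / 25 + 2 * s3 - y3 ≤ 2 * (4 - s1 - s2 + s3) - y3 := by linarith
        have b2 := mul_le_mul_of_nonneg_right b1 g3
        have b3 : y3 ≤ 9 / 5 + s3 := by linarith
        have b4 := mul_nonneg g3 (sub_nonneg.2 b3)
        have b5 := mul_nonneg g3 k30
        rcases le_total y3 (9 / 5) with h | h
        · linarith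
        · have b6 := mul_nonneg (sub_nonneg.2 h) (sub_nonneg.2 b3)
          have b7 := mul_nonneg (sub_nonneg.2 h) k30
          have b8 := mul_nonneg (sub_nonneg.2 h) (sub_nonneg.2 h)
          linarith
      have a3 := mul_le_mul_of_nonneg_left a2 P0
      linarith
  · left
    rcases le_total y1 y2 with h | h
    · have m3 : y3 ≤ y2 := by
        by_contra h'
        exact m ⟨by linarith, by linarith⟩
      have a1 := Qf_max g1 g3 h m3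
      rw [Qf_swap] at a1
      have a3 := lin_aux (x := 2 * (4 - s1 - s3 + s2) - y2) (c := 31 / 5)
        (d := 11 / 18) P4 P7 9 (by linarith) (by norm_num) (by norm_num) (by norm_num)
      have a4 := mul_le_mul_of_nonneg_right a3 g2
      have a5 := mul_le_mul_of_nonneg_left a1 P0
      linarith
    · have m3 : y3 ≤ y1 := by
        by_contra h'
        exact m ⟨by linarith, by linarith⟩
      have a1 := Qf_max g2 g3 h m3
      have a3 := lin_aux (x := 2 * (4 - s2 - s3 + s1) - y1) (c := 31 / 5)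
        (d := 11 / 18) P4 P7 9 (by linarith) (by norm_num) (by norm_num) (by norm_num)
      have a4 := mul_le_mul_of_nonneg_right a3 g1
      have a5 := mul_le_mul_of_nonneg_left a1 P0
      linarith

theorem lemL {p t1 t2 t3 y1 y2 y3 : ℝ} (hp : 2 ≤ p) (hp' : p ≤ 13 / 5) (h3 : 0 ≤ t3)
    (h31 : t3 ≤ t1) (h32 : t3 ≤ t2) (h1p : t1 ≤ p / 2) (h2p : t2 ≤ p / 2)
    (hs : t1 + t2 + t3 ≤ p) (h1 : t1 ≤ t2 + t3) (h2 : t2 ≤ t1 + t3)
    (g1 : 0 ≤ y1) (g2 : 0 ≤ y2) (g3 : 0 ≤ y3) (c1 : 4 - t1 ^ 2 + y1 ≤ 29 / 5)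
    (c2 : 4 - t2 ^ 2 + y2 ≤ 29 / 5) (c3 : 4 - t3 ^ 2 + y3 ≤ 29 / 5) :
    25 / 3 ≤ p ^ 2 * Qf (4 - t1 ^ 2 + y1) (4 - t2 ^ 2 + y2) (4 - t3 ^ 2 + y3) / 16 ∨
      8 + 7 / 25 * ((p ^ 2 - 4) + 2 * y1 + 2 * y2 + y3 + 2 * (p * (p - t1 - t2))) ≤
        p ^ 2 * Qf (4 - t1 ^ 2 + y1) (4 - t2 ^ 2 + y2) (4 - t3 ^ 2 + y3) / 16 := by
  have P4 : 4 ≤ p ^ 2 := by nlinarith
  have P7 : p ^ 2 ≤ 169 / 25 := by nlinarith
  have u0 : 0 ≤ p * (p - t1 - t2) := mul_nonneg (by linarith) (by linarith)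
  have H := heron_nonneg h3 h31 h32 h1 h2
  have k0 : t1 ^ 2 + t2 ^ 2 + t3 ^ 2 ≤ p ^ 2 / 2 - p * (p - t1 - t2) / 2 := by
    have a1 := mul_le_mul_of_nonneg_right h31 (sub_nonneg.2 h1p)
    have a2 := mul_le_mul_of_nonneg_right h32 (sub_nonneg.2 h2p)
    have a3 := mul_le_mul_of_nonneg_left (show t3 ≤ p - t1 - t2 by linarith) h3
    linarith
  have k1 : t1 ^ 2 ≤ p ^ 2 / 4 := by
    have := pow_le_pow_left₀ (h3.trans h31) h1p 2
    linarith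
  have k2 : t2 ^ 2 ≤ p ^ 2 / 4 := by
    have := pow_le_pow_left₀ (h3.trans h32) h2p 2
    linarith
  have k3 : t3 ^ 2 ≤ p ^ 2 / 9 := by
    have := pow_le_pow_left₀ h3 (show t3 ≤ p / 3 by linarith) 2
    linarith
  have k31 : t3 ^ 2 ≤ t1 ^ 2 := pow_le_pow_left₀ h3 h31 2
  have k32 : t3 ^ 2 ≤ t2 ^ 2 := pow_le_pow_left₀ h3 h32 2
  have hD := lemD P4 P7 k1 k2 k3 k31 k32 (sq_nonneg _) g1 g2 g3 c1 c2 c3
  generalize p * (p - t1 - t2) = u at *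
  generalize p ^ 2 = P at *
  generalize t1 ^ 2 = s1 at *
  generalize t2 ^ 2 = s2 at *
  generalize t3 ^ 2 = s3 at *
  have e : Qf (4 - s1 + y1) (4 - s2 + y2) (4 - s3 + y3) =
      48 - 8 * (s1 + s2 + s3) + Qf s1 s2 s3 + (2 * (4 - s2 - s3 + s1) * y1 +
        2 * (4 - s1 - s3 + s2) * y2 + 2 * (4 - s1 - s2 + s3) * y3 + Qf y1 y2 y3) := by
    unfold Qf; ring
  rw [e]
  generalize 2 * (4 - s2 - s3 + s1) * y1 + 2 * (4 - s1 - s3 + s2) * y2 +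
    2 * (4 - s1 - s2 + s3) * y3 + Qf y1 y2 y3 = D at *
  have a1 : P * (48 - 4 * P + 4 * u + D) ≤ P * (48 - 8 * (s1 + s2 + s3) + Qf s1 s2 s3 + D) :=
    mul_le_mul_of_nonneg_left (by linarith) (by linarith)
  have a2 := mul_nonneg (sub_nonneg.2 P4) u0
  have b0 := mul_nonneg (sub_nonneg.2 P4) (sub_nonneg.2 P7)
  rcases hD with h | ⟨hc, h⟩
  · right
    linarith
  · left
    have b1 := mul_nonneg (sub_nonneg.2 hc) (sub_nonneg.2 P7)
    linarith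

theorem conc {u v c : ℝ} (K : ℝ) (h1 : u ≤ c) (h2 : c ≤ v) :
    u * (K - u) ≤ c * (K - c) ∨ v * (K - v) ≤ c * (K - c) := by
  rcases le_total (c + u) K with h | h
  · left
    have := mul_nonneg (sub_nonneg.2 h1) (sub_nonneg.2 h)
    linarith
  · right
    have := mul_nonneg (sub_nonneg.2 h2) (show 0 ≤ c + v - K by linarith)
    linarith

theorem Qf_mono {a b c a' b' : ℝ} (ha : a' ≤ a) (hb : b' ≤ b) (h0 : 0 ≤ a') (h1 : 0 ≤ b')
    (hac : a ≤ c) (hbc : b ≤ c) : Qf a' b' c ≤ Qf a b c := by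
  have e1 := mul_nonneg (sub_nonneg.2 ha) (show 0 ≤ 2 * b + 2 * c - a - a' by linarith)
  have e2 := mul_nonneg (sub_nonneg.2 hb) (show 0 ≤ 2 * a' + 2 * c - b - b' by linarith)
  unfold Qf
  linarith

/-- The data of a triangle of strings: period squared `P` and squared sides `a b c`. -/
structure Tri (P a b c : ℝ) : Prop where
  p4 : 4 ≤ P
  p7 : P ≤ 169 / 25
  la : 4 - P / 4 ≤ a
  lb : 4 - P / 4 ≤ b
  lc : 4 - P / 4 ≤ c
  ua : a ≤ 1601 / 100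
  ub : b ≤ 1601 / 100
  uc : c ≤ 1601 / 100
  rad : a * b * c ≤ 40001 / 10000 * Qf a b c + 1 / 1000

theorem Tri.rot {P a b c : ℝ} (h : Tri P a b c) : Tri P b c a :=
  ⟨h.p4, h.p7, h.lb, h.lc, h.la, h.ub, h.uc, h.ua, by
    have := h.rad
    rw [Qf_rot]
    linarith⟩

theorem Tri.swap {P a b c : ℝ} (h : Tri P a b c) : Tri P b a c :=
  ⟨h.p4, h.p7, h.lb, h.la, h.lc, h.ub, h.ua, h.uc, by
    have := h.rad
    rw [Qf_swap]
    linarith⟩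

theorem big2s {P a b c : ℝ} (h : Tri P a b c) (hb : 29 / 5 ≤ b) (hac : a ≤ c) (hbc : b ≤ c) :
    1088 / 5 ≤ P * Qf a b c := by
  obtain ⟨p4, p7, la, lb, lc, ua, ub, uc, rad⟩ := h
  have P0 : 0 ≤ P := by linarith
  have x1 := mul_nonneg (sub_nonneg.2 p4) (sub_nonneg.2 p7)
  have x2 := mul_nonneg x1 (sub_nonneg.2 p4)
  have x3 := mul_nonneg x1 (sub_nonneg.2 p7)
  rcases le_total c (63 / 5) with h1 | h1
  · have q := mul_le_mul_of_nonneg_left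
      (Qf_mono la hb (by linarith) (by norm_num) hac hbc) P0
    unfold Qf at q ⊢
    rcases conc (2 * (4 - P / 4) + 58 / 5) (hb.trans hbc) h1 with h2 | h2
    · have := mul_le_mul_of_nonneg_left h2 P0
      linarith
    · have := mul_le_mul_of_nonneg_left h2 P0
      linarith
  · have q1 : (4 - P / 4) * (29 / 5) ≤ a * b := mul_le_mul la hb (by norm_num) (by linarith)
    have q2 : (4 - P / 4) * (29 / 5) * (63 / 5) ≤ a * b * c :=
      mul_le_mul q1 h1 (by norm_num) (mul_nonneg (by linarith) (by linarith))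
    have q3 := mul_le_mul_of_nonneg_left (q2.trans rad) P0
    linarith

theorem big2 {P a b c : ℝ} (h : Tri P a b c) (hb : 29 / 5 ≤ b) (hc : 29 / 5 ≤ c) :
    1088 / 5 ≤ P * Qf a b c := by
  rcases le_total b c with h1 | h1
  · rcases le_total a c with h2 | h2
    · exact big2s h hb h2 h1
    · rw [← Qf_rot]
      exact big2s h.rot hc (h1.trans h2) h2
  · rcases le_total a b with h2 | h2
    · rw [← Qf_rot, ← Qf_swap, ← Qf_rot, ← Qf_rot]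
      exact big2s h.rot.swap.rot.rot hc h2 h1
    · rw [← Qf_rot]
      exact big2s h.rot hc h2 (h1.trans h2)

theorem big3s {P a b c : ℝ} (h : Tri P a b c) (ha : 38 / 5 - 5 / 8 * (P - 4) ≤ a)
    (hb : 38 / 5 - 5 / 8 * (P - 4) ≤ b) (hac : a ≤ c) (hbc : b ≤ c) :
    448 ≤ P * Qf a b c := by
  obtain ⟨p4, p7, la, lb, lc, ua, ub, uc, rad⟩ := h
  have P0 : 0 ≤ P := by linarith
  have x1 := mul_nonneg (sub_nonneg.2 p4) (sub_nonneg.2 p7)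
  have x2 := mul_nonneg x1 (sub_nonneg.2 p4)
  have x3 := mul_nonneg x1 (sub_nonneg.2 p7)
  have q := mul_le_mul_of_nonneg_left (Qf_mono ha hb (by linarith) (by linarith) hac hbc) P0
  unfold Qf at q ⊢
  rcases conc (4 * (38 / 5 - 5 / 8 * (P - 4))) (hb.trans hbc) uc with h2 | h2
  · have := mul_le_mul_of_nonneg_left h2 P0
    linarith
  · have := mul_le_mul_of_nonneg_left h2 P0
    linarith

theorem big3 {P a b c : ℝ} (h : Tri P a b c) (ha : 38 / 5 - 5 / 8 * (P - 4) ≤ a)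
    (hb : 38 / 5 - 5 / 8 * (P - 4) ≤ b) (hc : 38 / 5 - 5 / 8 * (P - 4) ≤ c) :
    448 ≤ P * Qf a b c := by
  rcases le_total b c with h1 | h1
  · rcases le_total a c with h2 | h2
    · exact big3s h ha hb h2 h1
    · rw [← Qf_rot]
      exact big3s h.rot hb hc (h1.trans h2) h2
  · rcases le_total a b with h2 | h2
    · rw [← Qf_rot, ← Qf_rot]
      exact big3s h.rot.rot hc ha h1 h2
    · rw [← Qf_rot]
      exact big3s h.rot hb hc h2 (h1.trans h2)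

theorem acute {P a b c : ℝ} (h : Tri P a b c) (ha : a ≤ 29 / 5) (hb : b ≤ 29 / 5)
    (hc : 29 / 5 ≤ c) (hn : c ≤ a + b + 1 / 1000) :
    P * (4 * (4 - P / 4) * (c - (4 - P / 4)) - 121 / 10000) ≤ P * Qf a b c := by
  obtain ⟨p4, p7, la, lb, lc, ua, ub, uc, rad⟩ := h
  refine mul_le_mul_of_nonneg_left ?_ (by linarith)
  have q1 := mul_nonneg (sub_nonneg.2 la) (sub_nonneg.2 lb)
  have q2 := mul_nonneg (sub_nonneg.2 hn)
    (show 0 ≤ 4 * (4 - P / 4) - (a + b - c) + 1 / 1000 by linarith)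
  unfold Qf
  linarith

theorem donor1 {P a b c : ℝ} (h : Tri P a b c) (hc : 38 / 5 - 5 / 8 * (P - 4) ≤ c)
    (hn : c ≤ a + b + 1 / 1000) : 1088 / 5 ≤ P * Qf a b c := by
  have p4 := h.p4
  have p7 := h.p7
  have hc' : 29 / 5 ≤ c := by linarith
  rcases le_total b (29 / 5) with hb | hb
  · rcases le_total a (29 / 5) with ha | ha
    · have q := acute h ha hb hc' hn
      have x1 := mul_nonneg (sub_nonneg.2 p4) (sub_nonneg.2 p7)
      have x2 := mul_nonneg x1 (sub_nonneg.2 p4)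
      have x3 := mul_nonneg x1 (sub_nonneg.2 p7)
      have x4 := mul_le_mul_of_nonneg_left hc
        (show 0 ≤ P * (4 - P / 4) from mul_nonneg (by linarith) (by linarith))
      linarith
    · rw [← Qf_swap]
      exact big2 h.swap ha hc'
  · exact big2 h hb hc'

theorem donor2s {P a b c : ℝ} (h : Tri P a b c) (hb : 38 / 5 - 5 / 8 * (P - 4) ≤ b)
    (hbc : b ≤ c) (hn : c ≤ a + b + 1 / 1000) : 323 ≤ P * Qf a b c := by
  rcases le_total a b with hab | hab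
  · obtain ⟨p4, p7, la, lb, lc, ua, ub, uc, rad⟩ := h
    have P0 : 0 ≤ P := by linarith
    have x1 := mul_nonneg (sub_nonneg.2 p4) (sub_nonneg.2 p7)
    have x2 := mul_nonneg x1 (sub_nonneg.2 p4)
    have x3 := mul_nonneg x1 (sub_nonneg.2 p7)
    have q1 := mul_nonneg (sub_nonneg.2 hbc) (show 0 ≤ 2 * a + b - c by linarith)
    have q2 := mul_nonneg (sub_nonneg.2 la) (show 0 ≤ 4 * b - a - (4 - P / 4) by linarith)
    have q3 := mul_le_mul_of_nonneg_left hb (show 0 ≤ 4 - P / 4 by linarith)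
    have q4 : (4 - P / 4) * (4 * (38 / 5 - 5 / 8 * (P - 4)) - (4 - P / 4)) ≤ Qf a b c := by
      unfold Qf
      linarith
    have q5 := mul_le_mul_of_nonneg_left q4 P0
    linarith
  · have := big3 h (hb.trans hab) hb (hb.trans hbc)
    linarith

theorem donor2 {P a b c : ℝ} (h : Tri P a b c) (hb : 38 / 5 - 5 / 8 * (P - 4) ≤ b)
    (hc : 38 / 5 - 5 / 8 * (P - 4) ≤ c) (hn : c ≤ a + b + 1 / 1000)
    (hn' : b ≤ c + a + 1 / 1000) : 323 ≤ P * Qf a b c := by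
  rcases le_total b c with h1 | h1
  · exact donor2s h hb h1 hn
  · rw [← Qf_rot, ← Qf_swap, ← Qf_rot, ← Qf_rot]
    exact donor2s h.rot.swap.rot.rot hc h1 (by linarith)

theorem needy {P a b c : ℝ} (h : Tri P a b c) (hc : 29 / 5 < c)
    (hQ : P * Qf a b c / 16 < 25 / 3) :
    a + b + 1 / 1000 < c ∧ 38 / 5 - 5 / 8 * (P - 4) ≤ c ∧ 1744 / 25 ≤ P * Qf a b c := by
  have p4 := h.p4
  have p7 := h.p7
  have P0 : 0 ≤ P := by linarith
  have x1 := mul_nonneg (sub_nonneg.2 p4) (sub_nonneg.2 p7)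
  have x2 := mul_nonneg x1 (sub_nonneg.2 p4)
  have x3 := mul_nonneg x1 (sub_nonneg.2 p7)
  have hb : b ≤ 29 / 5 := by
    by_contra hb
    have := big2 h (not_le.1 hb).le hc.le
    linarith
  have ha : a ≤ 29 / 5 := by
    by_contra ha
    have := big2 h.swap (not_le.1 ha).le hc.le
    rw [Qf_swap] at this
    linarith
  have q := mul_le_mul_of_nonneg_left
    (Qf_mono h.la h.lb (by linarith) (by linarith) (ha.trans hc.le) (hb.trans hc.le)) P0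
  have e : Qf (4 - P / 4) (4 - P / 4) c = c * (16 - P - c) := by
    unfold Qf
    ring
  rw [e] at q
  refine ⟨?_, ?_, ?_⟩
  · by_contra hn
    have q1 := acute h ha hb hc.le (not_lt.1 hn)
    have x4 := mul_le_mul_of_nonneg_left hc.le
      (show 0 ≤ P * (4 - P / 4) from mul_nonneg (by linarith) (by linarith))
    linarith
  · by_contra hn
    rcases conc (16 - P) hc.le (not_le.1 hn).le with h2 | h2
    · have := mul_le_mul_of_nonneg_left h2 P0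
      linarith
    · have := mul_le_mul_of_nonneg_left h2 P0
      linarith
  · rcases le_total c (39 / 4 - 2 / 3 * (P - 4)) with h1 | h1
    · rcases conc (16 - P) hc.le h1 with h2 | h2
      · have := mul_le_mul_of_nonneg_left h2 P0
        linarith
      · have := mul_le_mul_of_nonneg_left h2 P0
        linarith
    · have q1 : (4 - P / 4) * (4 - P / 4) ≤ a * b :=
        mul_le_mul h.la h.lb (by linarith) (by linarith [h.la])
      have q2 : (4 - P / 4) * (4 - P / 4) * (791 / 100) ≤ a * b * c :=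
        mul_le_mul q1 (by linarith) (by norm_num)
          (mul_nonneg (by linarith [h.la]) (by linarith [h.lb]))
      have q3 := mul_le_mul_of_nonneg_left (q2.trans h.rad) P0
      linarith

theorem le_of_sq {W x : ℝ} (hW : 0 ≤ W) (h : x ^ 2 ≤ W ^ 2) : x ≤ W :=
  (abs_le_of_sq_le_sq' h hW).2

theorem tri_abs {P a b c W B ra rb rc sa sb sc : ℝ} (h : Tri P a b c) (hW0 : 0 ≤ W)
    (hW : W ^ 2 = P * Qf a b c / 16) (hB : B ≤ 5773 / 2000)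
    (hL : a ≤ 29 / 5 → b ≤ 29 / 5 → c ≤ 29 / 5 → B ≤ W)
    (ra0 : 0 ≤ ra) (rb0 : 0 ≤ rb) (rc0 : 0 ≤ rc)
    (hra : W ^ 2 < 25 / 3 → 29 / 5 < a → ra = 4 / 5)
    (hrb : W ^ 2 < 25 / 3 → 29 / 5 < b → rb = 4 / 5)
    (hrc : W ^ 2 < 25 / 3 → 29 / 5 < c → rc = 4 / 5)
    (hsa : sa = 0 ∨ (sa = 4 / 5 ∧ 38 / 5 - 5 / 8 * (P - 4) ≤ a ∧ a ≤ b + c + 1 / 1000))
    (hsb : sb = 0 ∨ (sb = 4 / 5 ∧ 38 / 5 - 5 / 8 * (P - 4) ≤ b ∧ b ≤ c + a + 1 / 1000))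
    (hsc : sc = 0 ∨ (sc = 4 / 5 ∧ 38 / 5 - 5 / 8 * (P - 4) ≤ c ∧ c ≤ a + b + 1 / 1000)) :
    B ≤ W + (ra + rb + rc) - (sa + sb + sc) ∧ sa + sb + sc ≤ W := by
  have w1 : 1088 / 5 ≤ P * Qf a b c → 7373 / 2000 ≤ W := fun q =>
    le_of_sq hW0 (by rw [hW]; linarith)
  have w2 : 323 ≤ P * Qf a b c → 8973 / 2000 ≤ W := fun q =>
    le_of_sq hW0 (by rw [hW]; linarith)
  have w3 : 448 ≤ P * Qf a b c → 10573 / 2000 ≤ W := fun q =>
    le_of_sq hW0 (by rw [hW]; linarith)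
  have w4 : 1744 / 25 ≤ P * Qf a b c → 261 / 125 ≤ W := fun q =>
    le_of_sq hW0 (by rw [hW]; linarith)
  have e1 := Qf_rot a b c
  have e2 := Qf_rot b c a
  rcases hsa with sa0 | ⟨sa1, a1, a2⟩ <;> rcases hsb with sb0 | ⟨sb1, b1, b2⟩ <;>
    rcases hsc with sc0 | ⟨sc1, c1, c2⟩
  · refine ⟨?_, by linarith⟩
    rcases lt_or_ge (W ^ 2) (25 / 3) with hn | hn
    · have hn' : P * Qf a b c / 16 < 25 / 3 := hW ▸ hn
      by_cases ha : 29 / 5 < a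
      · have := w4 (e1 ▸ (needy h.rot ha (e1 ▸ hn')).2.2)
        linarith [hra hn ha]
      by_cases hb : 29 / 5 < b
      · have := w4 (e1 ▸ e2 ▸ (needy h.rot.rot hb (by rw [e2, e1]; exact hn')).2.2)
        linarith [hrb hn hb]
      by_cases hc : 29 / 5 < c
      · have := w4 (needy h hc hn').2.2
        linarith [hrc hn hc]
      linarith [hL (not_lt.1 ha) (not_lt.1 hb) (not_lt.1 hc)]
    · have : (5773 / 2000 : ℝ) ≤ W := le_of_sq hW0 (by linarith)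
      linarith
  · have := w1 (donor1 h c1 c2)
    constructor <;> linarith
  · have := w1 (e1 ▸ e2 ▸ donor1 h.rot.rot b1 b2)
    constructor <;> linarith
  · have := w2 (donor2 h b1 c1 c2 b2)
    constructor <;> linarith
  · have := w1 (e1 ▸ donor1 h.rot a1 a2)
    constructor <;> linarith
  · have := w2 (e1 ▸ donor2 h.rot c1 a1 a2 c2)
    constructor <;> linarith
  · have := w2 (e1 ▸ e2 ▸ donor2 h.rot.rot a1 b1 b2 a2)
    constructor <;> linarith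
  · have := w3 (big3 h a1 b1 c1)
    constructor <;> linarith

/-- The two caps contributed by a neighbouring string at squared distance `a` and offset `t`. -/
def ce (k : ℝ → ℝ) (p a t : ℝ) : ℝ := k (a + t ^ 2) + k (a + (p - t) ^ 2)

theorem sqrt8_le : √8 ≤ 282843 / 100000 := Real.sqrt_le_iff.2 ⟨by norm_num, by norm_num⟩

theorem F_le {k : ℝ → ℝ} {k1 : ℝ} (hk0 : ∀ s, 0 ≤ k s) (hk1 : k1 ≤ 171 / 50000)
    (p a1 a2 a3 t1 t2 t3 : ℝ) :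
    √8 * (1 + 6 * k1 - k (p ^ 2) - (ce k p a1 t1 + ce k p a2 t2 + ce k p a3 t3)) ≤
      5773 / 2000 := by
  have h : 1 + 6 * k1 - k (p ^ 2) - (ce k p a1 t1 + ce k p a2 t2 + ce k p a3 t3) ≤
      25513 / 25000 := by
    unfold ce
    linarith [hk0 (p ^ 2), hk0 (a1 + t1 ^ 2), hk0 (a1 + (p - t1) ^ 2), hk0 (a2 + t2 ^ 2),
      hk0 (a2 + (p - t2) ^ 2), hk0 (a3 + t3 ^ 2), hk0 (a3 + (p - t3) ^ 2)]
  have := mul_le_mul_of_nonneg_left h (Real.sqrt_nonneg 8)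
  linarith [sqrt8_le]

theorem F_ord {k : ℝ → ℝ} {k1 p a1 a2 a3 t1 t2 t3 W : ℝ} (hk0 : ∀ s, 0 ≤ k s)
    (hk1 : k1 ≤ 171 / 50000) (hk : ∀ s, 4 ≤ s → k1 - k s ≤ 17 / 1000 * (s - 4))
    (hp : 2 ≤ p) (hp' : p ≤ 13 / 5) (h3 : 0 ≤ t3)
    (h31 : t3 ≤ t1) (h32 : t3 ≤ t2) (h1p : t1 ≤ p / 2) (h2p : t2 ≤ p / 2)
    (hs : t1 + t2 + t3 ≤ p) (h1 : t1 ≤ t2 + t3) (h2 : t2 ≤ t1 + t3)
    (g1 : 4 ≤ a1 + t1 ^ 2) (g2 : 4 ≤ a2 + t2 ^ 2) (g3 : 4 ≤ a3 + t3 ^ 2) (c1 : a1 ≤ 29 / 5)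
    (c2 : a2 ≤ 29 / 5) (c3 : a3 ≤ 29 / 5) (hW0 : 0 ≤ W) (hW : W ^ 2 = p ^ 2 * Qf a1 a2 a3 / 16) :
    √8 * (1 + 6 * k1 - k (p ^ 2) - (ce k p a1 t1 + ce k p a2 t2 + ce k p a3 t3)) ≤ W := by
  have hL := lemL (y1 := a1 + t1 ^ 2 - 4) (y2 := a2 + t2 ^ 2 - 4) (y3 := a3 + t3 ^ 2 - 4)
    hp hp' h3 h31 h32 h1p h2p hs h1 h2 (by linarith) (by linarith) (by linarith) (by linarith)
    (by linarith) (by linarith)
  rw [show 4 - t1 ^ 2 + (a1 + t1 ^ 2 - 4) = a1 by ring,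
    show 4 - t2 ^ 2 + (a2 + t2 ^ 2 - 4) = a2 by ring,
    show 4 - t3 ^ 2 + (a3 + t3 ^ 2 - 4) = a3 by ring, ← hW] at hL
  rcases hL with hL | hL
  · exact (F_le hk0 hk1 p a1 a2 a3 t1 t2 t3).trans (le_of_sq hW0 (by linarith))
  · have P4 : 4 ≤ p ^ 2 := by nlinarith
    have z1 : 0 ≤ p * (p - 2 * t1) := mul_nonneg (by linarith) (by linarith)
    have z2 : 0 ≤ p * (p - 2 * t2) := mul_nonneg (by linarith) (by linarith)
    have q0 := hk _ P4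
    have q1 := hk _ g1
    have q2 := hk _ g2
    have q3 := hk _ g3
    have q4 := hk (a1 + (p - t1) ^ 2) (by linarith)
    have q5 := hk (a2 + (p - t2) ^ 2) (by linarith)
    have r0 := hk0 (p ^ 2)
    have r1 := hk0 (a1 + t1 ^ 2)
    have r2 := hk0 (a2 + t2 ^ 2)
    have r3 := hk0 (a3 + t3 ^ 2)
    have r4 := hk0 (a1 + (p - t1) ^ 2)
    have r5 := hk0 (a2 + (p - t2) ^ 2)
    have r6 := hk0 (a3 + (p - t3) ^ 2)
    set S := p ^ 2 - 4 + 2 * (a1 + t1 ^ 2 - 4) + 2 * (a2 + t2 ^ 2 - 4) + (a3 + t3 ^ 2 - 4) +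
      2 * (p * (p - t1 - t2)) with hS
    set G := 6 * k1 - k (p ^ 2) - (ce k p a1 t1 + ce k p a2 t2 + ce k p a3 t3) with hG
    have S0 : 0 ≤ S := by rw [hS]; linarith
    have G1 : G ≤ 17 / 1000 * S := by
      rw [hG, hS]
      unfold ce
      linarith
    have G2 : G ≤ 513 / 25000 := by
      rw [hG]
      unfold ce
      linarith
    have e : 1 + 6 * k1 - k (p ^ 2) - (ce k p a1 t1 + ce k p a2 t2 + ce k p a3 t3) = 1 + G := by
      rw [hG]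
      ring
    rw [e]
    clear_value S G
    have h8 : √8 ^ 2 = 8 := Real.sq_sqrt (by norm_num)
    rcases le_total G 0 with G0 | G0
    · have : √8 ≤ W := le_of_sq hW0 (by linarith)
      have := mul_nonneg (Real.sqrt_nonneg 8) (neg_nonneg.2 G0)
      linarith
    · refine le_of_sq hW0 ?_
      rw [mul_pow, h8]
      have := mul_nonneg G0 (sub_nonneg.2 G2)
      linarith

theorem F_sym {k : ℝ → ℝ} {k1 p a1 a2 a3 t1 t2 t3 W : ℝ} (hk0 : ∀ s, 0 ≤ k s)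
    (hk1 : k1 ≤ 171 / 50000) (hk : ∀ s, 4 ≤ s → k1 - k s ≤ 17 / 1000 * (s - 4))
    (hp : 2 ≤ p) (hp' : p ≤ 13 / 5) (z1 : 0 ≤ t1) (z2 : 0 ≤ t2) (z3 : 0 ≤ t3)
    (h1p : t1 ≤ p / 2) (h2p : t2 ≤ p / 2) (h3p : t3 ≤ p / 2)
    (hs : t1 + t2 + t3 ≤ p) (h1 : t1 ≤ t2 + t3) (h2 : t2 ≤ t1 + t3) (h3 : t3 ≤ t1 + t2)
    (g1 : 4 ≤ a1 + t1 ^ 2) (g2 : 4 ≤ a2 + t2 ^ 2) (g3 : 4 ≤ a3 + t3 ^ 2) (c1 : a1 ≤ 29 / 5)
    (c2 : a2 ≤ 29 / 5) (c3 : a3 ≤ 29 / 5) (hW0 : 0 ≤ W) (hW : W ^ 2 = p ^ 2 * Qf a1 a2 a3 / 16) :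
    √8 * (1 + 6 * k1 - k (p ^ 2) - (ce k p a1 t1 + ce k p a2 t2 + ce k p a3 t3)) ≤ W := by
  by_cases m3 : t3 ≤ t1 ∧ t3 ≤ t2
  · exact F_ord hk0 hk1 hk hp hp' z3 m3.1 m3.2 h1p h2p hs h1 h2 g1 g2 g3 c1 c2 c3 hW0 hW
  rcases le_total t1 t2 with m | m
  · have m' : t1 ≤ t3 := by
      by_contra h'
      exact m3 ⟨by linarith, by linarith⟩
    have := F_ord hk0 hk1 hk hp hp' z1 m m' h2p h3p (by linarith) (by linarith) (by linarith)
      g2 g3 g1 c2 c3 c1 hW0 (by rw [Qf_rot]; exact hW)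
    rwa [show ce k p a2 t2 + ce k p a3 t3 + ce k p a1 t1 =
      ce k p a1 t1 + ce k p a2 t2 + ce k p a3 t3 by ring] at this
  · have m' : t2 ≤ t3 := by
      by_contra h'
      exact m3 ⟨by linarith, by linarith⟩
    have := F_ord hk0 hk1 hk hp hp' z2 m' m h3p h1p (by linarith) (by linarith) (by linarith)
      g3 g1 g2 c3 c1 c2 hW0 (by rw [← Qf_rot]; exact hW)
    rwa [show ce k p a3 t3 + ce k p a1 t1 + ce k p a2 t2 =
      ce k p a1 t1 + ce k p a2 t2 + ce k p a3 t3 by ring] at this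

theorem ce_min (k : ℝ → ℝ) (p a t : ℝ) : ce k p a (min t (p - t)) = ce k p a t := by
  rcases min_cases t (p - t) with h | h
  · rw [h.1]
  · rw [h.1, ce, ce, sub_sub_cancel, add_comm]

theorem F_phase {k : ℝ → ℝ} {k1 p a1 a2 a3 u v w W : ℝ} (hk0 : ∀ s, 0 ≤ k s)
    (hk1 : k1 ≤ 171 / 50000) (hk : ∀ s, 4 ≤ s → k1 - k s ≤ 17 / 1000 * (s - 4))
    (hp : 2 ≤ p) (hp' : p ≤ 13 / 5) (u0 : 0 ≤ u) (u1 : u < p) (v0 : 0 ≤ v) (v1 : v < p)
    (w0 : 0 ≤ w) (w1 : w < p) (g1 : 4 ≤ a1 + |u - v| ^ 2) (g1' : 4 ≤ a1 + (p - |u - v|) ^ 2)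
    (g2 : 4 ≤ a2 + |v - w| ^ 2) (g2' : 4 ≤ a2 + (p - |v - w|) ^ 2)
    (g3 : 4 ≤ a3 + |w - u| ^ 2) (g3' : 4 ≤ a3 + (p - |w - u|) ^ 2) (c1 : a1 ≤ 29 / 5)
    (c2 : a2 ≤ 29 / 5) (c3 : a3 ≤ 29 / 5) (hW0 : 0 ≤ W) (hW : W ^ 2 = p ^ 2 * Qf a1 a2 a3 / 16) :
    √8 * (1 + 6 * k1 - k (p ^ 2) -
      (ce k p a1 |u - v| + ce k p a2 |v - w| + ce k p a3 |w - u|)) ≤ W := by
  rw [← ce_min k p a1, ← ce_min k p a2, ← ce_min k p a3]
  have gm : ∀ a t : ℝ, 4 ≤ a + t ^ 2 → 4 ≤ a + (p - t) ^ 2 → 4 ≤ a + (min t (p - t)) ^ 2 := by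
    intro a t h1 h2
    rcases min_cases t (p - t) with h | h <;> rwa [h.1]
  have key : (0 ≤ min |u - v| (p - |u - v|) ∧ 0 ≤ min |v - w| (p - |v - w|) ∧
      0 ≤ min |w - u| (p - |w - u|)) ∧ (min |u - v| (p - |u - v|) ≤ p / 2 ∧
      min |v - w| (p - |v - w|) ≤ p / 2 ∧ min |w - u| (p - |w - u|) ≤ p / 2) ∧
      min |u - v| (p - |u - v|) + min |v - w| (p - |v - w|) + min |w - u| (p - |w - u|) ≤ p ∧
      min |u - v| (p - |u - v|) ≤ min |v - w| (p - |v - w|) + min |w - u| (p - |w - u|) ∧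
      min |v - w| (p - |v - w|) ≤ min |u - v| (p - |u - v|) + min |w - u| (p - |w - u|) ∧
      min |w - u| (p - |w - u|) ≤ min |u - v| (p - |u - v|) + min |v - w| (p - |v - w|) := by
    clear hk0 hk1 hk gm g1 g2 g3 g1' g2' g3' c1 c2 c3 hW0 hW
    rcases min_cases |u - v| (p - |u - v|) with ⟨m1, n1⟩ | ⟨m1, n1⟩ <;>
      rcases min_cases |v - w| (p - |v - w|) with ⟨m2, n2⟩ | ⟨m2, n2⟩ <;>
      rcases min_cases |w - u| (p - |w - u|) with ⟨m3, n3⟩ | ⟨m3, n3⟩ <;>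
      rw [m1, m2, m3] <;> clear m1 m2 m3 <;>
      rcases abs_cases (u - v) with ⟨e1, f1⟩ | ⟨e1, f1⟩ <;>
      rcases abs_cases (v - w) with ⟨e2, f2⟩ | ⟨e2, f2⟩ <;>
      rcases abs_cases (w - u) with ⟨e3, f3⟩ | ⟨e3, f3⟩ <;>
      refine ⟨⟨?_, ?_, ?_⟩, ⟨?_, ?_, ?_⟩, ?_, ?_, ?_, ?_⟩ <;> linarith
  obtain ⟨⟨z1, z2, z3⟩, ⟨h1p, h2p, h3p⟩, hs, h1, h2, h3⟩ := key
  exact F_sym hk0 hk1 hk hp hp' z1 z2 z3 h1p h2p h3p hs h1 h2 h3 (gm _ _ g1 g1') (gm _ _ g2 g2')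
    (gm _ _ g3 g3') c1 c2 c3 hW0 hW

end Pool.Agent.Lib.MP_f3b2fd_co
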