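import Mathlib
import Pool.Agent.Lib.MP_f3b2fd_co.SPReal

set_option autoImplicit false

open Set

namespace Pool.Agent.Lib.MP_f3b2fd_co

/-- The plane. -/
abbrev P2 := ℝ × ℝ

/-- Squared distance in the plane. -/
def d2 (a b : P2) : ℝ := (a.1 - b.1) ^ 2 + (a.2 - b.2) ^ 2

/-- Twice the signed area of a triangle. -/
def cr (a b c : P2) : ℝ := (b.1 - a.1) * (c.2 - a.2) - (b.2 - a.2) * (c.1 - a.1)

theorem d2_comm (a b : P2) : d2 a b = d2 b a := by unfold d2; ring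

theorem d2_nonneg (a b : P2) : 0 ≤ d2 a b := by unfold d2; positivity

theorem d2_self (a : P2) : d2 a a = 0 := by simp [d2]

theorem d2_tri (a b c : P2) : d2 a b ≤ 2 * d2 a c + 2 * d2 b c := by
  unfold d2
  nlinarith [sq_nonneg (a.1 + b.1 - 2 * c.1), sq_nonneg (a.2 + b.2 - 2 * c.2)]

theorem cr_rot (a b c : P2) : cr b c a = cr a b c := by unfold cr; ring

theorem cr_swap (a b c : P2) : cr b a c = -cr a b c := by unfold cr; ring

theorem Qf_cr (a b c : P2) : Qf (d2 a b) (d2 b c) (d2 c a) = 4 * cr a b c ^ 2 := by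
  unfold Qf d2 cr; ring

theorem cr_abs (a b c : P2) : |cr a b c| ≤ (d2 a b + d2 a c) / 2 := by
  rw [abs_le]
  unfold d2 cr
  constructor
  · nlinarith [sq_nonneg (b.1 - a.1 + (c.2 - a.2)), sq_nonneg (b.2 - a.2 - (c.1 - a.1))]
  · nlinarith [sq_nonneg (b.1 - a.1 - (c.2 - a.2)), sq_nonneg (b.2 - a.2 + (c.1 - a.1))]

/-- Points of the set are well separated. -/
def Sep (Z : Set P2) : Prop := ∀ a ∈ Z, ∀ b ∈ Z, a ≠ b → 231 / 100 ≤ d2 a b

theorem Sep.injOn {Z : Set P2} (h : Sep Z) : InjOn (fun a : P2 => (⌊a.1⌋, ⌊a.2⌋)) Z := by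
  intro a ha b hb e
  by_contra hne
  have h1 := h a ha b hb hne
  obtain ⟨e1, e2⟩ := Prod.ext_iff.1 e
  have f1 := abs_lt.1 (Int.abs_sub_lt_one_of_floor_eq_floor e1)
  have f2 := abs_lt.1 (Int.abs_sub_lt_one_of_floor_eq_floor e2)
  unfold d2 at h1
  nlinarith

theorem Sep.countable {Z : Set P2} (h : Sep Z) : Z.Countable :=
  countable_of_injective_of_countable_image h.injOn (to_countable _)

theorem Sep.finite {Z : Set P2} (h : Sep Z) (z : P2) (R : ℝ) :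
    {y | y ∈ Z ∧ d2 y z ≤ R}.Finite := by
  refine Finite.of_injOn (t := Icc ⌊z.1 - (R + 1)⌋ ⌊z.1 + (R + 1)⌋ ×ˢ
    Icc ⌊z.2 - (R + 1)⌋ ⌊z.2 + (R + 1)⌋) ?_ (h.injOn.mono fun y hy => hy.1)
    ((finite_Icc _ _).prod (finite_Icc _ _))
  rintro y ⟨-, hy⟩
  unfold d2 at hy
  have a1 := sq_nonneg (y.1 - z.1)
  have a2 := sq_nonneg (y.2 - z.2)
  refine ⟨⟨Int.floor_mono ?_, Int.floor_mono ?_⟩, ⟨Int.floor_mono ?_, Int.floor_mono ?_⟩⟩
  · nlinarith [sq_nonneg (y.1 - z.1 + 1)]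
  · nlinarith [sq_nonneg (y.1 - z.1 - 1)]
  · nlinarith [sq_nonneg (y.2 - z.2 + 1)]
  · nlinarith [sq_nonneg (y.2 - z.2 - 1)]

/-- A separated saturated set with generic small weights and a generic direction. -/
structure Conf (Z : Set P2) (w : P2 → ℝ) (θ : ℝ) : Prop where
  sep : Sep Z
  sat : ∀ q : P2, ∃ a ∈ Z, d2 a q < 4
  w0 : ∀ a, 0 ≤ w a
  w1 : ∀ a, w a ≤ 1 / 1000000
  gen : ∀ a ∈ Z, ∀ b ∈ Z, ∀ c ∈ Z, ∀ d ∈ Z, ∀ (o : P2) (ρ : ℝ), cr a b c ≠ 0 →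
    d2 a o + w a = ρ → d2 b o + w b = ρ → d2 c o + w c = ρ → d2 d o + w d = ρ →
    d = a ∨ d = b ∨ d = c
  eta : ∀ a ∈ Z, ∀ b ∈ Z, a.2 + θ * a.1 = b.2 + θ * b.1 → a = b

open Polynomial in
theorem exists_conf {Z : Set P2} (hs : Sep Z) (ht : ∀ q : P2, ∃ a ∈ Z, d2 a q < 4) :
    ∃ w θ, Conf Z w θ := by
  have hc := hs.countable
  obtain ⟨n, hn⟩ := countable_iff_exists_injOn.1 hc
  obtain ⟨θ, hθ, -⟩ := (((hc.prod hc).image fun x : P2 × P2 =>
    (x.2.2 - x.1.2) / (x.1.1 - x.2.1)).dense_compl ℝ).exists_between (zero_lt_one' ℝ)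
  set pl : P2 → P2 → P2 → P2 → ℝ[X] := fun a b c d =>
    C (cr a b c * d2 d 0 - cr d b c * d2 a 0 - cr a d c * d2 b 0 - cr a b d * d2 c 0) +
      C (cr a b c / 1000000) * X ^ (n d + 1) - C (cr d b c / 1000000) * X ^ (n a + 1) -
      C (cr a d c / 1000000) * X ^ (n b + 1) - C (cr a b d / 1000000) * X ^ (n c + 1) with hpl
  have hbad : (⋃ x ∈ (Z ×ˢ Z) ×ˢ (Z ×ˢ Z),
      ((pl x.1.1 x.1.2 x.2.1 x.2.2).roots.toFinset : Set ℝ)).Countable :=
    ((hc.prod hc).prod (hc.prod hc)).biUnion fun x _ => Finset.countable_toSet _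
  obtain ⟨x, hx, x0, x1⟩ := (hbad.dense_compl ℝ).exists_between (zero_lt_one' ℝ)
  refine ⟨fun a => x ^ (n a + 1) / 1000000, θ, hs, ht, fun a => by positivity, fun a => ?_,
    ?_, ?_⟩
  · have := pow_le_one₀ (n := n a + 1) x0.le x1.le
    linarith
  · intro a ha b hb c hc' d hd o ρ hcr e1 e2 e3 e4
    by_contra hne
    rw [not_or, not_or] at hne
    have n1 : n d + 1 ≠ n a + 1 := fun e => hne.1 (hn hd ha (by omega))
    have n2 : n d + 1 ≠ n b + 1 := fun e => hne.2.1 (hn hd hb (by omega))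
    have n3 : n d + 1 ≠ n c + 1 := fun e => hne.2.2 (hn hd hc' (by omega))
    have hp : pl a b c d ≠ 0 := by
      intro e
      have := congrArg (fun q : ℝ[X] => q.coeff (n d + 1)) e
      simp only [hpl, coeff_add, coeff_sub, coeff_C_mul, coeff_X_pow, coeff_C_succ, if_true,
        if_neg n1, if_neg n2, if_neg n3, coeff_zero] at this
      apply hcr
      linarith
    refine hx (mem_biUnion (x := ((a, b), (c, d))) ⟨⟨ha, hb⟩, ⟨hc', hd⟩⟩ ?_)
    rw [Finset.mem_coe, Multiset.mem_toFinset, mem_roots hp, IsRoot.def]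
    simp only [hpl, eval_add, eval_sub, eval_mul, eval_C, eval_pow, eval_X]
    simp only [d2, cr, Prod.fst_zero, Prod.snd_zero] at e1 e2 e3 e4 ⊢
    linear_combination ((b.1 - a.1) * (c.2 - a.2) - (b.2 - a.2) * (c.1 - a.1)) * e4 -
      ((b.1 - d.1) * (c.2 - d.2) - (b.2 - d.2) * (c.1 - d.1)) * e1 -
      ((d.1 - a.1) * (c.2 - a.2) - (d.2 - a.2) * (c.1 - a.1)) * e2 -
      ((b.1 - a.1) * (d.2 - a.2) - (b.2 - a.2) * (d.1 - a.1)) * e3
  · intro a ha b hb e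
    by_cases h1 : a.1 = b.1
    · refine Prod.ext h1 ?_
      rw [h1] at e
      linarith
    · exfalso
      refine hθ ⟨(a, b), ⟨ha, hb⟩, ?_⟩
      have : a.1 - b.1 ≠ 0 := sub_ne_zero.2 h1
      field_simp
      linarith

/-- A positively oriented triangle of the weighted Delaunay triangulation. -/
def Del (Z : Set P2) (w : P2 → ℝ) (a b c : P2) : Prop :=
  a ∈ Z ∧ b ∈ Z ∧ c ∈ Z ∧ 0 < cr a b c ∧ ∃ (o : P2) (ρ : ℝ), (∀ y ∈ Z, ρ ≤ d2 y o + w y) ∧
    d2 a o + w a = ρ ∧ d2 b o + w b = ρ ∧ d2 c o + w c = ρ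

variable {Z : Set P2} {w : P2 → ℝ} {θ : ℝ}

theorem Del.rot {a b c : P2} (h : Del Z w a b c) : Del Z w b c a := by
  obtain ⟨ha, hb, hc, hcr, o, ρ, h0, h1, h2, h3⟩ := h
  exact ⟨hb, hc, ha, by rwa [cr_rot], o, ρ, h0, h2, h3, h1⟩

theorem Del.ne {a b c : P2} (h : Del Z w a b c) : a ≠ b := by
  rintro rfl
  have := h.2.2.2.1
  simp [cr] at this

theorem Del.uniq (hC : Conf Z w θ) {a b c c' : P2} (h : Del Z w a b c) (h' : Del Z w a b c') :
    c' = c := by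
  obtain ⟨ha, hb, hc, hcr, o, ρ, h0, h1, h2, h3⟩ := h
  obtain ⟨-, -, hc', hcr', o', ρ', h0', h1', h2', h3'⟩ := h'
  have k1 := h0 c' hc'
  have k2 := h0' c hc
  have e : (d2 c' o + w c' - ρ) * cr a b c + (d2 c o' + w c - ρ') * cr a b c' = 0 := by
    simp only [d2, cr] at *
    linear_combination
      ((b.1 - c'.1) * (c.2 - c'.2) - (b.2 - c'.2) * (c.1 - c'.1)) * (h1 - h1') +
      ((c'.1 - a.1) * (c.2 - a.2) - (c'.2 - a.2) * (c.1 - a.1)) * (h2 - h2') +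
      ((b.1 - a.1) * (c'.2 - a.2) - (b.2 - a.2) * (c'.1 - a.1)) * h3 +
      ((b.1 - a.1) * (c.2 - a.2) - (b.2 - a.2) * (c.1 - a.1)) * h3'
  have e1 : d2 c' o + w c' = ρ := by
    have a1 := mul_nonneg (sub_nonneg.2 k2) hcr'.le
    have a2 : (d2 c' o + w c' - ρ) * cr a b c ≤ 0 := by linarith
    have a3 := nonpos_of_mul_nonpos_left a2 hcr
    linarith
  rcases hC.gen a ha b hb c hc c' hc' o ρ hcr.ne' h1 h2 h3 e1 with rfl | rfl | rfl
  · simp [cr] at hcr'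
  · simp [cr, mul_comm] at hcr'
  · rfl

theorem Conf.rho (hC : Conf Z w θ) {o : P2} {ρ : ℝ} (h : ∀ y ∈ Z, ρ ≤ d2 y o + w y) :
    ρ ≤ 4000001 / 1000000 := by
  obtain ⟨y, hy, h1⟩ := hC.sat o
  linarith [h y hy, hC.w1 y]

theorem Del.side (hC : Conf Z w θ) {a b c : P2} (h : Del Z w a b c) : d2 a b ≤ 1601 / 100 := by
  obtain ⟨ha, hb, hc, hcr, o, ρ, h0, h1, h2, h3⟩ := h
  linarith [hC.rho h0, d2_tri a b o, hC.w0 a, hC.w0 b]

theorem Del.rad (hC : Conf Z w θ) {a b c : P2} (h : Del Z w a b c) :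
    d2 a b * d2 b c * d2 c a ≤ 40001 / 10000 * Qf (d2 a b) (d2 b c) (d2 c a) + 1 / 1000 := by
  have s1 := h.side hC
  have s2 := h.rot.side hC
  have s3 := h.rot.rot.side hC
  obtain ⟨ha, hb, hc, hcr, o, ρ, h0, h1, h2, h3⟩ := h
  have hρ := hC.rho h0
  have hQ : 0 ≤ Qf (d2 a b) (d2 b c) (d2 c a) := by rw [Qf_cr]; positivity
  have e : d2 a b * (d2 b c + d2 c a - d2 a b) * d2 c o +
      d2 b c * (d2 c a + d2 a b - d2 b c) * d2 a o +
      d2 c a * (d2 a b + d2 b c - d2 c a) * d2 b o - d2 a b * d2 b c * d2 c a =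
      ((d2 b o - d2 a o) * (c.1 - a.1) - (d2 c o - d2 a o) * (b.1 - a.1)) ^ 2 +
      ((d2 b o - d2 a o) * (c.2 - a.2) - (d2 c o - d2 a o) * (b.2 - a.2)) ^ 2 := by
    unfold d2
    ring
  have key : ∀ x y z v : ℝ, 0 ≤ x → 0 ≤ y → 0 ≤ z → x ≤ 1601 / 100 → 0 ≤ v →
      v ≤ 1 / 1000000 → -(3 / 10000) ≤ x * (y + z - x) * v := by
    intro x y z v hx hy hz hx' hv hv'
    have a1 : -257 ≤ x * (y + z - x) := by nlinarith [mul_nonneg hx hy, mul_nonneg hx hz]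
    nlinarith [mul_le_mul_of_nonneg_right a1 hv]
  have k1 := key _ _ _ _ (d2_nonneg a b) (d2_nonneg b c) (d2_nonneg c a) s1 (hC.w0 c) (hC.w1 c)
  have k2 := key _ _ _ _ (d2_nonneg b c) (d2_nonneg c a) (d2_nonneg a b) s2 (hC.w0 a) (hC.w1 a)
  have k3 := key _ _ _ _ (d2_nonneg c a) (d2_nonneg a b) (d2_nonneg b c) s3 (hC.w0 b) (hC.w1 b)
  have k4 := mul_le_mul_of_nonneg_right hρ hQ
  rw [show d2 a o = ρ - w a by linarith, show d2 b o = ρ - w b by linarith,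
    show d2 c o = ρ - w c by linarith] at e
  have p1 := sq_nonneg ((ρ - w b - (ρ - w a)) * (c.1 - a.1) - (ρ - w c - (ρ - w a)) * (b.1 - a.1))
  have p2 := sq_nonneg ((ρ - w b - (ρ - w a)) * (c.2 - a.2) - (ρ - w c - (ρ - w a)) * (b.2 - a.2))
  unfold Qf at *
  linarith

theorem Del.donor (hC : Conf Z w θ) {a b c c' : P2} (h : Del Z w a b c) (h' : Del Z w b a c')
    (ho : d2 b c + d2 c a + 1 / 1000 < d2 a b) (h1 : 1 ≤ cr a b c) :
    d2 b a ≤ d2 a c' + d2 c' b + 1 / 1000 := by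
  have s2 := h.rot.side hC
  have s3 := h.rot.rot.side hC
  have t2 := h'.rot.side hC
  have t3 := h'.rot.rot.side hC
  obtain ⟨ha, hb, hc, hcr, o, ρ, h0, e1, e2, e3⟩ := h
  obtain ⟨-, -, hc', hcr', -⟩ := h'
  have k := h0 c' hc'
  have e : cr a b c * ((d2 a c' + d2 c' b - d2 b a) / 2 - (d2 c' o - ρ)) =
      cr b c c' * w a + cr a c' c * w b +
        cr b a c' * (-((d2 b c + d2 c a - d2 a b) / 2 + w c)) := by
    rw [show w a = ρ - d2 a o by linarith, show w b = ρ - d2 b o by linarith,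
      show w c = ρ - d2 c o by linarith]
    unfold d2 cr
    ring
  have c1 := (abs_le.1 (cr_abs b c c')).1
  have c2 := (abs_le.1 (cr_abs a c' c)).1
  rw [d2_comm b c'] at c1
  rw [d2_comm a c] at c2
  have q1 := mul_le_mul_of_nonneg_right (show -(1601 / 100) ≤ cr b c c' by linarith) (hC.w0 a)
  have q2 := mul_le_mul_of_nonneg_right (show -(1601 / 100) ≤ cr a c' c by linarith) (hC.w0 b)
  have q3 := mul_nonneg hcr'.le
    (show 0 ≤ -((d2 b c + d2 c a - d2 a b) / 2 + w c) by linarith [hC.w1 c])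
  have q4 := hC.w1 a
  have q5 := hC.w1 b
  have q6 := hC.w1 c'
  by_contra hn
  have q7 := mul_le_mul_of_nonneg_right h1
    (show 0 ≤ -((d2 a c' + d2 c' b - d2 b a) / 2 - (d2 c' o - ρ)) by linarith)
  linarith

theorem Conf.slack (hC : Conf Z w θ) {y z : P2} (hy : y ∈ Z) (hz : z ∈ Z) :
    0 ≤ d2 y z + w y - w z := by
  by_cases e : y = z
  · rw [e, d2_self]
    linarith
  · linarith [hC.sep y hy z hz e, hC.w0 y, hC.w1 z]

theorem Conf.small (hC : Conf Z w θ) {z o : P2} (hz : z ∈ Z)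
    (h : ∀ y ∈ Z, d2 y z ≤ 25 → d2 z o + w z ≤ d2 y o + w y) : d2 z o ≤ 441 / 100 := by
  by_contra hn
  rw [not_le] at hn
  set r := √(d2 z o) with hr
  have r2 : r ^ 2 = d2 z o := Real.sq_sqrt (d2_nonneg _ _)
  have r1 : 21 / 10 < r := by
    by_contra h1
    have := pow_le_pow_left₀ (Real.sqrt_nonneg _) (not_lt.1 h1) 2
    linarith
  set μ := 21 / 10 / r with hμ
  have m0 : 0 ≤ μ := div_nonneg (by norm_num) (by linarith)
  have m1 : μ ≤ 1 := (div_le_one (by linarith)).2 r1.le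
  have m2 : μ ^ 2 * d2 z o = 441 / 100 := by
    rw [← r2, ← mul_pow, hμ, div_mul_cancel₀ _ (by linarith)]
    norm_num
  set q : P2 := (z.1 + μ * (o.1 - z.1), z.2 + μ * (o.2 - z.2)) with hq
  have q1 : d2 z q = 441 / 100 := by
    rw [← m2]
    simp only [hq, d2]
    ring
  obtain ⟨y, hy, y1⟩ := hC.sat q
  have y2 := h y hy (by linarith [d2_tri y z q])
  have y3 := hC.slack hy hz
  have e : d2 y q + w y - (d2 z q + w z) = (1 - μ) * (d2 y z + w y - w z) +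
      μ * (d2 y o + w y - (d2 z o + w z)) := by
    simp only [hq, d2]
    ring
  have a1 := mul_nonneg (sub_nonneg.2 m1) y3
  have a2 := mul_nonneg m0 (sub_nonneg.2 y2)
  linarith [hC.w1 y, hC.w0 z]

theorem Conf.all (hC : Conf Z w θ) {z o : P2} (hz : z ∈ Z)
    (h : ∀ y ∈ Z, d2 y z ≤ 25 → d2 z o + w z ≤ d2 y o + w y) :
    ∀ y ∈ Z, d2 z o + w z ≤ d2 y o + w y := by
  intro y hy
  rcases le_or_gt (d2 y z) 25 with h1 | h1
  · exact h y hy h1
  · linarith [hC.small hz h, d2_tri y z o, hC.w0 y, hC.w1 z]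

theorem Del.nbr (hC : Conf Z w θ) {a b c : P2} (h : Del Z w a b c) : ∃ c', Del Z w b a c' := by
  have hne := h.ne
  obtain ⟨ha, hb, hc, hcr, o, ρ, h0, h1, h2, h3⟩ := h
  have key : ∀ (μ : ℝ) (y : P2), d2 y (o.1 + μ * (b.2 - a.2), o.2 - μ * (b.1 - a.1)) + w y -
      (d2 a (o.1 + μ * (b.2 - a.2), o.2 - μ * (b.1 - a.1)) + w a) =
      d2 y o + w y - ρ - 2 * μ * cr b a y := by
    intro μ y
    rw [← h1]
    unfold d2 cr
    ring
  have hfin : {y | (y ∈ Z ∧ d2 y a ≤ 25) ∧ 0 < cr b a y}.Finite :=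
    (hC.sep.finite a 25).subset fun y hy => hy.1
  rcases {y | (y ∈ Z ∧ d2 y a ≤ 25) ∧ 0 < cr b a y}.eq_empty_or_nonempty with he | hn
  · exfalso
    have s1 := hC.small (o := (o.1 + 10 * (b.2 - a.2), o.2 - 10 * (b.1 - a.1))) ha (by
      intro y hy hy'
      have k := key 10 y
      have : cr b a y ≤ 0 := by
        by_contra h'
        exact (he ▸ (⟨⟨hy, hy'⟩, not_le.1 h'⟩ :
          y ∈ {y | (y ∈ Z ∧ d2 y a ≤ 25) ∧ 0 < cr b a y}) : y ∈ (∅ : Set P2))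
      linarith [h0 y hy])
    have s2 := hC.small (o := o) ha fun y hy _ => h1 ▸ h0 y hy
    have s3 := d2_tri o (o.1 + 10 * (b.2 - a.2), o.2 - 10 * (b.1 - a.1)) a
    have s4 := hC.sep a ha b hb hne
    rw [d2_comm] at s1 s2
    have s5 : d2 o (o.1 + 10 * (b.2 - a.2), o.2 - 10 * (b.1 - a.1)) = 100 * d2 a b := by
      unfold d2
      ring
    linarith
  · obtain ⟨c', ⟨⟨hc', -⟩, hp⟩, hmin⟩ :=
      exists_min_image _ (fun y => (d2 y o + w y - ρ) / (2 * cr b a y)) hfin hn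
    set μ := (d2 c' o + w c' - ρ) / (2 * cr b a c') with hμ
    have m0 : 0 ≤ μ := div_nonneg (sub_nonneg.2 (h0 c' hc')) (by linarith)
    have m1 : μ * (2 * cr b a c') = d2 c' o + w c' - ρ := div_mul_cancel₀ _ (by linarith)
    have hall := hC.all (o := (o.1 + μ * (b.2 - a.2), o.2 - μ * (b.1 - a.1))) ha (by
      intro y hy hy'
      have k := key μ y
      rcases le_or_gt (cr b a y) 0 with h4 | h4
      · have := mul_nonneg m0 (neg_nonneg.2 h4)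
        linarith [h0 y hy]
      · have := (le_div_iff₀ (by linarith)).1 (hmin y ⟨⟨hy, hy'⟩, h4⟩)
        linarith)
    refine ⟨c', hb, ha, hc', hp, _, _, hall, ?_, rfl, ?_⟩
    · have k := key μ b
      have : cr b a b = 0 := by simp [cr]
      rw [this] at k
      linarith
    · have k := key μ c'
      linarith

theorem fin_between {s t : Set ℝ} (hs : s.Finite) (ht : t.Finite)
    (h : ∀ x ∈ s, ∀ y ∈ t, x ≤ y) : ∃ b, (∀ x ∈ s, x ≤ b) ∧ ∀ y ∈ t, b ≤ y := by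
  rcases s.eq_empty_or_nonempty with rfl | hn
  · obtain ⟨b, hb⟩ := ht.bddBelow
    exact ⟨b, by simp, hb⟩
  · obtain ⟨x, hx, hm⟩ := exists_max_image s id hs hn
    exact ⟨x, hm, h x hx⟩

/-- The generic height function. -/
def hgt (θ : ℝ) (a : P2) : ℝ := a.2 + θ * a.1

theorem Conf.beta (hC : Conf Z w θ) {z : P2} (hz : z ∈ Z) (α : ℝ)
    (h : ∀ u ∈ Z, d2 u z ≤ 25 → hgt θ z < hgt θ u → ∀ l ∈ Z, d2 l z ≤ 25 → hgt θ l < hgt θ z →
      α * cr z l u ≤ (d2 l z + w l - w z) * (hgt θ u - hgt θ z) +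
        (d2 u z + w u - w z) * (hgt θ z - hgt θ l)) :
    ∃ β, ∀ y ∈ Z, d2 y z ≤ 25 →
      α * (y.1 - z.1) + β * (hgt θ y - hgt θ z) ≤ d2 y z + w y - w z := by
  have hf := hC.sep.finite z 25
  obtain ⟨β, b1, b2⟩ := fin_between
    (s := (fun y => (d2 y z + w y - w z - α * (y.1 - z.1)) / (hgt θ y - hgt θ z)) ''
      {y | (y ∈ Z ∧ d2 y z ≤ 25) ∧ hgt θ y < hgt θ z})
    (t := (fun y => (d2 y z + w y - w z - α * (y.1 - z.1)) / (hgt θ y - hgt θ z)) ''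
      {y | (y ∈ Z ∧ d2 y z ≤ 25) ∧ hgt θ z < hgt θ y})
    ((hf.subset fun y hy => hy.1).image _) ((hf.subset fun y hy => hy.1).image _) (by
      rintro _ ⟨l, ⟨⟨hl, l1⟩, l2⟩, rfl⟩ _ ⟨u, ⟨⟨hu, u1⟩, u2⟩, rfl⟩
      have k := h u hu u1 u2 l hl l1 l2
      simp only
      rw [← neg_div_neg_eq, div_le_div_iff₀ (by linarith) (by linarith)]
      have e : cr z l u = (l.1 - z.1) * (hgt θ u - hgt θ z) + (u.1 - z.1) * (hgt θ z - hgt θ l) := by
        unfold cr hgt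
        ring
      rw [e] at k
      linarith)
  refine ⟨β, fun y hy y1 => ?_⟩
  rcases lt_trichotomy (hgt θ y) (hgt θ z) with h1 | h1 | h1
  · have := b1 _ ⟨y, ⟨⟨hy, y1⟩, h1⟩, rfl⟩
    simp only at this
    rw [div_le_iff_of_neg (by linarith)] at this
    linarith
  · rw [hC.eta y hy z hz h1, d2_self]
    simp
  · have := b2 _ ⟨y, ⟨⟨hy, y1⟩, h1⟩, rfl⟩
    simp only at this
    rw [le_div_iff₀ (by linarith)] at this
    linarith

theorem Conf.mid (hC : Conf Z w θ) {z : P2} (hz : z ∈ Z) (s : ℝ) (hs : s = 1 ∨ s = -1) :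
    ∃ u ∈ Z, ∃ l ∈ Z, hgt θ z < hgt θ u ∧ hgt θ l < hgt θ z ∧ 0 < s * cr z l u ∧
      ∃ (o : P2) (ρ : ℝ), (∀ y ∈ Z, ρ ≤ d2 y o + w y) ∧
        d2 z o + w z = ρ ∧ d2 l o + w l = ρ ∧ d2 u o + w u = ρ := by
  have key : ∀ (α β : ℝ) (y : P2), d2 y (z.1 + (α + β * θ) / 2, z.2 + β / 2) + w y -
      (d2 z (z.1 + (α + β * θ) / 2, z.2 + β / 2) + w z) =
      d2 y z + w y - w z - (α * (y.1 - z.1) + β * (hgt θ y - hgt θ z)) := by
    intro α β y
    unfold d2 hgt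
    ring
  have hM : ∀ u ∈ Z, hgt θ z < hgt θ u → ∀ l ∈ Z, hgt θ l < hgt θ z →
      0 ≤ (d2 l z + w l - w z) * (hgt θ u - hgt θ z) +
        (d2 u z + w u - w z) * (hgt θ z - hgt θ l) := fun u hu u2 l hl l2 =>
    add_nonneg (mul_nonneg (hC.slack hl hz) (by linarith))
      (mul_nonneg (hC.slack hu hz) (by linarith))
  have hf := hC.sep.finite z 25
  set S : Set (P2 × P2) := {x | ((x.1 ∈ Z ∧ d2 x.1 z ≤ 25) ∧ (x.2 ∈ Z ∧ d2 x.2 z ≤ 25)) ∧
    hgt θ z < hgt θ x.1 ∧ hgt θ x.2 < hgt θ z ∧ 0 < s * cr z x.2 x.1} with hS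
  have hfin : S.Finite := (hf.prod hf).subset fun x hx => hx.1
  rcases S.eq_empty_or_nonempty with he | hn
  · exfalso
    obtain ⟨β, hβ⟩ := hC.beta hz (5 * (1 + |θ|) * s) (by
      intro u hu u1 u2 l hl l1 l2
      have : s * cr z l u ≤ 0 := by
        by_contra h'
        exact (he ▸ (⟨⟨⟨hu, u1⟩, hl, l1⟩, u2, l2, not_le.1 h'⟩ : (u, l) ∈ S) :
          (u, l) ∈ (∅ : Set (P2 × P2)))
      have := mul_nonneg (show 0 ≤ 5 * (1 + |θ|) by positivity) (neg_nonneg.2 this)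
      linarith [hM u hu u2 l hl l2])
    have s1 := hC.small (o := (z.1 + (5 * (1 + |θ|) * s + β * θ) / 2, z.2 + β / 2)) hz (by
      intro y hy y1
      linarith [key (5 * (1 + |θ|) * s) β y, hβ y hy y1])
    simp only [d2] at s1
    have a1 : |β| ≤ 21 / 5 := abs_le_of_sq_le_sq (by
      nlinarith [sq_nonneg (5 * (1 + |θ|) * s + β * θ)]) (by norm_num)
    have a2 : |5 * (1 + |θ|) * s + β * θ| ≤ 21 / 5 := abs_le_of_sq_le_sq (by
      nlinarith [sq_nonneg β]) (by norm_num)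
    have a3 : |β * θ| ≤ 21 / 5 * |θ| := by
      rw [abs_mul]
      exact mul_le_mul_of_nonneg_right a1 (abs_nonneg _)
    have a4 := abs_le.1 a2
    have a5 := abs_le.1 a3
    have a6 := abs_nonneg θ
    rcases hs with rfl | rfl <;> linarith
  · obtain ⟨⟨u, l⟩, ⟨⟨⟨hu, u1⟩, hl, l1⟩, u2, l2, hp⟩, hmin⟩ := exists_min_image _
      (fun x : P2 × P2 => ((d2 x.2 z + w x.2 - w z) * (hgt θ x.1 - hgt θ z) +
        (d2 x.1 z + w x.1 - w z) * (hgt θ z - hgt θ x.2)) / (s * cr z x.2 x.1)) hfin hn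
    simp only at hu u1 hl l1 u2 l2 hp hmin
    set μ := ((d2 l z + w l - w z) * (hgt θ u - hgt θ z) +
        (d2 u z + w u - w z) * (hgt θ z - hgt θ l)) / (s * cr z l u) with hμ
    have m0 : 0 ≤ μ := div_nonneg (hM u hu u2 l hl l2) hp.le
    have m1 : μ * (s * cr z l u) = (d2 l z + w l - w z) * (hgt θ u - hgt θ z) +
        (d2 u z + w u - w z) * (hgt θ z - hgt θ l) := div_mul_cancel₀ _ hp.ne'
    obtain ⟨β, hβ⟩ := hC.beta hz (μ * s) (by
      intro u' hu' u1' u2' l' hl' l1' l2'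
      rcases le_or_gt (s * cr z l' u') 0 with h4 | h4
      · have := mul_nonneg m0 (neg_nonneg.2 h4)
        linarith [hM u' hu' u2' l' hl' l2']
      · have := (le_div_iff₀ h4).1 (hmin (u', l') ⟨⟨⟨hu', u1'⟩, hl', l1'⟩, u2', l2', h4⟩)
        simp only at this
        linarith)
    have hall := hC.all (o := (z.1 + (μ * s + β * θ) / 2, z.2 + β / 2)) hz (by
      intro y hy y1
      linarith [key (μ * s) β y, hβ y hy y1])
    have c1 := sub_nonneg.2 (hβ u hu u1)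
    have c2 := sub_nonneg.2 (hβ l hl l1)
    have e : (d2 u z + w u - w z - (μ * s * (u.1 - z.1) + β * (hgt θ u - hgt θ z))) *
        (hgt θ z - hgt θ l) +
        (d2 l z + w l - w z - (μ * s * (l.1 - z.1) + β * (hgt θ l - hgt θ z))) *
        (hgt θ u - hgt θ z) = 0 := by
      have e : cr z l u = (l.1 - z.1) * (hgt θ u - hgt θ z) + (u.1 - z.1) * (hgt θ z - hgt θ l) := by
        unfold cr hgt
        ring
      rw [e] at m1
      linear_combination -m1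
    have p1 := mul_nonneg c1 (sub_pos.2 l2).le
    have p2 := mul_nonneg c2 (sub_pos.2 u2).le
    have z1 := (mul_eq_zero.1 (le_antisymm (by linarith) p1)).resolve_right (sub_pos.2 l2).ne'
    have z2 := (mul_eq_zero.1 (le_antisymm (by linarith) p2)).resolve_right (sub_pos.2 u2).ne'
    refine ⟨u, hu, l, hl, u2, l2, hp, _, _, hall, rfl, ?_, ?_⟩
    · linarith [key (μ * s) β l]
    · linarith [key (μ * s) β u]

end Pool.Agent.Lib.MP_f3b2fd_co
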