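import Mathlib
import Pool.Agent.Lib.MP_f3b2fd_co.SPPlane

set_option autoImplicit false

open Set

namespace Pool.Agent.Lib.MP_f3b2fd_co

/-- Ordered triples of points of the plane. -/
abbrev T3 := P2 × P2 × P2

/-- A Delaunay triangle listed from its vertex of middle height. -/
def Can (Z : Set P2) (w : P2 → ℝ) (θ : ℝ) (T : T3) : Prop :=
  Del Z w T.1 T.2.1 T.2.2 ∧ ((hgt θ T.2.1 < hgt θ T.1 ∧ hgt θ T.1 < hgt θ T.2.2) ∨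
    (hgt θ T.2.2 < hgt θ T.1 ∧ hgt θ T.1 < hgt θ T.2.1))

/-- The three oriented edges of a triangle. -/
def ed (T : T3) : Fin 3 → P2 × P2 := ![(T.1, T.2.1), (T.2.1, T.2.2), (T.2.2, T.1)]

/-- The vertex opposite to an edge. -/
def op (T : T3) : Fin 3 → P2 := ![T.2.2, T.1, T.2.1]

variable {Z : Set P2} {w : P2 → ℝ} {θ : ℝ}

theorem Can.del {T : T3} (h : Can Z w θ T) (i : Fin 3) :
    Del Z w (ed T i).1 (ed T i).2 (op T i) := by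
  fin_cases i
  · exact h.1
  · exact h.1.rot
  · exact h.1.rot.rot

theorem Del.can (hC : Conf Z w θ) {a b c : P2} (h : Del Z w a b c) :
    ∃ T j, Can Z w θ T ∧ ed T j = (a, b) := by
  have n1 : hgt θ a ≠ hgt θ b := fun e => h.ne (hC.eta a h.1 b h.2.1 e)
  have n2 : hgt θ b ≠ hgt θ c := fun e => h.rot.ne (hC.eta b h.2.1 c h.2.2.1 e)
  have n3 : hgt θ c ≠ hgt θ a := fun e => h.rot.rot.ne (hC.eta c h.2.2.1 a h.1 e)
  rcases lt_or_gt_of_ne n1 with h1 | h1 <;> rcases lt_or_gt_of_ne n2 with h2 | h2 <;>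
    rcases lt_or_gt_of_ne n3 with h3 | h3
  · linarith
  · exact ⟨(b, c, a), 2, ⟨h.rot, Or.inr ⟨h1, h2⟩⟩, rfl⟩
  · exact ⟨(a, b, c), 0, ⟨h, Or.inr ⟨h3, h1⟩⟩, rfl⟩
  · exact ⟨(c, a, b), 1, ⟨h.rot.rot, Or.inl ⟨h3, h2⟩⟩, rfl⟩
  · exact ⟨(c, a, b), 1, ⟨h.rot.rot, Or.inr ⟨h2, h3⟩⟩, rfl⟩
  · exact ⟨(a, b, c), 0, ⟨h, Or.inl ⟨h1, h3⟩⟩, rfl⟩
  · exact ⟨(b, c, a), 2, ⟨h.rot, Or.inl ⟨h2, h1⟩⟩, rfl⟩
  · linarith

theorem ed_inj (hC : Conf Z w θ) {T T' : T3} (h : Can Z w θ T) (h' : Can Z w θ T') {i j : Fin 3}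
    (e : ed T i = ed T' j) : T = T' ∧ i = j := by
  have d1 := h.del i
  have d2 := h'.del j
  rw [← e] at d2
  have e' := d1.uniq hC d2
  obtain ⟨a, b, c⟩ := T
  obtain ⟨a', b', c'⟩ := T'
  have k := h.2
  have k' := h'.2
  simp only at k k'
  fin_cases i <;> fin_cases j <;>
    simp only [ed, op, Fin.zero_eta, Fin.mk_one, Fin.reduceFinMk, Matrix.cons_val_zero,
      Matrix.cons_val_one, Matrix.cons_val, Prod.mk.injEq] at e e' <;>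
    obtain ⟨rfl, rfl⟩ := e <;> subst e' <;>
    first
    | exact ⟨rfl, rfl⟩
    | exfalso
      rcases k with ⟨k1, k2⟩ | ⟨k1, k2⟩ <;> rcases k' with ⟨k3, k4⟩ | ⟨k3, k4⟩ <;> linarith

theorem Can.nbr (hC : Conf Z w θ) {T : T3} (h : Can Z w θ T) (i : Fin 3) :
    ∃ T' j, Can Z w θ T' ∧ ed T' j = (ed T i).swap := by
  obtain ⟨c', hc'⟩ := (h.del i).nbr hC
  exact hc'.can hC

theorem Can.near (hC : Conf Z w θ) {T : T3} (h : Can Z w θ T) (i : Fin 3) :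
    d2 (ed T i).1 T.1 ≤ 1601 / 100 ∧ d2 (ed T i).2 T.1 ≤ 1601 / 100 := by
  have s0 : d2 T.1 T.1 ≤ 1601 / 100 := by rw [d2_self]; norm_num
  have s1 : d2 T.2.1 T.1 ≤ 1601 / 100 := by rw [d2_comm]; exact h.1.side hC
  have s2 : d2 T.2.2 T.1 ≤ 1601 / 100 := h.1.rot.rot.side hC
  fin_cases i
  · exact ⟨s0, s1⟩
  · exact ⟨s1, s2⟩
  · exact ⟨s2, s0⟩

theorem Conf.two (hC : Conf Z w θ) {z : P2} (hz : z ∈ Z) (s : Bool) :
    ∃ T : T3, Can Z w θ T ∧ T.1 = z ∧ (s = true ↔ hgt θ T.2.1 < hgt θ T.1) := by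
  cases s
  · obtain ⟨u, hu, l, hl, u2, l2, hp, o, ρ, h0, h1, h2, h3⟩ := hC.mid hz (-1) (Or.inr rfl)
    refine ⟨(z, u, l), ⟨⟨hz, hu, hl, ?_, o, ρ, h0, h1, h3, h2⟩, Or.inr ⟨l2, u2⟩⟩, rfl, ?_⟩
    · simp only [cr] at hp ⊢
      linarith
    · simpa using u2.le
  · obtain ⟨u, hu, l, hl, u2, l2, hp, o, ρ, h0, h1, h2, h3⟩ := hC.mid hz 1 (Or.inl rfl)
    exact ⟨(z, l, u), ⟨⟨hz, hl, hu, by linarith, o, ρ, h0, h1, h2, h3⟩, Or.inl ⟨l2, u2⟩⟩, rfl,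
      by simpa using l2⟩

/-- The point `q` lies in the open triangle `T`. -/
def Ins (T : T3) (q : P2) : Prop :=
  0 < cr q T.2.1 T.2.2 ∧ 0 < cr T.1 q T.2.2 ∧ 0 < cr T.1 T.2.1 q

theorem Can.disj (hC : Conf Z w θ) {T T' : T3} (h : Can Z w θ T) (h' : Can Z w θ T') {q : P2}
    (i : Ins T q) (i' : Ins T' q) : T = T' := by
  obtain ⟨a, b, c⟩ := T
  obtain ⟨a', b', c'⟩ := T'
  obtain ⟨⟨ha, hb, hc, hcr, o, ρ, h0, h1, h2, h3⟩, k⟩ := h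
  obtain ⟨⟨ha', hb', hc', hcr', o', ρ', h0', h1', h2', h3'⟩, k'⟩ := h'
  obtain ⟨i1, i2, i3⟩ := i
  obtain ⟨j1, j2, j3⟩ := i'
  simp only at ha hb hc hcr h1 h2 h3 k ha' hb' hc' hcr' h1' h2' h3' k' i1 i2 i3 j1 j2 j3
  have bary : ∀ a b c : P2, cr a b c * (d2 q o' - ρ' - (d2 q o - ρ)) =
      cr q b c * (d2 a o' - ρ' - (d2 a o - ρ)) + cr a q c * (d2 b o' - ρ' - (d2 b o - ρ)) +
        cr a b q * (d2 c o' - ρ' - (d2 c o - ρ)) := by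
    intro a b c
    unfold d2 cr
    ring
  have e := bary a b c
  have e' := bary a' b' c'
  have p1 := mul_nonneg i1.le (show 0 ≤ d2 a o' - ρ' - (d2 a o - ρ) by linarith [h0' a ha])
  have p2 := mul_nonneg i2.le (show 0 ≤ d2 b o' - ρ' - (d2 b o - ρ) by linarith [h0' b hb])
  have p3 := mul_nonneg i3.le (show 0 ≤ d2 c o' - ρ' - (d2 c o - ρ) by linarith [h0' c hc])
  have q1 := mul_nonneg j1.le (show 0 ≤ -(d2 a' o' - ρ' - (d2 a' o - ρ)) by linarith [h0 a' ha'])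
  have q2 := mul_nonneg j2.le (show 0 ≤ -(d2 b' o' - ρ' - (d2 b' o - ρ)) by linarith [h0 b' hb'])
  have q3 := mul_nonneg j3.le (show 0 ≤ -(d2 c' o' - ρ' - (d2 c' o - ρ)) by linarith [h0 c' hc'])
  have g1 : d2 q o' - ρ' - (d2 q o - ρ) ≤ 0 :=
    nonpos_of_mul_nonpos_right (show cr a' b' c' * _ ≤ 0 by linarith) hcr'
  have g2 := mul_nonneg hcr.le (neg_nonneg.2 g1)
  have z1 := (mul_eq_zero.1 (le_antisymm (by linarith) p1)).resolve_left i1.ne'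
  have z2 := (mul_eq_zero.1 (le_antisymm (by linarith) p2)).resolve_left i2.ne'
  have z3 := (mul_eq_zero.1 (le_antisymm (by linarith) p3)).resolve_left i3.ne'
  have m1 := hC.gen a' ha' b' hb' c' hc' a ha o' ρ' hcr'.ne' h1' h2' h3' (by linarith)
  have m2 := hC.gen a' ha' b' hb' c' hc' b hb o' ρ' hcr'.ne' h1' h2' h3' (by linarith)
  have m3 := hC.gen a' ha' b' hb' c' hc' c hc o' ρ' hcr'.ne' h1' h2' h3' (by linarith)
  clear * - m1 m2 m3 hcr hcr' k k'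
  rcases m1 with rfl | rfl | rfl <;> rcases m2 with rfl | rfl | rfl <;>
    rcases m3 with rfl | rfl | rfl <;>
    first
    | rfl
    | exfalso
      unfold cr at hcr hcr'
      linarith
    | exfalso
      rcases k with ⟨k1, k2⟩ | ⟨k1, k2⟩ <;> rcases k' with ⟨k3, k4⟩ | ⟨k3, k4⟩ <;> linarith

theorem sum_le_rel {α β γ : Type} (s : Finset α) (t : Finset β) (e1 : α → γ) (e2 : β → γ)
    (f : γ → ℝ) (hf : ∀ x, 0 ≤ f x) (hi : InjOn e1 s) (h : ∀ a ∈ s, ∃ b ∈ t, e2 b = e1 a) :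
    ∑ a ∈ s, f (e1 a) ≤ ∑ b ∈ t, f (e2 b) := by
  classical
  rw [← Finset.sum_image (f := f) hi]
  refine le_trans (Finset.sum_le_sum_of_subset_of_nonneg ?_ fun x _ _ => hf x)
    (Finset.sum_image_le_of_nonneg fun x _ => hf x)
  intro x hx
  obtain ⟨a, ha, rfl⟩ := Finset.mem_image.1 hx
  exact Finset.mem_image.2 (h a ha)

theorem count (hC : Conf Z w θ) (G G' : Finset (P2 × ℤ)) (C1 C2 : Finset (T3 × ℤ))
    (Nb : P2 → Finset P2) (h g : P2 × P2 → ℝ) (W : T3 → ℝ) (A κ : ℝ) (hA : 0 ≤ A) (hκ : 0 ≤ κ)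
    (h0 : ∀ x, 0 ≤ h x) (g0 : ∀ x, 0 ≤ g x)
    (hG : ∀ x ∈ G, x.1 ∈ Z ∧ ∀ T, Can Z w θ T → T.1 = x.1 → (T, x.2) ∈ C1)
    (hC1 : ∀ y ∈ C1, ∀ i, ((ed y.1 i).1, y.2) ∈ G' ∧ (ed y.1 i).2 ∈ Nb (ed y.1 i).1)
    (hC2 : ∀ y ∈ C2, Can Z w θ y.1) (h12 : C1 ⊆ C2)
    (hn : ∀ y ∈ C1, ∀ i T j, Can Z w θ T → ed T j = (ed y.1 i).swap → (T, y.2) ∈ C2)
    (tri : ∀ T, Can Z w θ T →
      A / 2 - ∑ i, h (ed T i) ≤ κ * (W T + ∑ i, g (ed T i) - ∑ i, g (ed T i).swap) ∧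
        ∑ i, g (ed T i).swap ≤ W T) :
    A * G.card - ∑ x ∈ G', ∑ y ∈ Nb x.1, h (x.1, y) ≤ κ * ∑ y ∈ C2, W y.1 := by
  classical
  have inj : InjOn (fun a : (T3 × ℤ) × Fin 3 => (ed a.1.1 a.2, a.1.2))
      (C1 ×ˢ (Finset.univ : Finset (Fin 3)) : Finset _) := by
    rintro ⟨⟨T, k⟩, i⟩ ha ⟨⟨T', k'⟩, j⟩ hb e
    obtain ⟨e1, e2⟩ := Prod.ext_iff.1 e
    obtain ⟨rfl, rfl⟩ := ed_inj hC (hC2 _ (h12 (Finset.mem_product.1 ha).1))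
      (hC2 _ (h12 (Finset.mem_product.1 hb).1)) e1
    simp only at e2
    rw [e2]
  have c1 : (G ×ˢ (Finset.univ : Finset Bool)).card ≤ C1.card := by
    refine Finset.card_le_card_of_forall_subsingleton
      (fun a y => y.1.1 = a.1.1 ∧ y.2 = a.1.2 ∧ (a.2 = true ↔ hgt θ y.1.2.1 < hgt θ y.1.1)) ?_ ?_
    · rintro ⟨x, s⟩ ha
      obtain ⟨hz, hT⟩ := hG x (Finset.mem_product.1 ha).1
      obtain ⟨T, t1, t2, t3⟩ := hC.two hz s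
      exact ⟨(T, x.2), hT T t1 t2, t2, rfl, t3⟩
    · rintro y - ⟨⟨z, k⟩, s⟩ ⟨-, a1, a2, a3⟩ ⟨⟨z', k'⟩, s'⟩ ⟨-, b1, b2, b3⟩
      simp only at a1 a2 a3 b1 b2 b3
      rw [← a1, ← a2, ← b1, ← b2, Bool.eq_iff_iff.2 (a3.trans b3.symm)]
  rw [Finset.card_product, Finset.card_univ, Fintype.card_bool] at c1
  have c1' : A * G.card ≤ ∑ _y ∈ C1, A / 2 := by
    rw [Finset.sum_const, nsmul_eq_mul]
    have : (G.card : ℝ) * 2 ≤ C1.card := by exact_mod_cast c1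
    nlinarith
  have c2 := sum_le_rel (C1 ×ˢ (Finset.univ : Finset (Fin 3))) (G'.sigma fun x => Nb x.1)
    (fun a => (ed a.1.1 a.2, a.1.2)) (fun b => ((b.1.1, b.2), b.1.2)) (fun x => h x.1)
    (fun x => h0 _) inj (by
      rintro ⟨y, i⟩ ha
      obtain ⟨a1, a2⟩ := hC1 y (Finset.mem_product.1 ha).1 i
      exact ⟨⟨((ed y.1 i).1, y.2), (ed y.1 i).2⟩, Finset.mem_sigma.2 ⟨a1, a2⟩, rfl⟩)
  have c3 := sum_le_rel (C1 ×ˢ (Finset.univ : Finset (Fin 3)))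
    (C2 ×ˢ (Finset.univ : Finset (Fin 3)))
    (fun a => (ed a.1.1 a.2, a.1.2)) (fun a => ((ed a.1.1 a.2).swap, a.1.2)) (fun x => g x.1)
    (fun x => g0 _) inj (by
      rintro ⟨y, i⟩ ha
      have hy := (Finset.mem_product.1 ha).1
      obtain ⟨T, j, t1, t2⟩ := (hC2 y (h12 hy)).nbr hC i
      refine ⟨((T, y.2), j), Finset.mem_product.2 ⟨hn y hy i T j t1 t2, Finset.mem_univ _⟩, ?_⟩
      simp only [t2, Prod.swap_swap])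
  rw [Finset.sum_product, Finset.sum_sigma] at c2
  rw [Finset.sum_product, Finset.sum_product] at c3
  simp only at c2 c3
  have c4 : ∑ y ∈ C1, (A / 2 - ∑ i, h (ed y.1 i)) ≤
      ∑ y ∈ C1, κ * (W y.1 + ∑ i, g (ed y.1 i) - ∑ i, g (ed y.1 i).swap) :=
    Finset.sum_le_sum fun y hy => (tri y.1 (hC2 y (h12 hy))).1
  have c5 : ∑ y ∈ C1, (W y.1 - ∑ i, g (ed y.1 i).swap) ≤
      ∑ y ∈ C2, (W y.1 - ∑ i, g (ed y.1 i).swap) :=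
    Finset.sum_le_sum_of_subset_of_nonneg h12 fun y hy _ => sub_nonneg.2 (tri y.1 (hC2 y hy)).2
  rw [← Finset.mul_sum] at c4
  simp only [Finset.sum_sub_distrib, Finset.sum_add_distrib] at c4 c5
  have c6 := mul_le_mul_of_nonneg_left (show ∑ y ∈ C1, W y.1 + ∑ y ∈ C1, ∑ i, g (ed y.1 i) -
    ∑ y ∈ C1, ∑ i, g (ed y.1 i).swap ≤ ∑ y ∈ C2, W y.1 by linarith) hκ
  linarith

end Pool.Agent.Lib.MP_f3b2fd_co
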