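import Mathlib
import Pool.Agent.Lib.MP_f3b2fd_co.SPCount
import Pool.Agent.Lib.MP_f3b2fd_co.Gain

set_option autoImplicit false

open Set Real

namespace Pool.Agent.Lib.MP_f3b2fd_co

/-- Vertical strings of period `p` over the points of `Z` with phases `φ` form a packing. -/
structure Pk (Z : Set P2) (φ : P2 → ℝ) (p : ℝ) : Prop where
  p2 : 2 ≤ p
  p3 : p ≤ 13 / 5
  f0 : ∀ a, 0 ≤ φ a
  f1 : ∀ a, φ a < p
  pk : ∀ a ∈ Z, ∀ b ∈ Z, a ≠ b → ∀ k : ℤ, 4 ≤ d2 a b + (φ a - φ b + k * p) ^ 2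

variable {Z : Set P2} {w φ : P2 → ℝ} {θ p : ℝ}

theorem Pk.two (h : Pk Z φ p) {a b : P2} (ha : a ∈ Z) (hb : b ∈ Z) (hne : a ≠ b) :
    4 ≤ d2 a b + |φ a - φ b| ^ 2 ∧ 4 ≤ d2 a b + (p - |φ a - φ b|) ^ 2 := by
  have h0 := h.pk a ha b hb hne 0
  have h1 := h.pk a ha b hb hne 1
  have h2 := h.pk a ha b hb hne (-1)
  push_cast at h0 h1 h2
  rcases abs_cases (φ a - φ b) with ⟨e, -⟩ | ⟨e, -⟩ <;> rw [e] <;> constructor <;> linarith

theorem Pk.low (h : Pk Z φ p) {a b : P2} (ha : a ∈ Z) (hb : b ∈ Z) (hne : a ≠ b) :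
    4 - p ^ 2 / 4 ≤ d2 a b := by
  obtain ⟨h1, h2⟩ := h.two ha hb hne
  have h3 : |φ a - φ b| ≤ p := abs_le.2 ⟨by linarith [h.f0 a, h.f1 b], by linarith [h.f0 b, h.f1 a]⟩
  rcases le_total |φ a - φ b| (p / 2) with h4 | h4
  · have := pow_le_pow_left₀ (abs_nonneg _) h4 2
    linarith
  · have := pow_le_pow_left₀ (sub_nonneg.2 h3) (show p - |φ a - φ b| ≤ p / 2 by linarith) 2
    linarith

theorem Pk.sq (h : Pk Z φ p) : 4 ≤ p ^ 2 ∧ p ^ 2 ≤ 169 / 25 := by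
  constructor <;> nlinarith [h.p2, h.p3]

theorem Pk.sep (h : Pk Z φ p) : Sep Z := fun a ha b hb hne => by
  linarith [h.low ha hb hne, h.sq.2]

theorem Pk.saturate (h : Pk Z φ p) :
    ∃ M, Z ⊆ M ∧ Pk M φ p ∧ ∀ q : P2, ∃ a ∈ M, d2 a q < 4 := by
  obtain ⟨M, hM, hmax⟩ := zorn_subset_nonempty {Y | Pk Y φ p} (by
    intro c hc hch _
    refine ⟨⋃₀ c, ⟨h.p2, h.p3, h.f0, h.f1, ?_⟩, fun s hs => subset_sUnion_of_mem hs⟩
    rintro a ⟨s, hs, ha⟩ b ⟨t, ht, hb⟩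
    rcases hch.total hs ht with h1 | h1
    · exact (hc ht).pk a (h1 ha) b hb
    · exact (hc hs).pk a ha b (h1 hb)) Z h
  refine ⟨M, hM, hmax.prop, fun q => ?_⟩
  by_contra hn
  push Not at hn
  have h1 : Pk (insert q M) φ p := by
    refine ⟨h.p2, h.p3, h.f0, h.f1, ?_⟩
    rintro a (rfl | ha) b (rfl | hb) hne k
    · exact absurd rfl hne
    · have := hn b hb
      rw [d2_comm] at this
      linarith [sq_nonneg (φ a - φ b + k * p)]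
    · linarith [hn a ha, sq_nonneg (φ a - φ b + k * p)]
    · exact hmax.prop.pk a ha b hb hne k
  have h2 := hn q (hmax.le_of_ge h1 (subset_insert q M) (mem_insert q M))
  rw [d2_self] at h2
  linarith

theorem Del.tri (hC : Conf Z w θ) (hP : Pk Z φ p) {a b c : P2} (h : Del Z w a b c) :
    Tri (p ^ 2) (d2 a b) (d2 b c) (d2 c a) :=
  ⟨hP.sq.1, hP.sq.2, hP.low h.1 h.2.1 h.ne, hP.low h.2.1 h.2.2.1 h.rot.ne,
    hP.low h.2.2.1 h.1 h.rot.rot.ne, h.side hC, h.rot.side hC, h.rot.rot.side hC, h.rad hC⟩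

open Classical in
/-- The amount transferred across an oriented edge to the triangle on its left. -/
noncomputable def giv (Z : Set P2) (w : P2 → ℝ) (p : ℝ) (e : P2 × P2) : ℝ :=
  if ∃ c, Del Z w e.1 e.2 c ∧ (p * cr e.1 e.2 c / 2) ^ 2 < 25 / 3 ∧ 29 / 5 < d2 e.1 e.2 then 4 / 5
  else 0

theorem giv_nonneg (e : P2 × P2) : 0 ≤ giv Z w p e := by
  unfold giv
  split_ifs <;> norm_num

theorem vol_sq (p : ℝ) (a b c : P2) :
    (p * cr a b c / 2) ^ 2 = p ^ 2 * Qf (d2 a b) (d2 b c) (d2 c a) / 16 := by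
  rw [Qf_cr]
  ring

theorem Del.gives (hC : Conf Z w θ) (hP : Pk Z φ p) {a b c : P2} (h : Del Z w a b c) :
    giv Z w p (b, a) = 0 ∨ (giv Z w p (b, a) = 4 / 5 ∧ 38 / 5 - 5 / 8 * (p ^ 2 - 4) ≤ d2 a b ∧
      d2 a b ≤ d2 b c + d2 c a + 1 / 1000) := by
  unfold giv
  split_ifs with h1
  · obtain ⟨c', h2, h3, h4⟩ := h1
    simp only at h2 h3 h4
    rw [vol_sq, ← Qf_rot] at h3
    obtain ⟨n1, n2, n3⟩ := needy (h2.tri hC hP).rot h4 h3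
    rw [Qf_rot, Qf_cr] at n3
    refine Or.inr ⟨rfl, by rwa [d2_comm], h2.donor hC h n1 (le_of_sq h2.2.2.2.1.le ?_)⟩
    have := mul_le_mul_of_nonneg_right hP.sq.2 (sq_nonneg (cr b a c'))
    linarith
  · exact Or.inl rfl

theorem Del.gets {a b c : P2} (h : Del Z w a b c) (h1 : (p * cr a b c / 2) ^ 2 < 25 / 3)
    (h2 : 29 / 5 < d2 a b) : giv Z w p (a, b) = 4 / 5 := by
  unfold giv
  rw [if_pos ⟨c, h, h1, h2⟩]

/-- The normalised cap volume as a function of the squared distance of the centres. -/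
noncomputable def kf (l s : ℝ) : ℝ := 2 * capV (1 + l) (√s / 2) / Wv l

theorem kf_nonneg {l : ℝ} (h0 : 0 < l) (h1 : l ≤ 1 / 20) (s : ℝ) : 0 ≤ kf l s :=
  div_nonneg (mul_nonneg two_pos.le (capV_nonneg (by linarith) (by positivity)))
    (Wv_pos h0 (by linarith)).le

theorem sqrt4 : √4 = 2 := by
  rw [show (4 : ℝ) = 2 ^ 2 by norm_num, Real.sqrt_sq (by norm_num)]

theorem kf_four {l : ℝ} (h0 : 0 < l) (h1 : l ≤ 1 / 20) : kf l 4 ≤ 171 / 50000 := by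
  rw [kf, sqrt4, div_self two_ne_zero, div_le_iff₀ (Wv_pos h0 (by linarith)), cap_one h0, Wv]
  have hC : 2 * (l ^ 2 * (3 + 2 * l) / 3) ≤
      171 / 50000 * (4 / 3 * (1 + 3 * l - 6 * l ^ 2 - 5 * l ^ 3)) := by
    nlinarith [mul_pos h0 h0, mul_nonneg h0.le (sub_nonneg.2 h1),
      mul_nonneg (mul_pos h0 h0).le (sub_nonneg.2 h1)]
  have := mul_le_mul_of_nonneg_left hC pi_pos.le
  linarith

theorem kf_diff {l : ℝ} (h0 : 0 < l) (h1 : l ≤ 1 / 20) (s : ℝ) (hs : 4 ≤ s) :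
    kf l 4 - kf l s ≤ 17 / 1000 * (s - 4) := by
  have hn : 2 ≤ √s := Real.le_sqrt_of_sq_le (by linarith)
  have e : √s ^ 2 = s := Real.sq_sqrt (by linarith)
  obtain ⟨-, d1⟩ := cap_diff (h := √s / 2) h0 (by linarith)
  rw [kf, kf, sqrt4, div_self two_ne_zero, ← sub_div, div_le_iff₀ (Wv_pos h0 (by linarith)), Wv]
  have hB : (2 * l + l ^ 2) / 4 ≤ 17 / 1000 * (4 / 3 * (1 + 3 * l - 6 * l ^ 2 - 5 * l ^ 3)) := by
    nlinarith [mul_pos h0 h0, mul_nonneg h0.le (sub_nonneg.2 h1),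
      mul_nonneg (mul_pos h0 h0).le (sub_nonneg.2 h1)]
  have h4 : √s - 2 ≤ (s - 4) / 4 := by nlinarith [sq_nonneg (√s - 2)]
  have h5 := mul_le_mul_of_nonneg_left h4 (show 0 ≤ π * (2 * l + l ^ 2) by positivity)
  have h6 := mul_le_mul_of_nonneg_left hB (mul_nonneg pi_pos.le (sub_nonneg.2 hs))
  linarith

/-- The two caps cut off by a neighbouring string. -/
noncomputable def hf (l p : ℝ) (φ : P2 → ℝ) (e : P2 × P2) : ℝ :=
  Wv l / 2 * ce (kf l) p (d2 e.1 e.2) |φ e.1 - φ e.2|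

theorem hf_nonneg {l : ℝ} (h0 : 0 < l) (h1 : l ≤ 1 / 20) (e : P2 × P2) : 0 ≤ hf l p φ e :=
  mul_nonneg (div_nonneg (Wv_pos h0 (by linarith)).le two_pos.le)
    (add_nonneg (kf_nonneg h0 h1 _) (kf_nonneg h0 h1 _))

theorem Can.main (hC : Conf Z w θ) (hP : Pk Z φ p) {l : ℝ} (h0 : 0 < l) (h1 : l ≤ 1 / 20)
    {T : T3} (h : Can Z w θ T) :
    Wv l * (1 + 6 * kf l 4 - kf l (p ^ 2)) / 2 - ∑ i, hf l p φ (ed T i) ≤
      Wv l / √32 * (p * cr T.1 T.2.1 T.2.2 / 2 + ∑ i, giv Z w p (ed T i) -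
        ∑ i, giv Z w p (ed T i).swap) ∧
      ∑ i, giv Z w p (ed T i).swap ≤ p * cr T.1 T.2.1 T.2.2 / 2 := by
  obtain ⟨a, b, c⟩ := T
  have d := h.1
  simp only at d
  have hW0 : 0 ≤ p * cr a b c / 2 :=
    div_nonneg (mul_nonneg (by linarith [hP.p2]) d.2.2.2.1.le) two_pos.le
  obtain ⟨g1, g1'⟩ := hP.two d.1 d.2.1 d.ne
  obtain ⟨g2, g2'⟩ := hP.two d.2.1 d.2.2.1 d.rot.ne
  obtain ⟨g3, g3'⟩ := hP.two d.2.2.1 d.1 d.rot.rot.ne
  obtain ⟨k1, k2⟩ := tri_abs (d.tri hC hP) hW0 (vol_sq p a b c)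
    (F_le (kf_nonneg h0 h1) (kf_four h0 h1) p (d2 a b) (d2 b c) (d2 c a) |φ a - φ b| |φ b - φ c|
      |φ c - φ a|)
    (fun c1 c2 c3 => F_phase (kf_nonneg h0 h1) (kf_four h0 h1) (kf_diff h0 h1) hP.p2 hP.p3
      (hP.f0 a) (hP.f1 a) (hP.f0 b) (hP.f1 b) (hP.f0 c) (hP.f1 c) g1 g1' g2 g2' g3 g3' c1 c2 c3
      hW0 (vol_sq p a b c))
    (giv_nonneg (a, b)) (giv_nonneg (b, c)) (giv_nonneg (c, a))
    d.gets (fun q => d.rot.gets (by rwa [cr_rot]))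
    (fun q => d.rot.rot.gets (by rwa [← cr_rot]))
    (d.gives hC hP) (d.rot.gives hC hP) (d.rot.rot.gives hC hP)
  simp only [Fin.sum_univ_three, ed, Matrix.cons_val_zero, Matrix.cons_val_one, Matrix.cons_val,
    Prod.swap_prod_mk, hf]
  refine ⟨?_, k2⟩
  have e : √32 = 2 * √8 := by
    rw [show (32 : ℝ) = 2 ^ 2 * 8 by norm_num, Real.sqrt_mul (by norm_num),
      Real.sqrt_sq (by norm_num)]
  have h8 : (0 : ℝ) < √8 := Real.sqrt_pos.2 (by norm_num)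
  have := mul_le_mul_of_nonneg_left k1
    (div_nonneg (Wv_pos h0 (by linarith)).le (Real.sqrt_nonneg 32))
  refine le_trans (le_of_eq ?_) this
  rw [e]
  field_simp

end Pool.Agent.Lib.MP_f3b2fd_co
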