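import Mathlib
import Pool.Agent.Lib.MP_f3b2fd_co.SPTri
import Pool.Agent.Lib.MP_f3b2fd_co.Main

set_option autoImplicit false

open MeasureTheory Set Real

namespace Pool.Agent.Lib.MP_f3b2fd_co

/-- The point of space over `z` at height `s`. -/
noncomputable def pt (z : P2) (s : ℝ) : E3 := !₂[z.1, z.2, s]

theorem pt_sub_sq (a b : P2) (s t : ℝ) : ‖pt a s - pt b t‖ ^ 2 = d2 a b + (s - t) ^ 2 := by
  rw [EuclideanSpace.real_norm_sq_eq, Fin.sum_univ_three]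
  simp [pt, d2]

theorem pt_eq (x : E3) : pt (x 0, x 1) (x 2) = x := by
  ext i
  fin_cases i <;> rfl

theorem ball_real' (x : E3) (r : ℝ) (hr : 0 ≤ r) :
    volume (Metric.ball x r) = ENNReal.ofReal (r ^ 3 * (π * 4 / 3)) := by
  rw [EuclideanSpace.volume_ball_fin_three, ← ENNReal.ofReal_pow hr,
    ← ENNReal.ofReal_mul (by positivity)]

theorem pack_vol {ι : Type} (s : Finset ι) (P : ι → Set E3) (f : ι → ℝ) (B : Set E3) (M : ℝ)
    (hM : 0 ≤ M) (hB : volume B ≤ ENNReal.ofReal M) (hm : ∀ i ∈ s, MeasurableSet (P i))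
    (hd : (s : Set ι).PairwiseDisjoint P) (hs : ∀ i ∈ s, P i ⊆ B) (hf : ∀ i ∈ s, 0 ≤ f i)
    (hv : ∀ i ∈ s, ENNReal.ofReal (f i) ≤ volume (P i)) : ∑ i ∈ s, f i ≤ M := by
  rw [← ENNReal.ofReal_le_ofReal_iff hM, ENNReal.ofReal_sum_of_nonneg hf]
  refine (Finset.sum_le_sum hv).trans ?_
  rw [← measure_biUnion_finset hd hm]
  exact (measure_mono (iUnion₂_subset hs)).trans hB

theorem cell_vol (r : ℝ) (hr0 : 0 ≤ r) (hr : r ^ 2 ≤ 4 / 3) {ι : Type} (s : Finset ι)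
    (v : ι → E3) (h1 : ∀ i ∈ s, 2 ≤ ‖v i‖) (h2 : ∀ i ∈ s, ∀ j ∈ s, i ≠ j → 2 ≤ ‖v i - v j‖) :
    volume {x : E3 | ‖x‖ ≤ r ∧ ∀ i ∈ s, ‖x‖ ≤ ‖x - v i‖} ≤
      ENNReal.ofReal (r ^ 3 * (π * 4 / 3) - ∑ i ∈ s, capV r (‖v i‖ / 2)) ∧
      0 ≤ r ^ 3 * (π * 4 / 3) - ∑ i ∈ s, capV r (‖v i‖ / 2) := by
  set D := {x : E3 | ‖x‖ ≤ r ∧ ∀ i ∈ s, ‖x‖ ≤ ‖x - v i‖} with hD
  set C : ι → Set E3 := fun i => {x : E3 | ‖x‖ ≤ r ∧ ‖x - v i‖ < ‖x‖} with hC
  have hCm : ∀ i ∈ s, MeasurableSet (C i) := fun i _ => by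
    have h1 : MeasurableSet {x : E3 | ‖x‖ ≤ r} := measurableSet_le (by fun_prop) (by fun_prop)
    have h2 : MeasurableSet {x : E3 | ‖x - v i‖ < ‖x‖} :=
      measurableSet_lt (by fun_prop) (by fun_prop)
    exact h1.inter h2
  have hdis : (s : Set ι).PairwiseDisjoint C := by
    intro i hi j hj hij
    refine Set.disjoint_left.2 ?_
    rintro x ⟨hx, k1⟩ ⟨-, k2⟩
    exact three_points r hr x (v i) (v j) (h1 i hi) (h1 j hj) (h2 i hi j hj hij) hx k1 k2
  have hnn : ∀ i ∈ s, 0 ≤ capV r (‖v i‖ / 2) := fun i _ => capV_nonneg hr0 (by positivity)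
  have hsum : volume (⋃ i ∈ s, C i) = ENNReal.ofReal (∑ i ∈ s, capV r (‖v i‖ / 2)) := by
    rw [measure_biUnion_finset hdis hCm, ENNReal.ofReal_sum_of_nonneg hnn]
    refine Finset.sum_congr rfl fun i hi => cap_open r hr0 (v i) fun e => ?_
    have := h1 i hi
    rw [e, norm_zero] at this
    linarith
  have hdj : Disjoint D (⋃ i ∈ s, C i) := by
    refine Set.disjoint_left.2 ?_
    intro x hx hx'
    obtain ⟨i, hi, hi'⟩ := mem_iUnion₂.1 hx'
    exact absurd (hx.2 i hi) (not_le.2 hi'.2)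
  have key : volume D + ENNReal.ofReal (∑ i ∈ s, capV r (‖v i‖ / 2)) ≤
      ENNReal.ofReal (r ^ 3 * (π * 4 / 3)) := by
    rw [← hsum, ← measure_union hdj (Finset.measurableSet_biUnion s hCm), ← ball_real r hr0]
    refine measure_mono ?_
    rintro x (hx | hx)
    · exact mem_closedBall_zero_iff.2 hx.1
    · obtain ⟨i, -, hi⟩ := mem_iUnion₂.1 hx
      exact mem_closedBall_zero_iff.2 hi.1
  constructor
  · rw [ENNReal.ofReal_sub _ (Finset.sum_nonneg hnn)]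
    exact ENNReal.le_sub_of_add_le_right ENNReal.ofReal_ne_top key
  · exact sub_nonneg.2 ((ENNReal.ofReal_le_ofReal_iff (by positivity)).1 (le_add_self.trans key))

theorem std_prism : ENNReal.ofReal (1 / 2) ≤
    volume {x : Fin 3 → ℝ | 0 < x 0 ∧ 0 < x 1 ∧ x 0 + x 1 < 1 ∧ 0 < x 2 ∧ x 2 < 1} := by
  set S : Set (ℝ × (Fin 2 → ℝ)) :=
    {p | 0 < p.1 ∧ 0 < p.2 0 ∧ p.1 + p.2 0 < 1 ∧ 0 < p.2 1 ∧ p.2 1 < 1} with hS
  have hSm : MeasurableSet S := by
    have a1 : MeasurableSet {p : ℝ × (Fin 2 → ℝ) | 0 < p.1} :=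
      measurableSet_lt (by fun_prop) (by fun_prop)
    have a2 : MeasurableSet {p : ℝ × (Fin 2 → ℝ) | 0 < p.2 0} :=
      measurableSet_lt (by fun_prop) (by fun_prop)
    have a3 : MeasurableSet {p : ℝ × (Fin 2 → ℝ) | p.1 + p.2 0 < 1} :=
      measurableSet_lt (by fun_prop) (by fun_prop)
    have a4 : MeasurableSet {p : ℝ × (Fin 2 → ℝ) | 0 < p.2 1} :=
      measurableSet_lt (by fun_prop) (by fun_prop)
    have a5 : MeasurableSet {p : ℝ × (Fin 2 → ℝ) | p.2 1 < 1} :=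
      measurableSet_lt (by fun_prop) (by fun_prop)
    exact a1.inter (a2.inter (a3.inter (a4.inter a5)))
  have h1 := (volume_preserving_piFinSuccAbove (fun _ : Fin 3 => ℝ) 0).measure_preimage
    (s := S) hSm.nullMeasurableSet
  have h2 : (MeasurableEquiv.piFinSuccAbove (fun _ : Fin 3 => ℝ) 0) ⁻¹' S =
      {x : Fin 3 → ℝ | 0 < x 0 ∧ 0 < x 1 ∧ x 0 + x 1 < 1 ∧ 0 < x 2 ∧ x 2 < 1} := by
    ext x
    rfl
  have h3 : ∫⁻ t in Ioc (0 : ℝ) 1, ENNReal.ofReal (1 - t) = ENNReal.ofReal (1 / 2) := by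
    rw [← ofReal_integral_eq_lintegral_ofReal]
    · rw [← intervalIntegral.integral_of_le zero_le_one,
        intervalIntegral.integral_sub (by simp) (by simp), integral_id]
      norm_num
    · exact (Continuous.integrableOn_Ioc (by fun_prop))
    · refine (ae_restrict_iff' measurableSet_Ioc).2 (Filter.Eventually.of_forall fun t ht => ?_)
      exact sub_nonneg.2 ht.2
  rw [← h2, h1, Measure.volume_eq_prod, Measure.prod_apply hSm, ← h3,
    ← lintegral_indicator measurableSet_Ioc]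
  refine lintegral_mono fun t => ?_
  by_cases ht : t ∈ Ioc (0 : ℝ) 1
  · rw [indicator_of_mem ht]
    have e := Real.volume_pi_Ioo (a := fun _ : Fin 2 => (0 : ℝ)) (b := ![1 - t, 1])
    simp only [Fin.prod_univ_two, Matrix.cons_val_zero, Matrix.cons_val_one, sub_zero,
      ENNReal.ofReal_one, mul_one] at e
    rw [← e]
    refine measure_mono fun y hy => ?_
    have y0 := hy 0 (mem_univ _)
    have y1 := hy 1 (mem_univ _)
    simp only [Matrix.cons_val_zero, Matrix.cons_val_one, mem_Ioo] at y0 y1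
    exact ⟨ht.1, y0.1, by linarith [y0.2], y1.1, y1.2⟩
  · rw [indicator_of_notMem ht]
    exact zero_le

/-- The open prism over a triangle between two consecutive levels. -/
def Pr (p : ℝ) (y : T3 × ℤ) : Set E3 :=
  {x | Ins y.1 (x 0, x 1) ∧ y.2 * p < x 2 ∧ x 2 < (y.2 + 1) * p}

theorem Pr_meas (p : ℝ) (y : T3 × ℤ) : MeasurableSet (Pr p y) := by
  have a1 : MeasurableSet {x : E3 | 0 < cr (x 0, x 1) y.1.2.1 y.1.2.2} :=
    measurableSet_lt (by fun_prop) (by unfold cr; fun_prop)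
  have a2 : MeasurableSet {x : E3 | 0 < cr y.1.1 (x 0, x 1) y.1.2.2} :=
    measurableSet_lt (by fun_prop) (by unfold cr; fun_prop)
  have a3 : MeasurableSet {x : E3 | 0 < cr y.1.1 y.1.2.1 (x 0, x 1)} :=
    measurableSet_lt (by fun_prop) (by unfold cr; fun_prop)
  have a4 : MeasurableSet {x : E3 | y.2 * p < x 2} := measurableSet_lt (by fun_prop) (by fun_prop)
  have a5 : MeasurableSet {x : E3 | x 2 < (y.2 + 1) * p} :=
    measurableSet_lt (by fun_prop) (by fun_prop)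
  exact (a1.inter (a2.inter a3)).inter (a4.inter a5)

theorem Pr_vol {p : ℝ} (hp : 0 < p) (y : T3 × ℤ) (h : 0 < cr y.1.1 y.1.2.1 y.1.2.2) :
    ENNReal.ofReal (p * cr y.1.1 y.1.2.1 y.1.2.2 / 2) ≤ volume (Pr p y) := by
  obtain ⟨⟨a, b, c⟩, k⟩ := y
  simp only at h ⊢
  set M : Matrix (Fin 3) (Fin 3) ℝ :=
    !![b.1 - a.1, c.1 - a.1, 0; b.2 - a.2, c.2 - a.2, 0; 0, 0, p] with hM
  have hdet : M.det = p * cr a b c := by
    rw [Matrix.det_fin_three]
    simp [hM, cr]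
    ring
  have h1 := Measure.addHaar_image_linearMap volume (Matrix.toLin' M)
    {x : Fin 3 → ℝ | 0 < x 0 ∧ 0 < x 1 ∧ x 0 + x 1 < 1 ∧ 0 < x 2 ∧ x 2 < 1}
  rw [LinearMap.det_toLin', hdet, abs_of_pos (mul_pos hp h)] at h1
  rw [← (PiLp.volume_preserving_toLp (Fin 3)).measure_preimage (Pr_meas p _).nullMeasurableSet,
    ← measure_preimage_add volume ![a.1, a.2, k * p], div_eq_mul_one_div,
    ENNReal.ofReal_mul (mul_pos hp h).le]
  refine le_trans (mul_le_mul_right std_prism _) ?_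
  rw [← h1]
  refine measure_mono ?_
  rintro _ ⟨u, ⟨u0, u1, u2, u3, u4⟩, rfl⟩
  simp only [mem_preimage, Pr, Ins, mem_ofPred_eq, Matrix.toLin'_apply, Pi.add_apply,
    Matrix.mulVec, dotProduct, Fin.sum_univ_three, hM]
  simp only [Matrix.of_apply, Matrix.cons_val', Matrix.cons_val_zero, Matrix.cons_val_one,
    Matrix.cons_val_fin_one, Matrix.cons_val]
  have e1 := mul_pos h u0
  have e2 := mul_pos h u1
  have e3 := mul_pos h (sub_pos.2 u2)
  have e4 := mul_pos hp u3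
  have e5 := mul_pos hp (sub_pos.2 u4)
  unfold cr at *
  refine ⟨⟨?_, ?_, ?_⟩, ?_, ?_⟩ <;> linarith

theorem Ins.near {T : T3} {q : P2} (h : Ins T q) {D : ℝ} (h1 : d2 T.2.1 T.1 ≤ D)
    (h2 : d2 T.2.2 T.1 ≤ D) : d2 q T.1 ≤ D := by
  obtain ⟨a, b, c⟩ := T
  obtain ⟨i1, i2, i3⟩ := h
  simp only at *
  have hD := (d2_nonneg _ _).trans h1
  have e0 : cr a b c = cr q b c + cr a q c + cr a b q := by unfold cr; ring
  have e1 : cr a b c ^ 2 * d2 q a + cr a q c * cr a b q * d2 b c =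
      (cr a q c + cr a b q) * (cr a q c * d2 b a + cr a b q * d2 c a) := by
    unfold cr d2
    ring
  have e2 := mul_nonneg (mul_pos i2 i3).le (d2_nonneg b c)
  have e3 : cr a q c * d2 b a + cr a b q * d2 c a ≤ cr a b c * D := by
    have a1 := mul_le_mul_of_nonneg_left h1 i2.le
    have a2 := mul_le_mul_of_nonneg_left h2 i3.le
    have a3 := mul_nonneg i1.le hD
    rw [e0]
    linarith
  have e4 : (cr a q c + cr a b q) * (cr a q c * d2 b a + cr a b q * d2 c a) ≤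
      cr a b c * (cr a b c * D) :=
    mul_le_mul (by linarith) e3 (add_nonneg (mul_nonneg i2.le (d2_nonneg _ _))
      (mul_nonneg i3.le (d2_nonneg _ _))) (by linarith)
  exact le_of_mul_le_mul_left (a := cr a b c ^ 2) (by linarith) (pow_pos (by linarith) 2)

end Pool.Agent.Lib.MP_f3b2fd_co
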