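import Mathlib
import Pool.Agent.Lib.MP_f3b2fd_co.SPSpace

set_option autoImplicit false

open MeasureTheory Set Real Filter Topology

namespace Pool.Agent.Lib.MP_f3b2fd_co

/-- The centre of the ball number `x.2` of the string `x.1`. -/
noncomputable def pos (φ : P2 → ℝ) (p : ℝ) (x : P2 × ℤ) : E3 := pt x.1 (φ x.1 + x.2 * p)

variable {Z : Set P2} {w φ : P2 → ℝ} {θ p : ℝ}

theorem pos_sq (x y : P2 × ℤ) : ‖pos φ p x - pos φ p y‖ ^ 2 =
    d2 x.1 y.1 + (φ x.1 - φ y.1 + ((x.2 - y.2 : ℤ) : ℝ) * p) ^ 2 := by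
  rw [pos, pos, pt_sub_sq]
  push_cast
  ring

theorem pos_sep (hP : Pk Z φ p) {x y : P2 × ℤ} (hx : x.1 ∈ Z) (hy : y.1 ∈ Z) (hne : x ≠ y) :
    2 ≤ ‖pos φ p x - pos φ p y‖ := by
  refine le_of_sq (norm_nonneg _) ?_
  rw [pos_sq]
  by_cases e : x.1 = y.1
  · have h1 : x.2 - y.2 ≠ 0 := sub_ne_zero.2 fun e' => hne (Prod.ext e e')
    have h2 : (1 : ℝ) ≤ ((x.2 - y.2 : ℤ) : ℝ) ^ 2 := by
      have : 1 ≤ (x.2 - y.2) ^ 2 := Int.add_one_le_of_lt (lt_of_le_of_ne (sq_nonneg _)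
        (pow_ne_zero 2 h1).symm)
      exact_mod_cast this
    rw [e, d2_self, sub_self, zero_add, zero_add, mul_pow]
    nlinarith [hP.sq.1]
  · linarith [hP.pk _ hx _ hy e (x.2 - y.2)]

theorem pos_near (hP : Pk Z φ p) {a b : P2} (k : ℤ) (h : d2 a b ≤ 1601 / 100) :
    ‖pos φ p (a, k)‖ ≤ ‖pos φ p (b, k)‖ + 5 := by
  have h1 : ‖pos φ p (a, k) - pos φ p (b, k)‖ ≤ 5 := by
    refine le_of_sq (by norm_num) ?_
    rw [pos_sq]
    simp only [sub_self, Int.cast_zero, zero_mul, add_zero]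
    nlinarith [hP.f0 a, hP.f0 b, hP.f1 a, hP.f1 b, hP.p3]
  linarith [norm_sub_norm_le (pos φ p (a, k)) (pos φ p (b, k))]

theorem pos_norm (x : P2 × ℤ) : ‖pos φ p x‖ ^ 2 = d2 x.1 0 + (φ x.1 + x.2 * p) ^ 2 := by
  have h := pt_sub_sq x.1 0 (φ x.1 + x.2 * p) 0
  have e : pt 0 0 = 0 := by
    ext i
    fin_cases i <;> rfl
  rwa [e, sub_zero, sub_zero] at h

theorem Pk.finG (hP : Pk Z φ p) (R : ℝ) : {x : P2 × ℤ | x.1 ∈ Z ∧ ‖pos φ p x‖ < R}.Finite := by
  refine ((hP.sep.finite 0 (R ^ 2)).prod (finite_Icc (-(⌈R⌉ + 3)) (⌈R⌉ + 3))).subset ?_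
  rintro ⟨z, k⟩ ⟨hz, h⟩
  have h1 := pow_le_pow_left₀ (norm_nonneg _) h.le 2
  have hR : 0 ≤ R := (norm_nonneg _).trans h.le
  rw [pos_norm] at h1
  simp only at hz h1
  have h2 := abs_le_of_sq_le_sq' (show (φ z + k * p) ^ 2 ≤ R ^ 2 by linarith [d2_nonneg z 0]) hR
  have h3 := Int.le_ceil R
  have f0 := hP.f0 z
  have f1 := hP.f1 z
  have p2 := hP.p2
  have p3 := hP.p3
  refine ⟨⟨hz, by linarith [sq_nonneg (φ z + k * p)]⟩, ?_, ?_⟩
  · have : (-(⌈R⌉ + 3) : ℝ) ≤ k := by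
      by_contra h4
      nlinarith
    exact_mod_cast this
  · have : (k : ℝ) ≤ ⌈R⌉ + 3 := by
      by_contra h4
      nlinarith
    exact_mod_cast this

theorem Pk.finC (hP : Pk Z φ p) (hC : Conf Z w θ) (R : ℝ) :
    {y : T3 × ℤ | Can Z w θ y.1 ∧ ‖pos φ p (y.1.1, y.2)‖ < R}.Finite := by
  refine (((hP.finG (R + 5)).prod ((hP.finG (R + 5)).prod (hP.finG (R + 5)))).image
    fun x => ((x.1.1, x.2.1.1, x.2.2.1), x.1.2)).subset ?_
  rintro ⟨T, k⟩ ⟨h1, h2⟩
  have n1 := pos_near hP k (h1.near hC 1).1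
  have n2 := pos_near hP k (h1.near hC 1).2
  exact ⟨((T.1, k), (T.2.1, k), (T.2.2, k)), ⟨⟨h1.1.1, by linarith⟩,
    ⟨h1.1.2.1, lt_of_le_of_lt n1 (by linarith)⟩, ⟨h1.1.2.2.1, lt_of_le_of_lt n2 (by linarith)⟩⟩,
    rfl⟩

open Classical in
/-- The neighbouring strings. -/
noncomputable def Pk.nb (hP : Pk Z φ p) (z : P2) : Finset P2 :=
  (hP.sep.finite z (1601 / 100)).toFinset.erase z

theorem Pk.mem_nb (hP : Pk Z φ p) {z y : P2} :
    y ∈ hP.nb z ↔ y ≠ z ∧ y ∈ Z ∧ d2 y z ≤ 1601 / 100 := by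
  simp [Pk.nb]

open Classical in
/-- The neighbouring balls of the ball number zero of the string `z`. -/
noncomputable def rel (φ : P2 → ℝ) (z : P2) : Bool ⊕ P2 × Bool → P2 × ℤ
  | Sum.inl true => (z, 1)
  | Sum.inl false => (z, -1)
  | Sum.inr (y, true) => (y, 0)
  | Sum.inr (y, false) => (y, if φ z ≤ φ y then -1 else 1)

/-- The index set of the neighbouring balls. -/
noncomputable def Pk.ix (hP : Pk Z φ p) (z : P2) : Finset (Bool ⊕ P2 × Bool) :=
  (Finset.univ : Finset Bool).disjSum (hP.nb z ×ˢ (Finset.univ : Finset Bool))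

theorem Pk.rel_mem (hP : Pk Z φ p) {z : P2} (hz : z ∈ Z) {i : Bool ⊕ P2 × Bool}
    (hi : i ∈ hP.ix z) : (rel φ z i).1 ∈ Z ∧ rel φ z i ≠ (z, 0) := by
  rcases i with (_ | _) | ⟨y, _ | _⟩
  · exact ⟨hz, by simp [rel]⟩
  · exact ⟨hz, by simp [rel]⟩
  · have := hP.mem_nb.1 (Finset.mem_product.1 (Finset.inr_mem_disjSum.1 hi)).1
    exact ⟨this.2.1, fun e => this.1 (Prod.ext_iff.1 e).1⟩
  · have := hP.mem_nb.1 (Finset.mem_product.1 (Finset.inr_mem_disjSum.1 hi)).1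
    exact ⟨this.2.1, fun e => this.1 (Prod.ext_iff.1 e).1⟩

theorem Pk.rel_inj (hP : Pk Z φ p) {z : P2} {i j : Bool ⊕ P2 × Bool}
    (hi : i ∈ hP.ix z) (hj : j ∈ hP.ix z) (e : rel φ z i = rel φ z j) : i = j := by
  have key : ∀ y b, Sum.inr (y, b) ∈ hP.ix z → y ≠ z := fun y b h =>
    (hP.mem_nb.1 (Finset.mem_product.1 (Finset.inr_mem_disjSum.1 h)).1).1
  have k2 : ∀ y, (if φ z ≤ φ y then (-1 : ℤ) else 1) ≠ 0 := fun y => by
    split_ifs <;> norm_num
  rcases i with (_ | _) | ⟨y, _ | _⟩ <;> rcases j with (_ | _) | ⟨y', _ | _⟩ <;>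
    simp only [rel, Prod.mk.injEq] at e <;>
    first
    | rfl
    | exact absurd e.1 (key _ _ hi)
    | exact absurd e.1.symm (key _ _ hj)
    | exact absurd e.2 (k2 _)
    | exact absurd e.2.symm (k2 _)
    | rw [e.1]
    | omega

/-- The part of an outer ball that is not closer to a neighbouring centre. -/
def Pk.cell (hP : Pk Z φ p) (l : ℝ) (z : P2) : Set E3 :=
  {x | ‖x‖ ≤ 1 + l ∧ ∀ i ∈ hP.ix z, ‖x‖ ≤ ‖x - (pos φ p (rel φ z i) - pos φ p (z, 0))‖}

theorem cap_kf {l : ℝ} (h0 : 0 < l) (h1 : l ≤ 1 / 20) (v : E3) :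
    capV (1 + l) (‖v‖ / 2) = Wv l / 2 * kf l (‖v‖ ^ 2) := by
  have := (Wv_pos h0 (by linarith)).ne'
  rw [kf, Real.sqrt_sq (norm_nonneg _)]
  field_simp

theorem Pk.cell_le (hP : Pk Z φ p) {l : ℝ} (h0 : 0 < l) (h1 : l ≤ 1 / 20) {z : P2} (hz : z ∈ Z) :
    volume (hP.cell l z) ≤ ENNReal.ofReal (Wv l * (1 + 6 * kf l 4 - kf l (p ^ 2)) -
      ∑ y ∈ hP.nb z, hf l p φ (z, y)) ∧
      0 ≤ Wv l * (1 + 6 * kf l 4 - kf l (p ^ 2)) - ∑ y ∈ hP.nb z, hf l p φ (z, y) := by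
  have h := cell_vol (1 + l) (by linarith) (by nlinarith) (hP.ix z)
    (fun i => pos φ p (rel φ z i) - pos φ p (z, 0))
    (fun i hi => pos_sep hP (hP.rel_mem hz hi).1 hz (hP.rel_mem hz hi).2)
    (fun i hi j hj hne => by
      rw [sub_sub_sub_cancel_right]
      exact pos_sep hP (hP.rel_mem hz hi).1 (hP.rel_mem hz hj).1 fun e => hne (hP.rel_inj hi hj e))
  have e : (1 + l) ^ 3 * (π * 4 / 3) - ∑ i ∈ hP.ix z,
      capV (1 + l) (‖pos φ p (rel φ z i) - pos φ p (z, 0)‖ / 2) =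
      Wv l * (1 + 6 * kf l 4 - kf l (p ^ 2)) - ∑ y ∈ hP.nb z, hf l p φ (z, y) := by
    simp only [cap_kf h0 h1, pos_sq]
    rw [Pk.ix, Finset.sum_disjSum, Finset.sum_product, Fintype.sum_bool]
    have e1 : ∑ y ∈ hP.nb z, ∑ b : Bool, Wv l / 2 * kf l (d2 (rel φ z (Sum.inr (y, b))).1 z +
        (φ (rel φ z (Sum.inr (y, b))).1 - φ z +
          (((rel φ z (Sum.inr (y, b))).2 - 0 : ℤ) : ℝ) * p) ^ 2) =
        ∑ y ∈ hP.nb z, hf l p φ (z, y) := by
      refine Finset.sum_congr rfl fun y _ => ?_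
      rw [Fintype.sum_bool, hf, ce, mul_add]
      simp only [rel]
      rw [d2_comm y z]
      congr 3
      · rw [sq_abs]
        push_cast
        ring
      · split_ifs with h
        · rw [abs_of_nonpos (by linarith)]
          push_cast
          ring
        · rw [abs_of_nonneg (by linarith)]
          push_cast
          ring
    rw [e1]
    simp only [rel, d2_self]
    have e2 : Wv l * kf l 4 = 2 * capV (1 + l) 1 := by
      have := (Wv_pos h0 (by linarith)).ne'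
      rw [kf, sqrt4, div_self two_ne_zero]
      field_simp
    have e3 : 0 + (φ z - φ z + ((1 - 0 : ℤ) : ℝ) * p) ^ 2 = p ^ 2 := by
      push_cast
      ring
    have e4 : 0 + (φ z - φ z + ((-1 - 0 : ℤ) : ℝ) * p) ^ 2 = p ^ 2 := by
      push_cast
      ring
    rw [e3, e4]
    linarith [Wv_eq h0]
  rw [← e]
  exact h

theorem Pk.cover (hP : Pk Z φ p) {l : ℝ} (h1 : l ≤ 1 / 20) (R : ℝ) :
    Metric.ball 0 R ∩ (⋃ x ∈ {x : P2 × ℤ | x.1 ∈ Z}, Metric.closedBall (pos φ p x) (1 + l)) ⊆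
      ⋃ x ∈ (hP.finG (R + 2)).toFinset, (fun y => -pos φ p x + y) ⁻¹' hP.cell l x.1 := by
  rintro y ⟨hy, hy'⟩
  obtain ⟨x, hx, hxy⟩ := mem_iUnion₂.1 hy'
  rw [mem_ball_zero_iff] at hy
  rw [Metric.mem_closedBall, dist_eq_norm] at hxy
  have hxG : x ∈ {x : P2 × ℤ | x.1 ∈ Z ∧ ‖pos φ p x‖ < R + 2} := by
    refine ⟨hx, ?_⟩
    have := norm_sub_norm_le (pos φ p x) y
    rw [norm_sub_rev] at this
    linarith
  obtain ⟨⟨z, k⟩, hz, hmin⟩ :=
    exists_min_image _ (fun x => ‖y - pos φ p x‖) (hP.finG (R + 2)) ⟨x, hxG⟩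
  have h2 := (hmin x hxG).trans hxy
  refine mem_iUnion₂.2 ⟨(z, k), (Finite.mem_toFinset _).2 hz, ?_, fun i hi => ?_⟩
  · simp only
    rwa [neg_add_eq_sub]
  · have e : -pos φ p (z, k) + y - (pos φ p (rel φ z i) - pos φ p (z, 0)) =
        y - pos φ p ((rel φ z i).1, (rel φ z i).2 + k) := by
      ext j
      fin_cases j <;> simp [pos, pt] <;> ring
    simp only at hi h2 ⊢
    rw [e, neg_add_eq_sub]
    by_cases h3 : ‖pos φ p ((rel φ z i).1, (rel φ z i).2 + k)‖ < R + 2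
    · exact hmin _ ⟨(hP.rel_mem hz.1 hi).1, h3⟩
    · have := norm_sub_norm_le (pos φ p ((rel φ z i).1, (rel φ z i).2 + k)) y
      rw [norm_sub_rev] at this
      linarith

theorem Pk.shell (hP : Pk Z φ p) {R : ℝ} (hR : 4 ≤ R) :
    (((hP.finG (R + 2)).toFinset.card : ℝ) - (hP.finG (R - 3)).toFinset.card) * (π * 4 / 3) ≤
      (R + 3) ^ 3 * (π * 4 / 3) - (R - 4) ^ 3 * (π * 4 / 3) := by
  classical
  have hsub : (hP.finG (R - 3)).toFinset ⊆ (hP.finG (R + 2)).toFinset :=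
    Finite.toFinset_subset_toFinset.2 fun x hx => ⟨hx.1, by linarith [hx.2]⟩
  have hle : (R - 4) ^ 3 * (π * 4 / 3) ≤ (R + 3) ^ 3 * (π * 4 / 3) :=
    mul_le_mul_of_nonneg_right (pow_le_pow_left₀ (by linarith) (by linarith) 3) (by positivity)
  have h := pack_vol ((hP.finG (R + 2)).toFinset \ (hP.finG (R - 3)).toFinset)
    (fun x => Metric.ball (pos φ p x) 1) (fun _ => π * 4 / 3)
    (Metric.ball 0 (R + 3) \ Metric.ball 0 (R - 4)) _ (sub_nonneg.2 hle) (by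
      rw [measure_sdiff (Metric.ball_subset_ball (by linarith))
        measurableSet_ball.nullMeasurableSet measure_ball_lt_top.ne,
        ball_real' _ _ (by linarith), ball_real' _ _ (by linarith),
        ENNReal.ofReal_sub _ (by have : 0 ≤ R - 4 := by linarith
                                 positivity)])
    (fun _ _ => measurableSet_ball) (by
      intro x hx y hy hne
      have hx' := ((Finite.mem_toFinset _).1 (Finset.mem_sdiff.1 hx).1).1
      have hy' := ((Finite.mem_toFinset _).1 (Finset.mem_sdiff.1 hy).1).1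
      refine (disjoint_ball_ball_iff one_pos one_pos).2 ?_
      rw [dist_eq_norm]
      linarith [pos_sep hP hx' hy' hne]) (by
      intro x hx y hy
      obtain ⟨a1, a2⟩ := Finset.mem_sdiff.1 hx
      rw [Finite.mem_toFinset] at a1 a2
      have a3 : R - 3 ≤ ‖pos φ p x‖ := not_lt.1 fun h => a2 ⟨a1.1, h⟩
      rw [Metric.mem_ball, dist_eq_norm] at hy
      have b1 := norm_sub_norm_le y (pos φ p x)
      have b2 := norm_sub_norm_le (pos φ p x) y
      rw [norm_sub_rev] at b2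
      simp only [Set.mem_sdiff, mem_ball_zero_iff, not_lt]
      constructor <;> linarith [a1.2])
    (fun _ _ => by positivity) (fun _ _ => by rw [ball_real' _ _ zero_le_one]; simp)
  rw [Finset.sum_const, nsmul_eq_mul, Finset.card_sdiff_of_subset hsub,
    Nat.cast_sub (Finset.card_le_card hsub)] at h
  exact h

theorem Pk.prisms (hP : Pk Z φ p) (hC : Conf Z w θ) {R : ℝ} (hR : 0 ≤ R) :
    ∑ y ∈ (hP.finC hC R).toFinset, p * cr y.1.1 y.1.2.1 y.1.2.2 / 2 ≤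
      (R + 5) ^ 3 * (π * 4 / 3) := by
  have hp : 0 < p := by linarith [hP.p2]
  refine pack_vol _ (Pr p) _ (Metric.ball 0 (R + 5)) _ (by positivity)
    (ball_real' _ _ (by linarith)).le (fun y _ => Pr_meas p y) ?_ ?_ ?_ ?_
  · rintro ⟨T, k⟩ hx ⟨T', k'⟩ hy hne
    have hx' := ((Finite.mem_toFinset _).1 hx).1
    have hy' := ((Finite.mem_toFinset _).1 hy).1
    refine Set.disjoint_left.2 ?_
    rintro x ⟨a1, a2, a3⟩ ⟨b1, b2, b3⟩
    simp only at a2 a3 b2 b3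
    have c1 : (k : ℝ) < k' + 1 := lt_of_mul_lt_mul_right (a2.trans b3) hp.le
    have c2 : (k' : ℝ) < k + 1 := lt_of_mul_lt_mul_right (b2.trans a3) hp.le
    have c3 : k < k' + 1 := by exact_mod_cast c1
    have c4 : k' < k + 1 := by exact_mod_cast c2
    exact hne (Prod.ext (hx'.disj hC hy' a1 b1) (by simp only; omega))
  · rintro ⟨T, k⟩ hy x ⟨a1, a2, a3⟩
    obtain ⟨b1, b2⟩ := (Finite.mem_toFinset _).1 hy
    have c1 := a1.near (b1.near hC 1).1 (b1.near hC 1).2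
    have c2 : ‖x - pos φ p (T.1, k)‖ ≤ 5 := by
      refine le_of_sq (by norm_num) ?_
      rw [← pt_eq x, pos, pt_sub_sq]
      simp only at a2 a3 c1 ⊢
      nlinarith [hP.f0 T.1, hP.f1 T.1, hP.p3]
    rw [mem_ball_zero_iff]
    linarith [norm_sub_norm_le x (pos φ p (T.1, k))]
  · intro y hy
    have := ((Finite.mem_toFinset _).1 hy).1.1.2.2.2.1
    positivity
  · intro y hy
    exact Pr_vol hp y ((Finite.mem_toFinset _).1 hy).1.1.2.2.2.1

theorem Pk.bound (hP : Pk Z φ p) (hC : Conf Z w θ) {l : ℝ} (h0 : 0 < l) (h1 : l ≤ 1 / 20)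
    {R : ℝ} (hR : 4 ≤ R) :
    volume (Metric.ball 0 R ∩
      ⋃ x ∈ {x : P2 × ℤ | x.1 ∈ Z}, Metric.closedBall (pos φ p x) (1 + l)) ≤
      ENNReal.ofReal ((2 * ((R + 3) ^ 3 - (R - 4) ^ 3) + Wv l / √32 * (R + 12) ^ 3) *
        (π * 4 / 3)) := by
  have hW := Wv_pos h0 (by linarith)
  have hκ : 0 ≤ Wv l / √32 := div_nonneg hW.le (Real.sqrt_nonneg _)
  set A := Wv l * (1 + 6 * kf l 4 - kf l (p ^ 2)) with hA
  have A0 : 0 ≤ A := by
    have := kf_diff h0 h1 4 le_rfl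
    have a1 : kf l (p ^ 2) ≤ kf l 4 := by
      rw [kf, kf, sqrt4, div_self two_ne_zero, Real.sqrt_sq (by linarith [hP.p2])]
      refine div_le_div_of_nonneg_right ?_ hW.le
      linarith [(cap_diff (h := p / 2) h0 (by linarith [hP.p2])).1]
    exact mul_nonneg hW.le (by linarith [kf_nonneg h0 h1 4])
  have A1 : A ≤ 2 * (π * 4 / 3) := by
    have a1 : Wv l ≤ 4 * π / 3 * (23 / 20) := by
      refine mul_le_mul_of_nonneg_left ?_ (by positivity)
      nlinarith [mul_pos h0 h0, mul_pos (mul_pos h0 h0) h0]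
    have a2 : A ≤ Wv l * (11 / 10) :=
      mul_le_mul_of_nonneg_left (by linarith [kf_four h0 h1, kf_nonneg h0 h1 (p ^ 2)]) hW.le
    linarith [pi_pos]
  have hc := count hC (hP.finG (R - 3)).toFinset (hP.finG (R + 2)).toFinset
    (hP.finC hC (R - 3)).toFinset (hP.finC hC (R + 7)).toFinset hP.nb (hf l p φ) (giv Z w p)
    (fun T => p * cr T.1 T.2.1 T.2.2 / 2) A (Wv l / √32) A0 hκ (hf_nonneg h0 h1) giv_nonneg
    (by
      rintro ⟨z, k⟩ hx
      obtain ⟨a1, a2⟩ := (Finite.mem_toFinset _).1 hx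
      refine ⟨a1, fun T t1 t2 => (Finite.mem_toFinset _).2 ⟨t1, ?_⟩⟩
      simp only at t2 ⊢
      rwa [t2])
    (by
      rintro ⟨T, k⟩ hy i
      obtain ⟨a1, a2⟩ := (Finite.mem_toFinset _).1 hy
      have d := a1.del i
      have n := pos_near hP k (a1.near hC i).1
      refine ⟨(Finite.mem_toFinset _).2 ⟨d.1, lt_of_le_of_lt n (by linarith)⟩,
        hP.mem_nb.2 ⟨d.ne.symm, d.2.1, ?_⟩⟩
      rw [d2_comm]
      exact d.side hC)
    (fun y hy => ((Finite.mem_toFinset _).1 hy).1)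
    (Finite.toFinset_subset_toFinset.2 fun x hx => ⟨hx.1, by linarith [hx.2]⟩)
    (by
      rintro ⟨T, k⟩ hy i T' j t1 t2
      obtain ⟨a1, a2⟩ := (Finite.mem_toFinset _).1 hy
      have n := pos_near hP k (a1.near hC i).1
      have n' := (t1.near hC j).2
      rw [t2, d2_comm] at n'
      have n'' := pos_near hP k n'
      refine (Finite.mem_toFinset _).2 ⟨t1, lt_of_le_of_lt n'' ?_⟩
      simp only [Prod.snd_swap] at a2 n ⊢
      linarith)
    (fun T hT => hT.main hC hP h0 h1)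
  have hs := hP.shell hR
  have hq := hP.prisms hC (R := R + 7) (by linarith)
  have hcard : ((hP.finG (R - 3)).toFinset.card : ℝ) ≤ (hP.finG (R + 2)).toFinset.card :=
    Nat.cast_le.2 (Finset.card_le_card
      (Finite.toFinset_subset_toFinset.2 fun x hx => ⟨hx.1, by linarith [hx.2]⟩))
  have hm : ∀ x ∈ (hP.finG (R + 2)).toFinset, x.1 ∈ Z := fun x hx =>
    ((Finite.mem_toFinset _).1 hx).1
  refine (measure_mono (hP.cover h1 R)).trans ((measure_biUnion_finset_le _ _).trans ?_)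
  simp only [measure_preimage_add]
  refine (Finset.sum_le_sum fun x hx => (hP.cell_le h0 h1 (hm x hx)).1).trans ?_
  rw [← ENNReal.ofReal_sum_of_nonneg fun x hx => (hP.cell_le h0 h1 (hm x hx)).2]
  refine ENNReal.ofReal_le_ofReal ?_
  rw [Finset.sum_sub_distrib, Finset.sum_const, nsmul_eq_mul, ← hA]
  have b1 := mul_le_mul_of_nonneg_left hq hκ
  have b2 := mul_le_mul_of_nonneg_left A1 (sub_nonneg.2 hcard)
  rw [show R + 7 + 5 = R + 12 by ring] at b1
  linarith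

theorem Pk.dens (hP : Pk Z φ p) {l : ℝ} (h0 : 0 < l) (h1 : l ≤ 1 / 20) (U : Set E3)
    (hU : U ⊆ ⋃ x ∈ {x : P2 × ℤ | x.1 ∈ Z}, Metric.closedBall (pos φ p x) (1 + l)) :
    limsup (fun R : ℝ => volume (Metric.ball 0 R ∩ U) / volume (Metric.ball (0 : E3) R)) atTop ≤
      ENNReal.ofReal (Wv l / √32) := by
  obtain ⟨M, hM, hP', hs⟩ := hP.saturate
  obtain ⟨w, θ, hC⟩ := exists_conf hP'.sep hs
  have h2 : ∀ c : ℝ, Tendsto (fun R : ℝ => (R + c) / R) atTop (𝓝 1) := by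
    intro c
    have h2 : Tendsto (fun R : ℝ => 1 + c / R) atTop (𝓝 (1 + 0)) :=
      tendsto_const_nhds.add (tendsto_const_nhds.div_atTop tendsto_id)
    rw [add_zero] at h2
    refine h2.congr' ?_
    filter_upwards [eventually_gt_atTop 0] with R hR
    field_simp
  have h3 := (ENNReal.continuous_ofReal.tendsto _).comp
    (((((h2 3).pow 3).sub ((h2 (-4)).pow 3)).const_mul 2).add
      (((h2 12).pow 3).const_mul (Wv l / √32)))
  simp only [one_pow, sub_self, mul_zero, zero_add, mul_one] at h3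
  rw [← h3.limsup_eq]
  refine limsup_le_limsup ?_
  filter_upwards [eventually_ge_atTop 4] with R hR
  have hR0 : 0 < R := by linarith
  have h4 := (measure_mono (inter_subset_inter_right _ (hU.trans (biUnion_subset_biUnion_left
    (s' := {x : P2 × ℤ | x.1 ∈ M}) fun x hx => hM hx)))).trans (hP'.bound hC h0 h1 hR)
  rw [ball_real' _ _ hR0.le]
  refine ENNReal.div_le_of_le_mul (h4.trans ?_)
  rw [Function.comp, ← ENNReal.ofReal_mul' (by positivity)]
  refine ENNReal.ofReal_le_ofReal (le_of_eq ?_)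
  field_simp
  ring

end Pool.Agent.Lib.MP_f3b2fd_co
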