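import Mathlib
import Pool.Agent.Lib.MP_f3b2fd_co.SPMain

set_option autoImplicit false

open MeasureTheory Set Real Filter Topology

namespace Pool.Agent.Lib.MP_f3b2fd_co

open Module Submodule

theorem exists_pk (X : Set E3) (hX : ∀ x ∈ X, ∀ y ∈ X, x ≠ y → 2 ≤ ‖x - y‖) {p : ℝ}
    (p2 : 2 ≤ p) (p3 : p ≤ 13 / 5) (hinv : ∀ z s, pt z s ∈ X → pt z (s + p) ∈ X) :
    ∃ Z φ, Pk Z φ p ∧ ∀ x ∈ X, ∃ y : P2 × ℤ, y.1 ∈ Z ∧ pos φ p y = x := by
  have hp : 0 < p := by linarith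
  have hn : ∀ (n : ℕ) z s, pt z s ∈ X → pt z (s + n * p) ∈ X := by
    intro n z s h
    induction n with
    | zero => simpa using h
    | succ n ih =>
      have := hinv _ _ ih
      rwa [show s + n * p + p = s + (n + 1 : ℕ) * p by push_cast; ring] at this
  have key : ∀ a b s t (k : ℤ), pt a s ∈ X → pt b t ∈ X → (a ≠ b ∨ s - t + k * p ≠ 0) →
      4 ≤ d2 a b + (s - t + k * p) ^ 2 := by
    have aux : ∀ a b s t, pt a s ∈ X → pt b t ∈ X → (a ≠ b ∨ s - t ≠ 0) →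
        4 ≤ d2 a b + (s - t) ^ 2 := by
      intro a b s t ha hb hne
      have h1 := hX _ ha _ hb (by
        intro e
        have e0 := congrArg (fun x : E3 => x 0) e
        have e1 := congrArg (fun x : E3 => x 1) e
        have e2 := congrArg (fun x : E3 => x 2) e
        rcases hne with h | h
        · exact h (Prod.ext e0 e1)
        · exact h (sub_eq_zero.2 e2))
      rw [← pt_sub_sq]
      nlinarith
    intro a b s t k ha hb hne
    obtain ⟨n, rfl | rfl⟩ := Int.eq_nat_or_neg k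
    · have e : s + n * p - t = s - t + ((n : ℤ) : ℝ) * p := by push_cast; ring
      have := aux a b _ t (hn n a s ha) hb (by rwa [e])
      rwa [e] at this
    · have e : s - (t + n * p) = s - t + ((-(n : ℤ) : ℤ) : ℝ) * p := by push_cast; ring
      have := aux a b s _ ha (hn n b t hb) (by rwa [e])
      rwa [e] at this
  have hs : ∀ z : P2, ∃ s, (∃ s', pt z s' ∈ X) → pt z s ∈ X := fun z => by
    by_cases h : ∃ s', pt z s' ∈ X
    · exact ⟨h.choose, fun _ => h.choose_spec⟩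
    · exact ⟨0, fun h' => absurd h' h⟩
  choose s hs using hs
  refine ⟨{z | ∃ s', pt z s' ∈ X}, fun z => toIcoMod hp 0 (s z), ⟨p2, p3,
    fun z => (toIcoMod_mem_Ico' hp (s z)).1, fun z => (toIcoMod_mem_Ico' hp (s z)).2, ?_⟩, ?_⟩
  · intro a ha b hb hne k
    have := key a b _ _ (k - toIcoDiv hp 0 (s a) + toIcoDiv hp 0 (s b)) (hs a ha) (hs b hb)
      (Or.inl hne)
    simp only [toIcoMod, zsmul_eq_mul]
    push_cast at this
    convert this using 3
    ring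
  · intro x hx
    rw [← pt_eq x] at hx
    have hz : ∃ s', pt (x 0, x 1) s' ∈ X := ⟨_, hx⟩
    have h1 := toIcoMod_mem_Ico hp (-(p / 2)) (x 2 - s (x 0, x 1))
    have h2 := key _ _ _ _ (-toIcoDiv hp (-(p / 2)) (x 2 - s (x 0, x 1))) hx (hs _ hz)
    simp only [toIcoMod, zsmul_eq_mul] at h1
    push_cast at h2
    have h3 : x 2 - s (x 0, x 1) + -(toIcoDiv hp (-(p / 2)) (x 2 - s (x 0, x 1)) : ℝ) * p = 0 := by
      by_contra h
      have h4 := h2 (Or.inr h)
      rw [d2_self] at h4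
      nlinarith [h1.1, h1.2]
    refine ⟨((x 0, x 1), toIcoDiv hp 0 (s (x 0, x 1)) +
      toIcoDiv hp (-(p / 2)) (x 2 - s (x 0, x 1))), hz, ?_⟩
    rw [pos]
    conv_rhs => rw [← pt_eq x]
    congr 1
    simp only [toIcoMod, zsmul_eq_mul]
    push_cast
    linarith

theorem short_main (X : Set E3) (hX : ∀ x ∈ X, ∀ y ∈ X, x ≠ y → 2 ≤ ‖x - y‖) (t : E3)
    (ht0 : t ≠ 0) (ht : ‖t‖ ≤ 13 / 5) (hinv : ∀ x ∈ X, x + t ∈ X) {l : ℝ} (h0 : 0 < l)
    (h1 : l ≤ 1 / 20) :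
    limsup (fun R : ℝ => volume (Metric.ball 0 R ∩ ⋃ x ∈ X, Metric.closedBall x (1 + l)) /
      volume (Metric.ball (0 : E3) R)) atTop ≤ ENNReal.ofReal (Wv l / √32) := by
  rcases X.eq_empty_or_nonempty with rfl | ⟨x0, hx0⟩
  · simp
  have p2 : 2 ≤ ‖t‖ := by
    have := hX _ (hinv x0 hx0) _ hx0 (by simpa using ht0)
    simpa using this
  have hp : 0 < ‖t‖ := by linarith
  set e : E3 := EuclideanSpace.single 2 1 with he
  have hen : ‖e‖ = 1 := by simp [he]
  set F : E3 ≃ₗᵢ[ℝ] E3 := Submodule.reflection (ℝ ∙ (e - ‖t‖⁻¹ • t))ᗮ with hF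
  have hFe : F e = ‖t‖⁻¹ • t := Submodule.reflection_sub
    (by rw [hen, norm_smul, norm_inv, norm_norm, inv_mul_cancel₀ hp.ne'])
  obtain ⟨Z, φ, hP, hc⟩ := exists_pk (F ⁻¹' X) (p := ‖t‖) (by
      intro x hx y hy hne
      have := hX _ hx _ hy fun e => hne (F.injective e)
      rwa [← map_sub, F.norm_map] at this) p2 ht (by
      intro z s h
      have e1 : pt z (s + ‖t‖) = pt z s + ‖t‖ • e := by
        ext i
        fin_cases i <;> simp [pt, he]
      rw [mem_preimage, e1, map_add, map_smul, hFe, smul_smul, mul_inv_cancel₀ hp.ne', one_smul]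
      exact hinv _ h)
  have h2 := hP.dens h0 h1 (F ⁻¹' ⋃ x ∈ X, Metric.closedBall x (1 + l)) (by
    intro y hy
    obtain ⟨x, hx, hxy⟩ := mem_iUnion₂.1 hy
    obtain ⟨v, hv, hv'⟩ := hc (F.symm x) (by simpa using hx)
    refine mem_iUnion₂.2 ⟨v, hv, ?_⟩
    rw [hv', Metric.mem_closedBall, ← F.dist_map, F.apply_symm_apply]
    exact hxy)
  refine le_trans (le_of_eq ?_) h2
  congr 1
  funext R
  congr 1
  rw [← MeasurePreserving.measure_preimage_equiv (f := F.toHomeomorph.toMeasurableEquiv)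
    F.measurePreserving]
  congr 1
  ext y
  simp

theorem det_lower (b : Basis (Fin 3) ℝ E3)
    (hp : ∀ v ∈ span ℤ (range b), v ≠ 0 → 13 / 5 ≤ ‖v‖) :
    ∃ c : Basis (Fin 3) ℝ E3, span ℤ (range c) = span ℤ (range b) ∧
      2197 / 1000 * √32 ≤ dt c := by
  obtain ⟨a0, a1, a2, a3, h, o1, o2⟩ := exists_obt' b
  have hs := span_of_sb h.sb
  obtain ⟨c, hc⟩ := basis_of_span b _ hs
  have e0 : c 0 = a0 := by rw [hc]; rfl
  have e1 : c 1 = a1 := by rw [hc]; rfl
  have e2 : c 2 = a2 := by rw [hc]; rfl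
  rw [← hc] at hs
  have hR := red_of_obt h o1 o2
  rw [← e0, ← e1, ← e2] at hR
  rw [← hs] at hp
  have hn : ∀ n : Fin 3 → ℤ, n ≠ 0 → 0 ≤ 100 / 169 * ‖phi c n‖ ^ 2 - 4 := fun n hn => by
    have := pow_le_pow_left₀ (by norm_num) (hp _ (phi_mem c n) (phi_ne c hn)) 2
    linarith
  have g0 : 0 ≤ 100 / 169 * ‖c 0‖ ^ 2 - 4 := by simpa [phi] using hn ![1, 0, 0] (by decide)
  have g1 : 0 ≤ 100 / 169 * ‖c 1‖ ^ 2 - 4 := by simpa [phi] using hn ![0, 1, 0] (by decide)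
  have g2 : 0 ≤ 100 / 169 * ‖c 2‖ ^ 2 - 4 := by simpa [phi] using hn ![0, 0, 1] (by decide)
  have g3 : 0 ≤ 100 / 169 * ‖c 0 + c 1 + c 2‖ ^ 2 - 4 := by
    simpa [phi] using hn ![1, 1, 1] (by decide)
  have g4 : 0 ≤ 100 / 169 * ‖c 0 + c 1‖ ^ 2 - 4 := by simpa [phi] using hn ![1, 1, 0] (by decide)
  have g5 : 0 ≤ 100 / 169 * ‖c 1 + c 2‖ ^ 2 - 4 := by simpa [phi] using hn ![0, 1, 1] (by decide)
  have k := cert_main (m0 := 0) (m1 := 0) (m2 := 0) (m3 := 0) (m4 := 0) (m5 := 0)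
    ⟨by linarith [hR.h0], by linarith [hR.h1], by linarith [hR.h2], by linarith [hR.h3],
      by linarith [hR.h4], by linarith [hR.h5], by linarith [hR.h6], by linarith [hR.h7]⟩
    g0 g1 g2 g3 g4 g5 (by linarith) (by linarith) (by linarith) (by linarith) (by linarith)
    (by linarith) (by norm_num) (by norm_num) (by norm_num) (by norm_num) (by norm_num)
    (by norm_num) (by norm_num)
  refine ⟨c, hs, le_of_sq (dt_pos c).le ?_⟩
  rw [mul_pow, Real.sq_sqrt (by norm_num), dt_sq]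
  unfold Dp at k ⊢
  linarith

theorem balls_vol (c : Basis (Fin 3) ℝ E3) (a : E3) (r : ℝ) :
    volume ((⋃ v ∈ (span ℤ (range c) : Set E3), Metric.closedBall (a + v) r) ∩
      ZSpan.fundamentalDomain c) ≤ volume (Metric.closedBall (0 : E3) r) := by
  rw [← Measure.addHaar_closedBall_center volume a, meas_tsum c (Metric.closedBall a r)]
  refine le_trans (measure_mono ?_) (measure_iUnion_le _)
  rintro y ⟨hy, hyF⟩
  obtain ⟨v, hv, hy⟩ := mem_iUnion₂.1 hy
  refine mem_iUnion.2 ⟨⟨v, hv⟩, ?_, hyF⟩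
  rw [mem_vadd_iff]
  rw [Metric.mem_closedBall, dist_eq_norm] at hy ⊢
  rwa [sub_sub, add_comm v a]

theorem double_main (b : Basis (Fin 3) ℝ E3) (a a' : E3) (X : Set E3)
    (hX : ∀ x ∈ X, ∀ y ∈ X, x ≠ y → 2 ≤ ‖x - y‖)
    (hm : ∀ x, x ∈ X ↔ x - a ∈ span ℤ (range b) ∨ x - a' ∈ span ℤ (range b)) {l : ℝ}
    (h0 : 0 < l) (h1 : l ≤ 1 / 20) :
    limsup (fun R : ℝ => volume (Metric.ball 0 R ∩ ⋃ x ∈ X, Metric.closedBall x (1 + l)) /
      volume (Metric.ball (0 : E3) R)) atTop ≤ ENNReal.ofReal (Wv l / √32) := by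
  by_cases hs : ∃ t ∈ span ℤ (range b), t ≠ 0 ∧ ‖t‖ ≤ 13 / 5
  · obtain ⟨t, ht, t0, t1⟩ := hs
    refine short_main X hX t t0 t1 (fun x hx => ?_) h0 h1
    rw [hm] at hx ⊢
    rw [add_sub_right_comm, add_sub_right_comm]
    exact hx.imp (fun h => add_mem h ht) fun h => add_mem h ht
  push Not at hs
  obtain ⟨c, hc, hd⟩ := det_lower b fun v hv v0 => (hs v hv v0).le
  rw [← hc] at hm
  have hper : Per c (⋃ x ∈ X, Metric.closedBall x (1 + l)) := by
    intro g hg y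
    simp only [mem_iUnion₂, Metric.mem_closedBall, dist_eq_norm, exists_prop]
    constructor
    · rintro ⟨x, hx, h⟩
      refine ⟨x + g, ?_, by rwa [add_comm x g, ← sub_sub]⟩
      rw [hm] at hx ⊢
      rw [add_sub_right_comm, add_sub_right_comm]
      exact hx.imp (fun h => add_mem h hg) fun h => add_mem h hg
    · rintro ⟨x, hx, h⟩
      refine ⟨x - g, ?_, by rwa [sub_sub_sub_cancel_right]⟩
      rw [hm] at hx ⊢
      rw [sub_right_comm, sub_right_comm x g]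
      exact hx.imp (fun h => sub_mem h hg) fun h => sub_mem h hg
  rw [(per_tendsto c _ hper).limsup_eq, fund_vol]
  refine ENNReal.div_le_of_le_mul ?_
  have hsub : (⋃ x ∈ X, Metric.closedBall x (1 + l)) ∩ ZSpan.fundamentalDomain c ⊆
      ((⋃ v ∈ (span ℤ (range c) : Set E3), Metric.closedBall (a + v) (1 + l)) ∩
        ZSpan.fundamentalDomain c) ∪
      ((⋃ v ∈ (span ℤ (range c) : Set E3), Metric.closedBall (a' + v) (1 + l)) ∩
        ZSpan.fundamentalDomain c) := by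
    rintro y ⟨hy, hyF⟩
    obtain ⟨x, hx, hy⟩ := mem_iUnion₂.1 hy
    rcases (hm x).1 hx with h | h
    · exact Or.inl ⟨mem_iUnion₂.2 ⟨x - a, h, by simpa using hy⟩, hyF⟩
    · exact Or.inr ⟨mem_iUnion₂.2 ⟨x - a', h, by simpa using hy⟩, hyF⟩
  refine ((measure_mono hsub).trans (measure_union_le _ _)).trans
    ((add_le_add (balls_vol c a _) (balls_vol c a' _)).trans ?_)
  have hW := Wv_pos h0 (by linarith)
  have h32 : (0 : ℝ) < √32 := Real.sqrt_pos.2 (by norm_num)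
  rw [ball_real _ (by linarith), ← ENNReal.ofReal_add (by positivity) (by positivity),
    ← ENNReal.ofReal_mul (div_pos hW h32).le]
  refine ENNReal.ofReal_le_ofReal ?_
  have k1 : Wv l / √32 * (2197 / 1000 * √32) ≤ Wv l / √32 * dt c :=
    mul_le_mul_of_nonneg_left hd (div_pos hW h32).le
  have k2 : Wv l / √32 * (2197 / 1000 * √32) = 2197 / 1000 * Wv l := by field_simp
  have k3 : 2 * (1 + l) ^ 3 ≤ 2197 / 1000 * (1 + 3 * l - 6 * l ^ 2 - 5 * l ^ 3) := by
    nlinarith [mul_pos h0 h0, mul_nonneg h0.le (sub_nonneg.2 h1),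
      mul_nonneg (mul_pos h0 h0).le (sub_nonneg.2 h1)]
  have k4 := mul_le_mul_of_nonneg_left k3 (show 0 ≤ π * 4 / 3 by positivity)
  rw [k2, Wv] at k1
  rw [Wv]
  exact le_trans (by linarith) k1

theorem fcc_basis : ∃ c : Basis (Fin 3) ℝ E3, Reg c ∧ ∀ x : E3, x ∈ span ℤ (range c) ↔
    ∃ i j k : ℤ, Even (i + j + k) ∧ x = !₂[√2 * i, √2 * j, √2 * k] := by
  have h2 : √2 ^ 2 = 2 := Real.sq_sqrt (by norm_num)
  have h0 : (0 : ℝ) < √2 := Real.sqrt_pos.2 (by norm_num)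
  set v : Fin 3 → E3 := ![!₂[√2, √2, 0], !₂[0, -√2, √2], !₂[-√2, √2, 0]] with hv
  have hli : LinearIndependent ℝ v := by
    rw [Fintype.linearIndependent_iff]
    intro g hg
    have k0 := congrArg (fun x : E3 => x 0) hg
    have k1 := congrArg (fun x : E3 => x 1) hg
    have k2 := congrArg (fun x : E3 => x 2) hg
    simp [hv, Fin.sum_univ_three] at k0 k1 k2
    have z0 : g 0 = 0 := by
      rw [k2] at k1
      nlinarith
    have z1 : g 1 = 0 := k2
    have z2 : g 2 = 0 := by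
      rw [k2] at k1
      nlinarith
    intro i
    fin_cases i
    · exact z0
    · exact z1
    · exact z2
  have key : ∀ x : E3, x 0 ^ 2 + x 1 ^ 2 + x 2 ^ 2 = 4 → ‖x‖ = 2 := by
    intro x hx
    rw [← sq_eq_sq₀ (norm_nonneg _) (by norm_num), EuclideanSpace.real_norm_sq_eq,
      Fin.sum_univ_three, hx]
    norm_num
  refine ⟨basisOfLinearIndependentOfCardEqFinrank hli (by simp), ?_, fun x => ?_⟩
  · refine ⟨?_, ?_, ?_, ?_, ?_, ?_⟩ <;> refine key _ ?_ <;> simp [hv] <;> norm_num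
  · rw [coe_basisOfLinearIndependentOfCardEqFinrank, mem_span_range_iff_exists_fun,
      ← eq_iff_iff]
    simp only [Fin.sum_univ_three, ← Int.cast_smul_eq_zsmul ℝ, eq_iff_iff]
    constructor
    · rintro ⟨n, rfl⟩
      refine ⟨n 0 - n 2, n 0 - n 1 + n 2, n 1, ⟨n 0, by ring⟩, ?_⟩
      ext i
      fin_cases i <;> simp [hv] <;> ring
    · rintro ⟨i, j, k, ⟨m, hm⟩, rfl⟩
      refine ⟨![m, k, m - i], ?_⟩
      have hj : (j : ℝ) = m + m - i - k := by
        have : j = m + m - i - k := by omega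
        exact_mod_cast this
      ext a
      fin_cases a <;> simp [hv, hj] <;> ring

theorem fcc_main (X : Set E3)
    (hX : X = {x | ∃ i j k : ℤ, Even (i + j + k) ∧ x = !₂[√2 * i, √2 * j, √2 * k]}) :
    ∃ c : Basis (Fin 3) ℝ E3, X = (span ℤ (range c) : Submodule ℤ E3) ∧ ‖c 0‖ = 2 ∧
      (∀ x ∈ X, ∀ y ∈ X, x ≠ y → 2 ≤ ‖x - y‖) ∧ ∀ l : ℝ, 0 < l → l ≤ 1 / 20 →
      limsup (fun R : ℝ => volume (Metric.ball 0 R ∩ ⋃ x ∈ X, Metric.closedBall x (1 + l)) /
        volume (Metric.ball (0 : E3) R)) atTop = ENNReal.ofReal (Wv l / √32) := by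
  obtain ⟨c, hc, hm⟩ := fcc_basis
  have e : X = (span ℤ (range c) : Submodule ℤ E3) := by
    rw [hX]
    ext x
    exact (hm x).symm
  clear hX
  subst e
  have hp : ∀ x ∈ ((span ℤ (range c) : Submodule ℤ E3) : Set E3),
      ∀ y ∈ ((span ℤ (range c) : Submodule ℤ E3) : Set E3), x ≠ y → 2 ≤ ‖x - y‖ :=
    fun x hx y hy hne => reg_pack hc _ (sub_mem hx hy) (sub_ne_zero.2 hne)
  refine ⟨c, rfl, hc.n0, hp, fun l h0 h1 => le_antisymm
    (double_main c 0 0 _ hp (fun x => by simp) h0 h1) ?_⟩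
  refine le_trans ?_ (per_tendsto c _ (per_balls c (1 + l))).limsup_eq.ge
  rw [rho_eq]
  exact ENNReal.ofReal_le_ofReal (lower_main hc h0 (by nlinarith))

end Pool.Agent.Lib.MP_f3b2fd_co
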